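import Pool.Agent.Lib.MP_12b00b_co.Submod

/-! Branch decompositions and tangles of connectivity functions. -/

namespace Pool.Agent.Lib.MP_12b00b_co

open Finset

/-- sets with a branch decomposition of width at most `K` -/
inductive Br {α : Type} [DecidableEq α] (lam : Finset α → ℕ) (K : ℕ) : Finset α → Prop
  | leaf (X : Finset α) : lam X ≤ K → #X ≤ 1 → Br lam K X
  | node (X Y : Finset α) : lam (X ∪ Y) ≤ K → Disjoint X Y → X.Nonempty → Y.Nonempty →
      Br lam K X → Br lam K Y → Br lam K (X ∪ Y)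

theorem Br.le {α : Type} [DecidableEq α] {lam : Finset α → ℕ} {K : ℕ} {X : Finset α}
    (h : Br lam K X) : lam X ≤ K := by
  cases h <;> assumption

theorem Br.map {α β : Type} [DecidableEq α] [DecidableEq β] {lam : Finset α → ℕ}
    {lam' : Finset β → ℕ} {K : ℕ} (ι : α ↪ β) (hl : ∀ X, lam' (X.map ι) ≤ lam X) {X : Finset α}
    (h : Br lam K X) : Br lam' K (X.map ι) := by
  induction h with
  | leaf X h1 h2 => exact .leaf _ ((hl X).trans h1) (by simpa using h2)
  | node X Y h1 h2 h3 h4 _ _ ih1 ih2 =>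
    rw [map_union]
    exact .node _ _ (by rw [← map_union]; exact (hl _).trans h1) (by simpa using h2)
      (by simpa using h3) (by simpa using h4) ih1 ih2

variable {E : Type} [Fintype E] [DecidableEq E]

/-- connectivity functions -/
structure Conn (lam : Finset E → ℕ) : Prop where
  compl : ∀ X, lam Xᶜ = lam X
  submod : ∀ X Y, lam (X ∪ Y) + lam (X ∩ Y) ≤ lam X + lam Y
  le_card : ∀ X, lam X ≤ #X

/-- the rank function of a tangle of order `k` -/
structure Tangle (lam rk : Finset E → ℕ) (k : ℕ) : Prop where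
  isRK : RK rk
  empty : rk ∅ = 0
  univ : rk univ = k
  flat : ∀ X, rk X < k → ∃ Y, X ⊆ Y ∧ lam Y = rk X ∧ rk Y = rk X ∧
    ∀ e ∉ Y, rk Y < rk (insert e Y)
  sep : ∀ Z, lam Z < k → rk Z ≤ lam Z ∨ rk Zᶜ ≤ lam Z
  small : ∀ X, lam X < k → rk X < k → rk X ≤ lam X

variable {lam : Finset E → ℕ}

theorem Conn.insert_le (h : Conn lam) (X : Finset E) (e : E) : lam (insert e X) ≤ lam X + 1 := by
  have h1 := h.submod {e} X
  have h2 := h.le_card {e}
  rw [card_singleton] at h2
  rw [insert_eq]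
  omega

theorem Conn.erase_le (h : Conn lam) (X : Finset E) (e : E) : lam (X.erase e) ≤ lam X + 1 := by
  have := h.insert_le Xᶜ e
  rwa [← compl_erase, h.compl, h.compl] at this

theorem Conn.empty (h : Conn lam) : lam ∅ = 0 := by simpa using h.le_card ∅

theorem Conn.univ (h : Conn lam) : lam univ = 0 := by
  rw [← compl_empty, h.compl, h.empty]

theorem tangle_of (h : Conn lam) {k : ℕ} (hk : 1 ≤ k) (W : Finset E) (hW : #W = 3 * k)
    (hsep : ∀ Z, lam Z < k → #(Z ∩ W) < k ∨ #(Zᶜ ∩ W) < k) : ∃ rk, Tangle lam rk k := by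
  let A : Finset E → Set ℕ := fun X => {n | n = k ∨ ∃ Y, X ⊆ Y ∧ #(Y ∩ W) < k ∧ lam Y = n}
  let rk : Finset E → ℕ := fun X => sInf (A X)
  have le_k : ∀ X, rk X ≤ k := fun X => Nat.sInf_le (Or.inl rfl)
  have le_lam : ∀ X Y, X ⊆ Y → #(Y ∩ W) < k → rk X ≤ lam Y := fun X Y h1 h2 =>
    Nat.sInf_le (Or.inr ⟨Y, h1, h2, rfl⟩)
  have ex : ∀ X, rk X < k → ∃ Y, X ⊆ Y ∧ #(Y ∩ W) < k ∧ lam Y = rk X := fun X hX =>
    (Nat.sInf_mem (s := A X) ⟨k, Or.inl rfl⟩).resolve_left hX.ne
  have hc : ∀ Z : Finset E, #(Z ∩ W) + #(Zᶜ ∩ W) = 3 * k := fun Z => by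
    rw [← hW, ← card_inter_add_card_sdiff W Z, inter_comm Z, inter_comm Zᶜ, sdiff_eq_inter_compl]
  have mono : ∀ X Y, X ⊆ Y → rk X ≤ rk Y := fun X Y hXY => by
    rcases (le_k Y).lt_or_eq with h1 | h1
    · obtain ⟨Z, z1, z2, z3⟩ := ex Y h1
      exact z3 ▸ le_lam X Z (hXY.trans z1) z2
    · exact h1 ▸ le_k X
  have up : ∀ X Y, X ⊆ Y → #(Y ∩ W) ≤ 2 * k → rk X ≤ lam Y := fun X Y h1 h2 => by
    by_cases h3 : lam Y < k
    · refine le_lam X Y h1 ((hsep Y h3).resolve_right ?_)
      have := hc Y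
      omega
    · exact (le_k X).trans (not_lt.1 h3)
  have hrk : RK rk := by
    refine ⟨mono, fun X Y => ?_, fun X e => ?_⟩
    · rcases (le_k X).lt_or_eq with h1 | h1
      · rcases (le_k Y).lt_or_eq with h2 | h2
        · obtain ⟨Z, z1, z2, z3⟩ := ex X h1
          obtain ⟨Z', y1, y2, y3⟩ := ex Y h2
          have a1 := up (X ∪ Y) (Z ∪ Z') (union_subset_union z1 y1) (by
            rw [union_inter_distrib_right]
            have := card_union_le (Z ∩ W) (Z' ∩ W)
            omega)
          have a2 := le_lam (X ∩ Y) (Z ∩ Z') (inter_subset_inter z1 y1)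
            ((card_le_card (inter_subset_inter_right inter_subset_left)).trans_lt z2)
          have a3 := h.submod Z Z'
          omega
        · have a1 := le_k (X ∪ Y)
          have a2 := mono _ _ (inter_subset_left (s₁ := X) (s₂ := Y))
          omega
      · have a1 := le_k (X ∪ Y)
        have a2 := mono _ _ (inter_subset_right (s₁ := X) (s₂ := Y))
        omega
    · rcases (le_k X).lt_or_eq with h1 | h1
      · obtain ⟨Z, z1, z2, z3⟩ := ex X h1
        have a1 := up (insert e X) (insert e Z) (insert_subset_insert _ z1) (by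
          have b1 : insert e Z ∩ W ⊆ insert e (Z ∩ W) := fun y hy => by
            simp only [mem_inter, mem_insert] at hy ⊢
            tauto
          have b2 := card_le_card b1
          have b3 := card_insert_le e (Z ∩ W)
          omega)
        have a2 := h.insert_le Z e
        omega
      · have := le_k (insert e X)
        omega
  refine ⟨rk, hrk, ?_, ?_, fun X hX => ?_, fun Z hZ => ?_, fun X h1 h2 => ?_⟩
  · have := le_lam ∅ ∅ (Subset.refl _) (by simp; omega)
    rw [h.empty] at this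
    omega
  · by_contra hne
    obtain ⟨Z, z1, z2, -⟩ := ex univ (lt_of_le_of_ne (le_k _) hne)
    rw [univ_subset_iff.1 z1, univ_inter] at z2
    omega
  · obtain ⟨Y0, hY0⟩ := ex X hX
    obtain ⟨Y, hY, hmax⟩ := exists_max_image
      (univ.filter fun Y => X ⊆ Y ∧ #(Y ∩ W) < k ∧ lam Y = rk X) card ⟨Y0, by simpa using hY0⟩
    simp only [mem_filter, mem_univ, true_and] at hY hmax
    have a1 := le_lam Y Y (Subset.refl _) hY.2.1
    have a2 := mono _ _ hY.1
    refine ⟨Y, hY.1, hY.2.2, by omega, fun e he => ?_⟩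
    by_contra hn
    obtain ⟨Z, z1, z2, z3⟩ := ex (insert e Y) (by omega)
    have a3 := mono _ _ (subset_insert e Y)
    have a4 := hmax Z ⟨hY.1.trans ((subset_insert _ _).trans z1), z2, by omega⟩
    have a5 := card_le_card z1
    rw [card_insert_of_notMem he] at a5
    omega
  · refine (hsep Z hZ).imp (le_lam Z Z (Subset.refl _)) fun h1 => ?_
    exact h.compl Z ▸ le_lam _ _ (Subset.refl _) h1
  · obtain ⟨Z, z1, z2, -⟩ := ex X h2
    exact le_lam X X (Subset.refl _) ((card_le_card (inter_subset_inter_right z1)).trans_lt z2)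

theorem exists_dual_basis (h : Conn lam) (X : Finset E) : ∃ W ⊆ Xᶜ, #W = lam X ∧
    ∀ Z, X ⊆ Z → #(Zᶜ ∩ W) ≤ lam Z := by
  let A : Finset E → Set ℕ := fun V => {n | ∃ Z, X ⊆ Z ∧ Disjoint Z (V \ X) ∧ lam Z = n}
  let g : Finset E → ℕ := fun V => sInf (A V)
  have le : ∀ V Z, X ⊆ Z → Disjoint Z (V \ X) → g V ≤ lam Z := fun V Z h1 h2 =>
    Nat.sInf_le ⟨Z, h1, h2, rfl⟩
  have ex : ∀ V, ∃ Z, X ⊆ Z ∧ Disjoint Z (V \ X) ∧ lam Z = g V := fun V =>
    Nat.sInf_mem (s := A V) ⟨_, X, Subset.refl _, disjoint_sdiff, rfl⟩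
  have hg : RK g := by
    refine ⟨fun V V' hV => ?_, fun V V' => ?_, fun V e => ?_⟩
    · obtain ⟨Z, z1, z2, z3⟩ := ex V'
      exact z3 ▸ le V Z z1 (z2.mono_right (sdiff_subset_sdiff hV (Subset.refl _)))
    · obtain ⟨Z, z1, z2, z3⟩ := ex V
      obtain ⟨Z', y1, y2, y3⟩ := ex V'
      rw [disjoint_left] at z2 y2
      have a1 := le (V ∪ V') (Z ∩ Z') (subset_inter z1 y1) (disjoint_left.2 fun e he he' => by
        have := @z2 e
        have := @y2 e
        simp only [mem_inter, mem_sdiff, mem_union] at *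
        tauto)
      have a2 := le (V ∩ V') (Z ∪ Z') (z1.trans subset_union_left)
        (disjoint_left.2 fun e he he' => by
          have := @z2 e
          have := @y2 e
          simp only [mem_inter, mem_sdiff, mem_union] at *
          tauto)
      have a3 := h.submod Z Z'
      omega
    · obtain ⟨Z, z1, z2, z3⟩ := ex V
      rw [disjoint_left] at z2
      by_cases he : e ∈ X
      · have := le (insert e V) Z z1 (disjoint_left.2 fun y hy hy' => by
          simp only [mem_sdiff, mem_insert] at hy'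
          rcases hy' with ⟨rfl | h1, h2⟩
          exacts [h2 he, z2 hy (mem_sdiff.2 ⟨h1, h2⟩)])
        omega
      · have := le (insert e V) (Z.erase e) (subset_erase.2 ⟨z1, he⟩)
          (disjoint_left.2 fun y hy hy' => by
            simp only [mem_sdiff, mem_insert, mem_erase] at hy hy'
            rcases hy' with ⟨rfl | h1, h2⟩
            exacts [hy.1 rfl, z2 hy.2 (mem_sdiff.2 ⟨h1, h2⟩)])
        have := h.erase_le Z e
        omega
  have g0 : g ∅ = 0 := by
    have := le ∅ univ (subset_univ _) (by simp)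
    rw [h.univ] at this
    omega
  obtain ⟨W, -, w0, w1, w2⟩ := hg.exists_basis g0 (empty_subset Xᶜ) (by simpa using g0)
  refine ⟨W, w0, ?_, fun Z hZ => ?_⟩
  · obtain ⟨Z, z1, z2, z3⟩ := ex Xᶜ
    have : Z = X := Subset.antisymm (fun e he => by
      by_contra hn
      exact disjoint_left.1 z2 he (by simpa using hn)) z1
    rw [← w1, w2, ← z3, this]
  · rw [← hg.indep_subset g0 inter_subset_right w1]
    exact le _ Z hZ (disjoint_left.2 fun e he he' => by simp [he] at he')

theorem br_or_tangle (h : Conn lam) {k : ℕ} (hk : 1 ≤ k) :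
    Br lam (3 * k) univ ∨ ∃ rk, Tangle lam rk k := by
  refine or_iff_not_imp_right.2 fun hn => ?_
  suffices H : ∀ X, lam X ≤ 3 * k → Br lam (3 * k) X from H _ (by rw [h.univ]; omega)
  intro X
  induction X using Finset.strongInductionOn with
  | _ X ih =>
  intro hX
  by_cases h1 : #X ≤ 1
  · exact .leaf X hX h1
  rcases hX.lt_or_eq with hlt | heq
  · obtain ⟨e, he⟩ := card_pos.1 (by omega : 0 < #X)
    have e1 : X = {e} ∪ X.erase e := by rw [← insert_eq, insert_erase he]
    have e2 := h.erase_le X e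
    have e3 := h.le_card {e}
    rw [card_singleton] at e3
    have := Br.node (lam := lam) (K := 3 * k) {e} (X.erase e) (e1 ▸ hX) (by simp) (by simp)
      (card_pos.1 (by rw [card_erase_of_mem he]; omega)) (.leaf _ (by omega) (by simp))
      (ih _ (erase_ssubset he) (by omega))
    rwa [← e1] at this
  obtain ⟨W, w0, w1, w2⟩ := exists_dual_basis h X
  obtain ⟨Z, z1, z2⟩ : ∃ Z, lam Z < k ∧ ¬ (#(Z ∩ W) < k ∨ #(Zᶜ ∩ W) < k) := by
    by_contra hc
    exact hn (tangle_of h hk W (w1.trans heq) fun Z hZ => by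
      by_contra hh
      exact hc ⟨Z, hZ, hh⟩)
  have key : ∀ Z, lam Z < k → k ≤ #(Zᶜ ∩ W) → lam (X ∩ Z) < lam X := fun Z h1 h2 => by
    have a1 := h.submod X Z
    have a2 := w2 (X ∪ Z) subset_union_left
    have a3 : Zᶜ ∩ W ⊆ (X ∪ Z)ᶜ ∩ W := fun e he => by
      have := @w0 e
      simp only [mem_inter, mem_compl, mem_union] at *
      tauto
    have a4 := card_le_card a3
    omega
  rw [not_or, not_lt, not_lt] at z2
  have k1 := key Z z1 z2.2
  have k2 := key Zᶜ (by rwa [h.compl]) (by rw [compl_compl]; exact z2.1)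
  have e1 : X = X ∩ Z ∪ X ∩ Zᶜ := by rw [← inter_union_distrib_left, union_compl, inter_univ]
  have s1 : X ∩ Z ⊂ X := ssubset_of_subset_of_ne inter_subset_left fun hh => by
    rw [hh] at k1
    exact lt_irrefl _ k1
  have s2 : X ∩ Zᶜ ⊂ X := ssubset_of_subset_of_ne inter_subset_left fun hh => by
    rw [hh] at k2
    exact lt_irrefl _ k2
  have := Br.node (lam := lam) (K := 3 * k) (X ∩ Z) (X ∩ Zᶜ) (e1 ▸ hX)
    (disjoint_left.2 fun e h1 h2 => by simp at h1 h2; exact h2.2 h1.2)
    (nonempty_iff_ne_empty.2 fun hh => by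
      rw [hh, empty_union] at e1
      exact s2.ne e1.symm)
    (nonempty_iff_ne_empty.2 fun hh => by
      rw [hh, union_empty] at e1
      exact s1.ne e1.symm) (ih _ s1 (by omega)) (ih _ s2 (by omega))
  rwa [← e1] at this

end Pool.Agent.Lib.MP_12b00b_co
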