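import Pool.Agent.Lib.MP_12b00b_co.Ess
import Pool.Agent.Lib.MP_12b00b_co.Tangle

/-! Counting the arcs of a reduced network along a branch decomposition. -/

namespace Pool.Agent.Lib.MP_12b00b_co

open Finset

variable {V : Type} [Fintype V] [DecidableEq V] {adj : V → V → Prop} {S T C C' : Finset V} {v : V}

/-- in the cut or dominated by it -/
def Dm (adj : V → V → Prop) (S T C : Finset V) (v : V) : Prop :=
  v ∈ C ∨ Dom adj T C v ∨ Dom (flip adj) S C v

omit [Fintype V] [DecidableEq V] in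
theorem Dom.mono (h : Dom adj T C v) (hC : C ⊆ C') : Dom adj T C' v := by
  obtain ⟨D, d1, d2⟩ := h
  exact ⟨D, d1, by simp, d2.snk, fun a ha b hb => (d2.step a ha b hb).imp_right fun hh => hC hh⟩

omit [Fintype V] [DecidableEq V] in
theorem Dm.mono (h : Dm adj S T C v) (hC : C ⊆ C') : Dm adj S T C' v :=
  h.imp (fun hh => hC hh) (Or.imp (fun hh => hh.mono hC) fun hh => hh.mono hC)

omit [Fintype V] in
theorem Cut.inter {X1 X2 Y1 Y2 R1 R2 G1 G2 : Finset V} (h1 : Cut adj X1 Y1 R1 G1)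
    (h2 : Cut adj X2 Y2 R2 G2) : Cut adj ∅ (Y1 ∪ Y2) (R1 ∩ R2) (G1 ∪ G2) := by
  refine ⟨by simp, fun y hy hh => ?_, fun a ha b hb => ?_⟩
  · exact (mem_union.1 hy).elim (fun h => h1.snk y h (mem_inter.1 hh).1)
      fun h => h2.snk y h (mem_inter.1 hh).2
  · have := h1.step a (mem_inter.1 ha).1 b hb
    have := h2.step a (mem_inter.1 ha).2 b hb
    simp only [mem_union, mem_inter]
    tauto

theorem inside_count (S T : Finset V) (adj : V → V → Prop) (K u : ℕ) (H : Finset (V × V))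
    (hH : ∀ p ∈ H, adj p.1 p.2)
    (hU : ∀ C : Finset V, #C ≤ 3 * K → ∃ U : Finset V, #U ≤ u ∧
      ∀ p ∈ H, (Dm adj S T C p.1 → p.1 ∈ U) ∧ (Dm adj S T C p.2 → p.2 ∈ U))
    (hB : Br (fun X => cut adj (S ∩ X) (T \ X) + cut adj (S \ X) (T ∩ X)) K (S ∪ T))
    (hne : (S ∪ T).Nonempty) (hd : Disjoint S T) : #H ≤ u * u * #(S ∪ T) := by
  classical
  choose R1 G1 c1 d1 using fun X => exists_cut adj (S ∩ X) (T \ X)
  choose R2 G2 c2 d2 using fun X => exists_cut adj (S \ X) (T ∩ X)
  let In : Finset V → V → Prop := fun X v => ¬ Dm adj S T (G1 X ∪ G2 X) v ∧ v ∈ R1 X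
  have tri : ∀ X v, ¬ Dm adj S T (G1 X ∪ G2 X) v → (v ∈ R1 X ↔ v ∉ R2 X) := fun X v h => by
    simp only [Dm, not_or, mem_union] at h
    refine ⟨fun h1 h2 => h.2.1 ⟨_, mem_inter.2 ⟨h1, h2⟩, ((c1 X).inter (c2 X)).mono
      (Subset.refl _) (by rw [sdiff_union_inter])⟩, fun h2 => by_contra fun h1 => h.2.2
      ⟨_, ?_, ((c1 X).rev.inter (c2 X).rev).mono (Subset.refl _)
        (by rw [union_comm, sdiff_union_inter])⟩⟩
    simp [h1, h2, h.1]
  have hC : ∀ X, #(G1 X ∪ G2 X) ≤ cut adj (S ∩ X) (T \ X) + cut adj (S \ X) (T ∩ X) := fun X => by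
    rw [← d1, ← d2]
    exact card_union_le _ _
  have box : ∀ C : Finset V, #C ≤ 3 * K →
      #(H.filter fun p => Dm adj S T C p.1 ∧ Dm adj S T C p.2) ≤ u * u := fun C hc => by
    obtain ⟨U, u1, u2⟩ := hU C hc
    refine (card_le_card (t := U ×ˢ U) fun p hp => ?_).trans ?_
    · rw [mem_filter] at hp
      exact mem_product.2 ⟨(u2 p hp.1).1 hp.2.1, (u2 p hp.1).2 hp.2.2⟩
    · rw [card_product]
      exact Nat.mul_le_mul u1 u1
  have main : ∀ X, Br (fun X => cut adj (S ∩ X) (T \ X) + cut adj (S \ X) (T ∩ X)) K X →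
      X.Nonempty → #(H.filter fun p => In X p.1 ∨ In X p.2) + u * u ≤ u * u * #X := by
    intro X hX
    induction hX with
    | leaf X _ h2 =>
      intro hne
      have no : ∀ v, ¬ In X v := fun v ⟨h1, h3⟩ => by
        have h4 := (tri X v h1).1 h3
        simp only [Dm, not_or, mem_union] at h1
        obtain ⟨x, rfl⟩ := card_eq_one.1 (le_antisymm h2 (card_pos.2 hne))
        by_cases hx : x ∈ T
        · refine h1.2.2 (Dom.mono ⟨_, ?_, (c2 {x}).rev.mono (empty_subset _) fun s hs => ?_⟩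
            subset_union_right)
          · simp [h4, h1.1]
          · exact mem_sdiff.2 ⟨hs, fun hh => disjoint_left.1 hd hs (mem_singleton.1 hh ▸ hx)⟩
        · exact h1.2.1 (Dom.mono ⟨_, h3, (c1 {x}).mono (empty_subset _) fun t ht =>
            mem_sdiff.2 ⟨ht, fun hh => hx (mem_singleton.1 hh ▸ ht)⟩⟩ subset_union_left)
      rw [filter_eq_empty_iff.2 fun p _ => by simp [no], card_empty, zero_add]
      exact Nat.le_mul_of_pos_right _ (card_pos.2 hne)
    | node X Y h1 h2 h3 h4 h5 h6 ih1 ih2 =>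
      intro _
      set C := (G1 (X ∪ Y) ∪ G2 (X ∪ Y)) ∪ (G1 X ∪ G2 X) ∪ (G1 Y ∪ G2 Y) with hCdef
      have hc : #C ≤ 3 * K := by
        have a1 := card_union_le ((G1 (X ∪ Y) ∪ G2 (X ∪ Y)) ∪ (G1 X ∪ G2 X)) (G1 Y ∪ G2 Y)
        have a2 := card_union_le (G1 (X ∪ Y) ∪ G2 (X ∪ Y)) (G1 X ∪ G2 X)
        have a3 := (hC _).trans h1
        have a4 := (hC _).trans h5.le
        have a5 := (hC _).trans h6.le
        rw [hCdef]
        omega
      have s0 : G1 (X ∪ Y) ∪ G2 (X ∪ Y) ⊆ C := subset_union_left.trans subset_union_left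
      have s1 : G1 X ∪ G2 X ⊆ C := subset_union_right.trans subset_union_left
      have s2 : G1 Y ∪ G2 Y ⊆ C := subset_union_right
      have out : ∀ v, ¬ Dm adj S T C v → ¬ In X v → ¬ In Y v →
          v ∈ R2 (X ∪ Y) ∧ v ∉ R1 (X ∪ Y) := fun v hv i1 i2 => by
        have a1 : v ∉ R1 X := fun hh => i1 ⟨fun h => hv (h.mono s1), hh⟩
        have a2 : v ∉ R1 Y := fun hh => i2 ⟨fun h => hv (h.mono s2), hh⟩
        have a3 : v ∈ R2 (X ∪ Y) := by_contra fun hn => hv (Or.inr (Or.inr (Dom.mono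
          ⟨_, ?_, (((c2 (X ∪ Y)).rev.inter (c1 X).rev).inter (c1 Y).rev).mono (Subset.refl _)
            fun s hs => ?_⟩ fun w hw => ?_)))
        · exact ⟨a3, fun hh => (tri _ v fun h => hv (h.mono s0)).1 hh a3⟩
        · have : v ∉ C := fun hh => hv (Or.inl hh)
          simp only [hCdef, mem_union, not_or] at this
          simp [hn, a1, a2, this]
        · simp only [mem_union, mem_sdiff, mem_inter]
          tauto
        · simp only [hCdef, mem_union] at hw ⊢
          tauto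
      have sub : (H.filter fun p => In (X ∪ Y) p.1 ∨ In (X ∪ Y) p.2) ⊆
          (H.filter fun p => In X p.1 ∨ In X p.2) ∪ (H.filter fun p => In Y p.1 ∨ In Y p.2) ∪
            H.filter fun p => Dm adj S T C p.1 ∧ Dm adj S T C p.2 := fun p hp => by
        by_contra hn
        simp only [mem_filter] at hp
        simp only [mem_union, mem_filter, hp.1, true_and, not_or, not_and_or] at hn
        obtain ⟨⟨⟨x1, x2⟩, y1, y2⟩, hn⟩ := hn
        have A : Dm adj S T C p.1 := by_contra fun hh => by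
          have a1 := out _ hh x1 y1
          have a2 := hp.2.resolve_left fun h => a1.2 h.2
          exact ((c2 _).step _ a1.1 _ (hH p hp.1)).elim ((tri _ _ a2.1).1 a2.2)
            fun h => a2.1 (Or.inl (mem_union_right _ h))
        have B : Dm adj S T C p.2 := by_contra fun hh => by
          have a1 := out _ hh x2 y2
          have a2 := hp.2.resolve_right fun h => a1.2 h.2
          exact ((c1 _).step _ a2.2 _ (hH p hp.1)).elim a1.2
            fun h => hh (Or.inl (s0 (mem_union_left _ h)))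
        exact hn.elim (fun h => h A) fun h => h B
      have a1 := card_le_card sub
      have a2 := card_union_le ((H.filter fun p => In X p.1 ∨ In X p.2) ∪
        (H.filter fun p => In Y p.1 ∨ In Y p.2))
        (H.filter fun p => Dm adj S T C p.1 ∧ Dm adj S T C p.2)
      have a3 := card_union_le (H.filter fun p => In X p.1 ∨ In X p.2)
        (H.filter fun p => In Y p.1 ∨ In Y p.2)
      have a4 := box C hc
      have a5 := ih1 h3
      have a6 := ih2 h4
      rw [card_union_of_disjoint h2, mul_add]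
      omega
  have a1 := main _ hB hne
  have a2 := box (G1 (S ∪ T) ∪ G2 (S ∪ T)) (by have := (hC _).trans hB.le; omega)
  have all : ∀ v, ¬ In (S ∪ T) v → Dm adj S T (G1 (S ∪ T) ∪ G2 (S ∪ T)) v := fun v hv =>
    by_contra fun hn => hv ⟨hn, (tri _ v hn).2 fun hh => hn (Or.inr (Or.inl (Dom.mono
      ⟨_, hh, (c2 _).mono (empty_subset _) (subset_inter (Subset.refl _) subset_union_right)⟩
      subset_union_right)))⟩
  have a3 := card_filter_add_card_filter_not (s := H) fun p => In (S ∪ T) p.1 ∨ In (S ∪ T) p.2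
  have a4 := card_le_card (s := H.filter fun p => ¬ (In (S ∪ T) p.1 ∨ In (S ∪ T) p.2))
    (t := H.filter fun p => Dm adj S T (G1 (S ∪ T) ∪ G2 (S ∪ T)) p.1 ∧
      Dm adj S T (G1 (S ∪ T) ∪ G2 (S ∪ T)) p.2) fun p hp => by
    rw [mem_filter, not_or] at hp
    exact mem_filter.2 ⟨hp.1, all _ hp.2.1, all _ hp.2.2⟩
  omega

theorem arc_count (q K : ℕ) (hq : 1 ≤ q) : ∃ γ, ∀ (V : Type) [Fintype V] [DecidableEq V]
    (adj : V → V → Prop) (S T : Finset V) (A : Finset (V × V)), (∀ p ∈ A, adj p.1 p.2) →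
    Disjoint S T → (∀ s ∈ S, ∀ v, ¬ adj v s) → (∀ t ∈ T, ∀ v, ¬ adj t v) →
    (∀ v, (∃ w, adj v w ∨ adj w v) → v ∈ S ∨ v ∈ T ∨ Ess adj S T v) →
    Cls adj S T q → Cls (flip adj) T S q →
    Br (fun X => cut adj (S ∩ X) (T \ X) + cut adj (S \ X) (T ∩ X)) K (S ∪ T) →
    #A ≤ γ * #(S ∪ T) := by
  classical
  obtain ⟨f, hf⟩ := ess_count q (3 * K) hq
  refine ⟨(3 * K + 2 * f) * (3 * K + 2 * f) + (3 * K + f), fun V _ _ adj S T A hA hd hS hT hG
    k1 k2 hB => ?_⟩
  rcases (S ∪ T).eq_empty_or_nonempty with he | hne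
  · rw [union_eq_empty] at he
    obtain ⟨rfl, rfl⟩ := he
    rw [eq_empty_of_forall_notMem (s := A) fun p hp => ?_]
    · simp
    obtain ⟨P, hP, Q, -, h⟩ := ((hG p.1 ⟨p.2, Or.inl (hA p hp)⟩).resolve_left
      (notMem_empty _)).resolve_left (notMem_empty _)
    rw [subset_empty.1 hP] at h
    exact notMem_empty _ (h ∅ ∅ (cut_triv _ _ _) (by simp))
  have light : ∀ (adj : V → V → Prop) (S T : Finset V), (∀ s ∈ S, ∀ v, ¬ adj v s) →
      (∀ v, (∃ w, adj w v) → v ∈ S ∨ v ∈ T ∨ Ess adj S T v) → Cls adj S T q →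
      ∀ s, (∃ C, #C ≤ 3 * K ∧ Dom adj T C s) → #(univ.filter (adj s)) ≤ 3 * K + f :=
    fun adj S T hS hG k1 s ⟨C, c1, D, d1, d2⟩ => by
      have a1 := hf V adj S T C (univ.filter fun v => Ess adj S T v ∧ Dom adj T C v) c1 k1
        fun v hv => (mem_filter.1 hv).2
      refine (card_le_card (t := C ∪ univ.filter fun v => Ess adj S T v ∧ Dom adj T C v)
        fun b hb => ?_).trans ((card_union_le _ _).trans (by omega))
      have hb' := (mem_filter.1 hb).2
      refine mem_union.2 ((d2.step s d1 b hb').symm.imp_right fun hh =>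
        mem_filter.2 ⟨mem_univ _, ?_, D, hh, d2⟩)
      exact ((hG b ⟨s, hb'⟩).resolve_left fun h => hS b h s hb').resolve_left fun h => d2.snk b h hh
  let LS := S.filter fun s => ∃ C, #C ≤ 3 * K ∧ Dom adj T C s
  let LT := T.filter fun t => ∃ C, #C ≤ 3 * K ∧ Dom (flip adj) S C t
  have a1 : #(A.filter fun p => p.1 ∈ LS) ≤ (3 * K + f) * #S := by
    refine (card_le_mul_card_image_of_maps_to (t := LS) (f := Prod.fst)
      (fun p hp => (mem_filter.1 hp).2) (3 * K + f) fun s hs => ?_).trans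
      (Nat.mul_le_mul_left _ (card_filter_le _ _))
    refine le_trans (card_le_card_of_injOn Prod.snd (fun p hp => ?_) fun p hp p' hp' h => ?_)
      (light adj S T hS (fun v ⟨w, h⟩ => hG v ⟨w, Or.inr h⟩) k1 s (mem_filter.1 hs).2)
    · simp only [coe_filter, mem_filter, Set.mem_ofPred_eq, mem_univ, true_and] at hp ⊢
      exact hp.2 ▸ hA p hp.1.1
    · simp only [coe_filter, mem_filter, Set.mem_ofPred_eq] at hp hp'
      exact Prod.ext (hp.2.trans hp'.2.symm) h
  have a2 : #(A.filter fun p => p.2 ∈ LT) ≤ (3 * K + f) * #T := by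
    refine (card_le_mul_card_image_of_maps_to (t := LT) (f := Prod.snd)
      (fun p hp => (mem_filter.1 hp).2) (3 * K + f) fun s hs => ?_).trans
      (Nat.mul_le_mul_left _ (card_filter_le _ _))
    refine le_trans (card_le_card_of_injOn Prod.fst (fun p hp => ?_) fun p hp p' hp' h => ?_)
      (light (flip adj) T S hT (fun v ⟨w, h⟩ => ?_) k2 s (mem_filter.1 hs).2)
    · simp only [coe_filter, mem_filter, Set.mem_ofPred_eq, mem_univ, true_and] at hp ⊢
      exact hp.2 ▸ hA p hp.1.1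
    · simp only [coe_filter, mem_filter, Set.mem_ofPred_eq] at hp hp'
      exact Prod.ext h (hp.2.trans hp'.2.symm)
    · rcases hG v ⟨w, Or.inl h⟩ with h | h | h
      exacts [Or.inr (Or.inl h), Or.inl h, Or.inr (Or.inr h.rev)]
  have a3 := inside_count S T adj K (3 * K + 2 * f) (A.filter fun p => p.1 ∉ LS ∧ p.2 ∉ LT)
    (fun p hp => hA p (mem_filter.1 hp).1) (fun C hC => by
      have b1 := hf V adj S T C (univ.filter fun v => Ess adj S T v ∧ Dom adj T C v) hC k1
        fun v hv => (mem_filter.1 hv).2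
      have b2 := hf V (flip adj) T S C
        (univ.filter fun v => Ess adj S T v ∧ Dom (flip adj) S C v) hC k2
        fun v hv => ⟨(mem_filter.1 hv).2.1.rev, (mem_filter.1 hv).2.2⟩
      have key : ∀ v, Dm adj S T C v → (v ∉ C → Ess adj S T v) →
          v ∈ C ∪ (univ.filter fun v => Ess adj S T v ∧ Dom adj T C v) ∪
            univ.filter fun v => Ess adj S T v ∧ Dom (flip adj) S C v := fun v h1 h2 => by
        simp only [mem_union, mem_filter, mem_univ, true_and]
        unfold Dm at h1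
        tauto
      refine ⟨_, ?_, fun p hp => ⟨fun h => key _ h fun hn => ?_, fun h => key _ h fun hn => ?_⟩⟩
      · refine (card_union_le _ _).trans ?_
        have := card_union_le C (univ.filter fun v => Ess adj S T v ∧ Dom adj T C v)
        omega
      · rw [mem_filter] at hp
        refine ((hG _ ⟨_, Or.inl (hA p hp.1)⟩).resolve_left fun hs => ?_).resolve_left
          fun ht => hT _ ht _ (hA p hp.1)
        rcases h.resolve_left hn with h | ⟨D, d1, d2⟩
        exacts [hp.2.1 (mem_filter.2 ⟨hs, C, hC, h⟩), d2.snk _ hs d1]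
      · rw [mem_filter] at hp
        refine ((hG _ ⟨_, Or.inr (hA p hp.1)⟩).resolve_left fun hs =>
          hS _ hs _ (hA p hp.1)).resolve_left fun ht => ?_
        rcases h.resolve_left hn with ⟨D, d1, d2⟩ | h
        exacts [d2.snk _ ht d1, hp.2.2 (mem_filter.2 ⟨ht, C, hC, h⟩)]) hB hne hd
  have a4 := card_le_card (s := A) (t := (A.filter fun p => p.1 ∉ LS ∧ p.2 ∉ LT) ∪
    ((A.filter fun p => p.1 ∈ LS) ∪ A.filter fun p => p.2 ∈ LT)) fun p hp => by
      simp only [mem_union, mem_filter (s := A), hp, true_and]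
      tauto
  have a5 := card_union_le (A.filter fun p => p.1 ∉ LS ∧ p.2 ∉ LT)
    ((A.filter fun p => p.1 ∈ LS) ∪ A.filter fun p => p.2 ∈ LT)
  have a6 := card_union_le (A.filter fun p => p.1 ∈ LS) (A.filter fun p => p.2 ∈ LT)
  rw [add_mul, card_union_of_disjoint hd, mul_add (3 * K + f)]
  rw [card_union_of_disjoint hd] at a3
  omega

end Pool.Agent.Lib.MP_12b00b_co
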