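import Pool.Agent.Lib.MP_12b00b_co.Submod

/-! Vertex cuts in digraphs. -/

namespace Pool.Agent.Lib.MP_12b00b_co

open Finset

variable {V : Type} [DecidableEq V] {adj : V → V → Prop} {X Y R Γ T : Finset V}

/-- `Γ` separates `X` from `Y`, witnessed by the region `R` -/
structure Cut (adj : V → V → Prop) (X Y R Γ : Finset V) : Prop where
  src : ∀ x ∈ X, x ∈ R ∨ x ∈ Γ
  snk : ∀ y ∈ Y, y ∉ R
  step : ∀ a ∈ R, ∀ b, adj a b → b ∈ R ∨ b ∈ Γ

/-- minimum size of a cut -/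
noncomputable def cut (adj : V → V → Prop) (X Y : Finset V) : ℕ :=
  sInf {n | ∃ R Γ, Cut adj X Y R Γ ∧ #Γ = n}

omit [DecidableEq V] in
theorem Cut.le (h : Cut adj X Y R Γ) : cut adj X Y ≤ #Γ := Nat.sInf_le ⟨R, Γ, h, rfl⟩

omit [DecidableEq V] in
theorem cut_triv (adj : V → V → Prop) (X Y : Finset V) : Cut adj X Y ∅ X :=
  ⟨fun _ hx => Or.inr hx, fun _ _ => notMem_empty _, fun _ h => absurd h (notMem_empty _)⟩

omit [DecidableEq V] in
theorem exists_cut (adj : V → V → Prop) (X Y : Finset V) :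
    ∃ R Γ, Cut adj X Y R Γ ∧ #Γ = cut adj X Y :=
  Nat.sInf_mem (s := {n | ∃ R Γ, Cut adj X Y R Γ ∧ #Γ = n}) ⟨_, ∅, X, cut_triv adj X Y, rfl⟩

omit [DecidableEq V] in
theorem Cut.mono (h : Cut adj X Y R Γ) {X' Y' : Finset V} (hX : X' ⊆ X) (hY : Y' ⊆ Y) :
    Cut adj X' Y' R Γ :=
  ⟨fun x hx => h.src x (hX hx), fun y hy => h.snk y (hY hy), h.step⟩

omit [DecidableEq V] in
theorem cut_mono {X' Y' : Finset V} (hX : X' ⊆ X) (hY : Y' ⊆ Y) : cut adj X' Y' ≤ cut adj X Y := by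
  obtain ⟨R, Γ, h, hc⟩ := exists_cut adj X Y
  exact hc ▸ (h.mono hX hY).le

omit [DecidableEq V] in
theorem cut_le_card (adj : V → V → Prop) (X Y : Finset V) : cut adj X Y ≤ #X :=
  (cut_triv adj X Y).le

omit [DecidableEq V] in
theorem cut_empty (adj : V → V → Prop) (Y : Finset V) : cut adj ∅ Y = 0 := by
  simpa using cut_le_card adj ∅ Y

theorem Cut.rev [Fintype V] (h : Cut adj X Y R Γ) : Cut (flip adj) Y X (R ∪ Γ)ᶜ Γ := by
  refine ⟨fun y hy => ?_, fun x hx => by simpa [or_iff_not_imp_left] using h.src x hx,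
    fun a ha b hb => ?_⟩
  · have := h.snk y hy
    simp only [mem_compl, mem_union]
    tauto
  · have := fun hh => h.step b hh a hb
    simp only [mem_compl, mem_union] at ha ⊢
    tauto

theorem cut_rev [Fintype V] (adj : V → V → Prop) (X Y : Finset V) :
    cut (flip adj) Y X = cut adj X Y := by
  obtain ⟨R, Γ, h, hc⟩ := exists_cut adj X Y
  obtain ⟨R', Γ', h', hc'⟩ := exists_cut (flip adj) Y X
  have a1 := h.rev.le
  have a2 : cut adj X Y ≤ #Γ' := h'.rev.le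
  omega

theorem cut_bisub (adj : V → V → Prop) (X1 X2 Y1 Y2 : Finset V) :
    cut adj (X1 ∪ X2) (Y1 ∩ Y2) + cut adj (X1 ∩ X2) (Y1 ∪ Y2) ≤ cut adj X1 Y1 + cut adj X2 Y2 := by
  obtain ⟨R1, G1, h1, c1⟩ := exists_cut adj X1 Y1
  obtain ⟨R2, G2, h2, c2⟩ := exists_cut adj X2 Y2
  have a1 : Cut adj (X1 ∪ X2) (Y1 ∩ Y2) (R1 ∪ R2) ((G1 ∪ G2) \ (R1 ∪ R2)) := by
    refine ⟨fun x hx => ?_, fun y hy => ?_, fun a ha b hb => ?_⟩
    · have := h1.src x
      have := h2.src x
      simp only [mem_union, mem_sdiff] at hx ⊢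
      tauto
    · have := h1.snk y
      have := h2.snk y
      simp only [mem_union, mem_inter] at hy ⊢
      tauto
    · have := fun hh => h1.step a hh b hb
      have := fun hh => h2.step a hh b hb
      simp only [mem_union, mem_sdiff] at ha ⊢
      tauto
  have a2 : Cut adj (X1 ∩ X2) (Y1 ∪ Y2) (R1 ∩ R2) (((R1 ∪ G1) ∩ (R2 ∪ G2)) \ (R1 ∩ R2)) := by
    refine ⟨fun x hx => ?_, fun y hy => ?_, fun a ha b hb => ?_⟩
    · have := h1.src x
      have := h2.src x
      simp only [mem_union, mem_sdiff, mem_inter] at hx ⊢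
      tauto
    · have := h1.snk y
      have := h2.snk y
      simp only [mem_union, mem_inter] at hy ⊢
      tauto
    · have := fun hh => h1.step a hh b hb
      have := fun hh => h2.step a hh b hb
      simp only [mem_union, mem_sdiff, mem_inter] at ha ⊢
      tauto
  have a3 := card_union_add_card_inter ((G1 ∪ G2) \ (R1 ∪ R2))
    (((R1 ∪ G1) ∩ (R2 ∪ G2)) \ (R1 ∩ R2))
  have a4 := card_union_add_card_inter G1 G2
  have a5 := card_le_card (s := (G1 ∪ G2) \ (R1 ∪ R2) ∪ ((R1 ∪ G1) ∩ (R2 ∪ G2)) \ (R1 ∩ R2))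
    (t := G1 ∪ G2) fun v hv => by
      simp only [mem_union, mem_sdiff, mem_inter] at hv ⊢
      tauto
  have a6 := card_le_card (s := ((G1 ∪ G2) \ (R1 ∪ R2)) ∩ (((R1 ∪ G1) ∩ (R2 ∪ G2)) \ (R1 ∩ R2)))
    (t := G1 ∩ G2) fun v hv => by
      simp only [mem_union, mem_sdiff, mem_inter] at hv ⊢
      tauto
  have a7 := a1.le
  have a8 := a2.le
  omega

theorem rk_cut (adj : V → V → Prop) (Y : Finset V) : RK fun X => cut adj X Y where
  mono _ _ h := cut_mono h (Subset.refl _)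
  submod X X' := by simpa using cut_bisub adj X X' Y Y
  unit X e := by
    obtain ⟨R, Γ, h, hc⟩ := exists_cut adj X Y
    have a1 : Cut adj (insert e X) Y R (insert e Γ) :=
      ⟨fun x hx => (mem_insert.1 hx).elim (fun hh => Or.inr (hh ▸ mem_insert_self _ _))
        fun hh => (h.src x hh).imp_right mem_insert_of_mem, h.snk,
        fun a ha b hb => (h.step a ha b hb).imp_right mem_insert_of_mem⟩
    have a2 := a1.le
    have a3 := card_insert_le e Γ
    omega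

theorem rk_cut' [Fintype V] (adj : V → V → Prop) (X : Finset V) : RK fun Y => cut adj X Y := by
  simpa only [cut_rev] using rk_cut (flip adj) X

theorem cut_empty' [Fintype V] (adj : V → V → Prop) (X : Finset V) : cut adj X ∅ = 0 := by
  rw [← cut_rev, cut_empty]

theorem cut_sink (hT : ∀ t ∈ T, ∀ v, ¬ adj t v) (P : Finset V) {Q : Finset V} (hQ : Q ⊆ T) :
    cut adj (P ∪ (T \ Q)) T = #(T \ Q) + cut adj P Q := by
  obtain ⟨R, Γ, h, hc⟩ := exists_cut adj P Q
  obtain ⟨R', Γ', h', hc'⟩ := exists_cut adj (P ∪ (T \ Q)) T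
  have a1 : Cut adj (P ∪ (T \ Q)) T (R \ T) (Γ ∪ (T \ Q)) := by
    refine ⟨fun x hx => ?_, fun y hy => by simp [hy], fun a ha b hb => ?_⟩
    · have := h.src x
      have := h.snk x
      simp only [mem_union, mem_sdiff] at hx ⊢
      tauto
    · have := h.step a (mem_sdiff.1 ha).1 b hb
      have := h.snk b
      simp only [mem_union, mem_sdiff]
      tauto
  have a2 : Cut adj P Q (R' ∪ (T \ Q)) (Γ' \ (T \ Q)) := by
    refine ⟨fun x hx => ?_, fun y hy => ?_, fun a ha b hb => ?_⟩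
    · have := h'.src x (mem_union_left _ hx)
      simp only [mem_union, mem_sdiff]
      tauto
    · simp [hy, h'.snk y (hQ hy)]
    · have := h'.step a ((mem_union.1 ha).resolve_right fun hh => hT a (mem_sdiff.1 hh).1 b hb) b hb
      simp only [mem_union, mem_sdiff]
      tauto
  have a3 : T \ Q ⊆ Γ' := fun t ht =>
    (h'.src t (mem_union_right _ ht)).resolve_left (h'.snk t (mem_sdiff.1 ht).1)
  have a4 := a1.le
  have a5 := a2.le
  have a6 := card_union_le Γ (T \ Q)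
  have a7 := card_le_card a3
  rw [card_sdiff_of_subset a3] at a5
  omega

theorem cut_sink' (hT : ∀ t ∈ T, ∀ v, ¬ adj t v) (X : Finset V) :
    cut adj X T = #(T ∩ X) + cut adj (X \ T) (T \ X) := by
  have := cut_sink hT (X \ T) (sdiff_subset : T \ X ⊆ T)
  rwa [sdiff_sdiff_self_left, inter_comm T X, sdiff_union_inter, inter_comm X T] at this

/-- the matching that encodes a routing -/
def Mat (adj : V → V → Prop) (X Y : Finset V) : Prop :=
  ∃ f : V → V, (∀ a ∉ Y, ∀ b ∉ Y, f a = f b → a = b) ∧ ∀ v ∉ Y, f v ∉ X ∧ (f v = v ∨ adj v (f v))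

theorem Mat.le (h : Mat adj X Y) : #X ≤ cut adj X Y := by
  obtain ⟨f, f1, f2⟩ := h
  obtain ⟨R, Γ, h, hc⟩ := exists_cut adj X Y
  have nY : ∀ a ∈ R, a ∉ Y := fun a ha hh => h.snk a hh ha
  have a1 : #R ≤ #((R ∪ Γ) \ X) := card_le_card_of_injOn f (fun a ha => by
    obtain ⟨g1, g2⟩ := f2 a (nY a ha)
    simp only [coe_sdiff, coe_union, Set.mem_sdiff, Set.mem_union, mem_coe]
    exact ⟨g2.elim (fun hh => Or.inl (hh.symm ▸ ha)) (h.step a ha _), g1⟩)
    fun a ha b hb => f1 a (nY a ha) b (nY b hb)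
  have a2 : X ⊆ R ∪ Γ := fun x hx => mem_union.2 (h.src x hx)
  have a3 := card_le_card a2
  have a4 := card_union_le R Γ
  rw [card_sdiff_of_subset a2] at a1
  omega

theorem mat_of_le [Fintype V] (h : #X ≤ cut adj X Y) : Mat adj X Y := by
  classical
  obtain ⟨f, f1, f2⟩ := (all_card_le_biUnion_card_iff_exists_injective
    fun v : {v // v ∉ Y} => univ.filter fun w => w ∉ X ∧ (w = v.1 ∨ adj v.1 w)).1 fun s => by
    set N := s.biUnion fun v : {v // v ∉ Y} => univ.filter fun w => w ∉ X ∧ (w = v.1 ∨ adj v.1 w)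
    have mN : ∀ w, w ∈ N ↔ w ∉ X ∧ ∃ v ∈ s, (w = v.1 ∨ adj v.1 w) := fun w => by
      simp only [N, mem_biUnion, mem_filter, mem_univ, true_and]
      exact ⟨fun ⟨a, h1, h2, h3⟩ => ⟨h2, a, h1, h3⟩, fun ⟨h2, a, h1, h3⟩ => ⟨a, h1, h2, h3⟩⟩
    set R := s.map (Function.Embedding.subtype _)
    have mR : ∀ w, w ∈ R ↔ ∃ v ∈ s, v.1 = w := fun w => by simp only [R, mem_map]; rfl
    have a1 : Cut adj X Y R ((N ∪ X) \ R) := by
      refine ⟨fun x hx => by simp [hx, em], fun y hy hh => ?_, fun a ha b hb => ?_⟩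
      · obtain ⟨v, -, rfl⟩ := (mR y).1 hh
        exact v.2 hy
      · obtain ⟨v, hv, rfl⟩ := (mR a).1 ha
        have : b ∉ X → b ∈ N := fun hh => (mN b).2 ⟨hh, v, hv, Or.inr hb⟩
        simp only [mem_sdiff, mem_union]
        tauto
    have a2 : R ⊆ N ∪ X := fun a ha => by
      obtain ⟨v, hv, rfl⟩ := (mR a).1 ha
      have : v.1 ∉ X → v.1 ∈ N := fun hh => (mN _).2 ⟨hh, v, hv, Or.inl rfl⟩
      rw [mem_union]
      tauto
    have a3 := a1.le
    have a4 := card_le_card a2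
    have a5 := card_union_le N X
    have a6 : #R = #s := card_map _
    rw [card_sdiff_of_subset a2] at a3
    omega
  refine ⟨fun v => if h : v ∈ Y then v else f ⟨v, h⟩, fun a ha b hb hab => ?_, fun v hv => ?_⟩
  · simp only [dif_neg ha, dif_neg hb] at hab
    exact congrArg Subtype.val (f1 hab)
  · simpa only [dif_neg hv] using (mem_filter.1 (f2 ⟨v, hv⟩)).2

theorem mat_iff [Fintype V] : Mat adj X Y ↔ cut adj X Y = #X :=
  ⟨fun h => le_antisymm (cut_le_card _ _ _) h.le, fun h => mat_of_le h.ge⟩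

theorem pivot_full [Fintype V] {B : Finset V} (hB : cut adj B T = #B) (hc : #B = #T) :
    ∃ adj' : V → V → Prop, (∀ b ∈ B, ∀ v, ¬ adj' b v) ∧ ∀ X, cut adj' X B = cut adj X T := by
  obtain ⟨f0, g1, g2⟩ := mat_iff.2 hB
  refine ⟨fun a b => ∃ v ∉ T, f0 v = a ∧ (b = v ∨ adj v b),
    fun b hb v ⟨u, hu, h, _⟩ => (g2 u hu).1 (h ▸ hb),
    RK.eq_of_indep (rk_cut _ _) (cut_empty _ _) (rk_cut _ _) (cut_empty _ _) fun X => ?_⟩
  rw [← mat_iff, ← mat_iff]
  constructor
  · rintro ⟨g, h1, h2⟩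
    refine ⟨fun v => g (f0 v), fun a ha b hb hab =>
      g1 a ha b hb (h1 _ (g2 a ha).1 _ (g2 b hb).1 hab), fun v hv => ⟨(h2 _ (g2 v hv).1).1, ?_⟩⟩
    rcases (h2 _ (g2 v hv).1).2 with h | ⟨u, hu, h, h'⟩
    · simp only [h]
      exact (g2 v hv).2
    · rwa [g1 u hu v hv h] at h'
  · rintro ⟨f, h1, h2⟩
    have sur : ∀ a ∉ B, ∃ v ∉ T, f0 v = a := fun a ha => by
      obtain ⟨v, hv, h⟩ := surj_on_of_inj_on_of_card_le (s := Tᶜ) (t := Bᶜ) (fun v _ => f0 v)
        (fun v hv => mem_compl.2 (g2 v (mem_compl.1 hv)).1)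
        (fun a b ha hb => g1 a (mem_compl.1 ha) b (mem_compl.1 hb))
        (by rw [card_compl, card_compl, hc]) a (mem_compl.2 ha)
      exact ⟨v, mem_compl.1 hv, h.symm⟩
    choose! h s1 s2 using sur
    refine ⟨fun a => f (h a), fun a ha b hb hab => ?_, fun a ha =>
      ⟨(h2 _ (s1 a ha)).1, Or.inr ⟨h a, s1 a ha, s2 a ha, (h2 _ (s1 a ha)).2⟩⟩⟩
    rw [← s2 a ha, ← s2 b hb, h1 _ (s1 a ha) _ (s1 b hb) hab]

theorem pivot [Fintype V] {B G : Finset V} (hG : B ⊆ G) (hB : cut adj B T = #B)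
    (hc : cut adj G T ≤ #B) : ∃ adj' : V → V → Prop, (∀ b ∈ B, ∀ v, ¬ adj' b v) ∧
      ∀ X ⊆ G, cut adj' X B = cut adj X T := by
  obtain ⟨B1, b1, -, b2, b3⟩ := (rk_cut adj T).exists_basis (cut_empty _ _) (subset_univ B) hB
  have hT : cut adj univ T = #T := by
    obtain ⟨R, Γ, h, hc⟩ := exists_cut adj univ T
    have a1 := card_le_card (s := T) (t := Γ) fun t ht =>
      (h.src t (mem_univ _)).resolve_left (h.snk t ht)
    have a2 := (rk_cut' adj univ).le_card (cut_empty' _ _) T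
    omega
  obtain ⟨adj', a1, a2⟩ := pivot_full b2 (by omega)
  refine ⟨adj', fun b hb => a1 b (b1 hb), fun X hX => ?_⟩
  have c1 := cut_sink a1 X b1
  have c2 := (rk_cut adj T).le_add_card X (B1 \ B)
  have c3 := (rk_cut adj T).submod (X ∪ B1 \ B) G
  have c4 := cut_mono (adj := adj) (X := X ∪ B1 \ B ∪ G) (X' := B1) (fun v hv => by
    have := @hG v
    simp only [mem_union, mem_sdiff]
    tauto) (Subset.refl T)
  have c5 := cut_mono (adj := adj) (subset_inter subset_union_left hX : X ⊆ (X ∪ B1 \ B) ∩ G)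
    (Subset.refl T)
  have c6 := card_le_card b1
  rw [a2, card_sdiff_of_subset b1] at c1
  rw [card_sdiff_of_subset b1] at c2
  omega

end Pool.Agent.Lib.MP_12b00b_co
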