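import Pool.Agent.Lib.MP_12b00b_co.Cuts

/-! Essential vertices: bypassing inessential ones and counting dominated ones. -/

namespace Pool.Agent.Lib.MP_12b00b_co

open Finset

variable {V : Type} [DecidableEq V] {adj : V → V → Prop} {S T P Q C D : Finset V} {v : V}

/-- `v` lies in every minimum cut -/
def MinE (adj : V → V → Prop) (P Q : Finset V) (v : V) : Prop :=
  ∀ R Γ, Cut adj P Q R Γ → #Γ ≤ cut adj P Q → v ∈ Γ

/-- essential vertices -/
def Ess (adj : V → V → Prop) (S T : Finset V) (v : V) : Prop :=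
  ∃ P ⊆ S, ∃ Q ⊆ T, MinE adj P Q v

/-- `C` separates `v` from `T` -/
def Dom (adj : V → V → Prop) (T C : Finset V) (v : V) : Prop := ∃ D, v ∈ D ∧ Cut adj ∅ T D C

/-- few parallel classes -/
def Cls (adj : V → V → Prop) (S T : Finset V) (q : ℕ) : Prop :=
  ∀ Q ⊆ T, ∃ A : Finset (Finset V), #A ≤ q ^ #Q ∧ (∀ s ∈ S, ∃ L ∈ A, s ∈ L) ∧
    ∀ L ∈ A, cut adj L Q ≤ 1

theorem MinE.rev [Fintype V] (h : MinE adj P Q v) : MinE (flip adj) Q P v :=
  fun _ Γ h1 h2 => h _ Γ h1.rev (by rwa [cut_rev] at h2)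

theorem Ess.rev [Fintype V] (h : Ess adj S T v) : Ess (flip adj) T S v := by
  obtain ⟨P, hP, Q, hQ, h⟩ := h
  exact ⟨Q, hQ, P, hP, h.rev⟩

theorem bypass (hP : v ∉ P) (hQ : v ∉ Q) (h : ¬ MinE adj P Q v) :
    cut (fun a b => a ≠ v ∧ b ≠ v ∧ (adj a b ∨ (adj a v ∧ adj v b))) P Q = cut adj P Q := by
  classical
  simp only [MinE, not_forall] at h
  obtain ⟨R, Γ, h, hc, hv⟩ := h
  obtain ⟨R', Γ', h', hc'⟩ :=
    exists_cut (fun a b => a ≠ v ∧ b ≠ v ∧ (adj a b ∨ (adj a v ∧ adj v b))) P Q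
  have a1 : Cut (fun a b => a ≠ v ∧ b ≠ v ∧ (adj a b ∨ (adj a v ∧ adj v b))) P Q R Γ :=
    ⟨h.src, h.snk, fun a ha b hb => hb.2.2.elim (h.step a ha b) fun hh =>
      h.step v ((h.step a ha v hh.1).resolve_right hv) b hh.2⟩
  have a2 : ∃ R'', Cut adj P Q R'' Γ' := by
    by_cases hex : ∃ a ∈ R', a ≠ v ∧ adj a v
    · obtain ⟨a0, b1, b2, b3⟩ := hex
      refine ⟨insert v R', fun x hx => (h'.src x hx).imp_left mem_insert_of_mem,
        fun y hy hh => (mem_insert.1 hh).elim (fun e => hQ (e ▸ hy)) (h'.snk y hy),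
        fun a ha b hb => ?_⟩
      by_cases hbv : b = v
      · exact Or.inl (hbv ▸ mem_insert_self _ _)
      by_cases hav : a = v
      · exact (h'.step a0 b1 b ⟨b2, hbv, Or.inr ⟨b3, hav ▸ hb⟩⟩).imp_left mem_insert_of_mem
      · exact (h'.step a ((mem_insert.1 ha).resolve_left hav) b ⟨hav, hbv, Or.inl hb⟩).imp_left
          mem_insert_of_mem
    · refine ⟨R'.erase v, fun x hx => (h'.src x hx).imp_left fun hh =>
        mem_erase.2 ⟨fun e => hP (e ▸ hx), hh⟩, fun y hy hh => h'.snk y hy (mem_of_mem_erase hh),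
        fun a ha b hb => ?_⟩
      rw [mem_erase] at ha
      have hbv : b ≠ v := fun e => hex ⟨a, ha.2, ha.1, e ▸ hb⟩
      exact (h'.step a ha.2 b ⟨ha.1, hbv, Or.inl hb⟩).imp_left fun hh => mem_erase.2 ⟨hbv, hh⟩
  obtain ⟨R'', a2⟩ := a2
  have a3 := a1.le
  have a4 := a2.le
  omega

theorem reduce [Fintype V] (S T : Finset V) (adj : V → V → Prop) (hS : ∀ s ∈ S, ∀ v, ¬ adj v s)
    (hT : ∀ t ∈ T, ∀ v, ¬ adj t v) : ∃ adj' : V → V → Prop, (∀ s ∈ S, ∀ v, ¬ adj' v s) ∧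
      (∀ t ∈ T, ∀ v, ¬ adj' t v) ∧ (∀ P ⊆ S, ∀ Q ⊆ T, cut adj' P Q = cut adj P Q) ∧
      ∀ v, (∃ w, adj' v w ∨ adj' w v) → v ∈ S ∨ v ∈ T ∨ Ess adj' S T v := by
  classical
  generalize hn : #(univ.filter fun v => ∃ w, adj v w ∨ adj w v) = n
  induction n using Nat.strong_induction_on generalizing adj with
  | _ n ih =>
  by_cases h : ∀ v, (∃ w, adj v w ∨ adj w v) → v ∈ S ∨ v ∈ T ∨ Ess adj S T v
  · exact ⟨adj, hS, hT, fun _ _ _ _ => rfl, h⟩
  simp only [not_forall, not_or] at h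
  obtain ⟨v, v1, v2, v3, v4⟩ := h
  obtain ⟨adj', a1, a2, a3, a4⟩ := ih _ (by
      rw [← hn]
      refine card_lt_card ⟨fun a ha => ?_, fun hh => ?_⟩
      · simp only [mem_filter, mem_univ, true_and] at ha ⊢
        obtain ⟨w, h | h⟩ := ha
        · exact h.2.2.elim (fun hh => ⟨w, Or.inl hh⟩) fun hh => ⟨v, Or.inl hh.1⟩
        · exact h.2.2.elim (fun hh => ⟨w, Or.inr hh⟩) fun hh => ⟨v, Or.inr hh.2⟩
      · simpa using hh (mem_filter.2 ⟨mem_univ v, v1⟩))
    (fun a b => a ≠ v ∧ b ≠ v ∧ (adj a b ∨ (adj a v ∧ adj v b)))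
    (fun s hs w h => h.2.2.elim (hS s hs w) fun hh => hS s hs v hh.2)
    (fun t ht w h => h.2.2.elim (hT t ht w) fun hh => hT t ht v hh.1) rfl
  exact ⟨adj', a1, a2, fun P hP Q hQ => (a3 P hP Q hQ).trans (bypass (fun hh => v2 (hP hh))
    (fun hh => v3 (hQ hh)) fun hh => v4 ⟨P, hP, Q, hQ, hh⟩), a4⟩

theorem Ess.two (h : Ess adj S T v) (hv : v ∉ T) {N : Finset V} (hN : ∀ b, adj v b → b ∈ N) :
    1 < cut adj N T := by
  obtain ⟨P, -, Q, hQ, h⟩ := h
  obtain ⟨R, Γ, h1, c1⟩ := exists_cut adj P Q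
  obtain ⟨R', Γ', h2, c2⟩ := exists_cut adj N T
  have hvΓ := h R Γ h1 c1.le
  by_contra hn
  have := h (insert v (R ∪ R')) ((Γ.erase v) ∪ Γ'.erase v) ⟨fun x hx => ?_, fun y hy => ?_,
    fun a ha b hb => ?_⟩ ?_
  · simp at this
  · have := h1.src x hx
    simp only [mem_insert, mem_union, mem_erase]
    tauto
  · have : y ≠ v := fun e => hv (e ▸ hQ hy)
    simp [this, h1.snk y hy, h2.snk y (hQ hy)]
  · have : (b ∈ R ∨ b ∈ Γ) ∨ b ∈ R' ∨ b ∈ Γ' := by
      rcases mem_insert.1 ha with rfl | ha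
      · exact Or.inr (h2.src b (hN b hb))
      · exact (mem_union.1 ha).imp (fun hh => h1.step a hh b hb) fun hh => h2.step a hh b hb
    simp only [mem_insert, mem_union, mem_erase]
    tauto
  · have a1 := card_union_le (Γ.erase v) (Γ'.erase v)
    have a2 := card_erase_add_one hvΓ
    have a3 := card_erase_le (s := Γ') (a := v)
    omega

theorem chain_le (hD : Cut adj ∅ T D C) (n : ℕ) (v : ℕ → V) (P Q R Γ : ℕ → Finset V)
    (h : ∀ j < n, v j ∈ D ∧ Q j ⊆ T ∧ Cut adj (P j) (Q j) (R j) (Γ j) ∧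
      #(Γ j) ≤ cut adj (P j) (Q j) ∧ MinE adj (P j) (Q j) (v j))
    (hR : ∀ i j, i < j → j < n → v j ∈ R i) : n ≤ #C := by
  suffices H : ∀ j ≤ n, ∃ A G, Cut adj ∅ T A G ∧ #G + j ≤ #C ∧ ∀ l, j ≤ l → l < n → v l ∈ A by
    obtain ⟨A, G, -, h2, -⟩ := H n le_rfl
    omega
  intro j hj
  induction j with
  | zero => exact ⟨D, C, hD, le_rfl, fun l _ hl => (h l hl).1⟩
  | succ j ih =>
    obtain ⟨A, G, a1, a2, a3⟩ := ih (by omega)
    obtain ⟨-, h2, h3, h4, h5⟩ := h j hj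
    have b1 := a3 j le_rfl hj
    have b2 := h5 _ _ h3 h4
    have b3 : ¬ #((Γ j \ A) ∪ (G \ (R j ∪ Γ j))) ≤ cut adj (P j) (Q j) := fun hh => by
      have := h5 (R j ∪ A) _ ⟨fun x hx => ?_, fun y hy => ?_, fun a ha b hb => ?_⟩ hh
      · simp [b1, b2] at this
      · have := h3.src x hx
        simp only [mem_union, mem_sdiff]
        tauto
      · simp [h3.snk y hy, a1.snk y (h2 hy)]
      · have := (mem_union.1 ha).imp (fun hh => h3.step a hh b hb) fun hh => a1.step a hh b hb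
        simp only [mem_union, mem_sdiff]
        tauto
    refine ⟨A ∩ R j, (G ∩ (R j ∪ Γ j)) ∪ (Γ j ∩ A), ⟨by simp, fun y hy hh =>
      a1.snk y hy (mem_inter.1 hh).1, fun a ha b hb => ?_⟩, ?_,
      fun l l1 l2 => mem_inter.2 ⟨a3 l (by omega) l2, hR j l l1 l2⟩⟩
    · have := a1.step a (mem_inter.1 ha).1 b hb
      have := h3.step a (mem_inter.1 ha).2 b hb
      simp only [mem_union, mem_inter]
      tauto
    · have c1 := card_union_le (Γ j \ A) (G \ (R j ∪ Γ j))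
      have c2 := card_union_le (G ∩ (R j ∪ Γ j)) (Γ j ∩ A)
      have c3 := card_sdiff_add_card_inter (Γ j) A
      have c4 := card_sdiff_add_card_inter G (R j ∪ Γ j)
      omega

theorem cut_inter_le (hD : Cut adj ∅ T D C) (hQ : Q ⊆ T) {R Γ : Finset V} (h : Cut adj P Q R Γ)
    (hc : #Γ ≤ cut adj P Q) : #(Γ ∩ D) ≤ #C := by
  have a1 : Cut adj P Q (R ∪ D) ((Γ \ D) ∪ C) := by
    refine ⟨fun x hx => ?_, fun y hy => by simp [h.snk y hy, hD.snk y (hQ hy)],
      fun a ha b hb => ?_⟩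
    · have := h.src x hx
      simp only [mem_union, mem_sdiff]
      tauto
    · have := (mem_union.1 ha).imp (fun hh => h.step a hh b hb) fun hh => hD.step a hh b hb
      simp only [mem_union, mem_sdiff]
      tauto
  have a2 := a1.le
  have a3 := card_union_le (Γ \ D) C
  have a4 := card_sdiff_add_card_inter Γ D
  omega

theorem ess_count (q ρ : ℕ) (hq : 1 ≤ q) : ∃ f, ∀ (V : Type) [Fintype V] [DecidableEq V]
    (adj : V → V → Prop) (S T C Z : Finset V), #C ≤ ρ → Cls adj S T q →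
    (∀ v ∈ Z, Ess adj S T v ∧ Dom adj T C v) → #Z ≤ f := by
  classical
  obtain ⟨N, hN⟩ := ramsey (Bool × Bool) (ρ + q ^ ρ + 2)
  refine ⟨N + q ^ ρ, fun V _ _ adj S T C Z hC hcls hZ => ?_⟩
  let D := univ.filter (Dom adj T C)
  have hD : Cut adj ∅ T D C := ⟨by simp, fun y hy hh => by
      obtain ⟨D', d1, d2⟩ := (mem_filter.1 hh).2
      exact d2.snk y hy d1, fun a ha b hb => by
      obtain ⟨D', d1, d2⟩ := (mem_filter.1 ha).2
      exact (d2.step a d1 b hb).imp_left fun hh => mem_filter.2 ⟨mem_univ _, D', hh, d2⟩⟩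
  have hZD : ∀ v ∈ Z, v ∈ D := fun v hv => mem_filter.2 ⟨mem_univ _, (hZ v hv).2⟩
  obtain ⟨B0, -, b1, b2, b3⟩ := (rk_cut' adj C).exists_basis (cut_empty' _ _) (empty_subset T)
    (by simpa using cut_empty' adj C)
  have b4 : #B0 ≤ ρ := b2 ▸ (cut_le_card _ _ _).trans hC
  have key : ∀ M ⊆ D ∪ C, cut adj M T ≤ cut adj M B0 := fun M hM => by
    have a1 := cut_bisub adj M (D ∪ C) B0 T
    rw [union_eq_right.2 hM, inter_eq_left.2 hM, union_eq_right.2 b1, inter_eq_left.2 b1] at a1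
    obtain ⟨R, Γ, h, hc⟩ := exists_cut adj C T
    have a2 : Cut adj (D ∪ C) T (R ∪ D) Γ := by
      refine ⟨fun x hx => ?_, fun y hy => by simp [h.snk y hy, hD.snk y hy], fun a ha b hb => ?_⟩
      · have := h.src x
        simp only [mem_union] at hx ⊢
        tauto
      · have := (mem_union.1 ha).imp (fun hh => h.step a hh b hb) fun hh => hD.step a hh b hb
        have := h.src b
        simp only [mem_union]
        tauto
    have a3 := a2.le
    have a4 := cut_mono (adj := adj) (subset_union_right : C ⊆ D ∪ C) (Subset.refl B0)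
    omega
  obtain ⟨A, c1, c2, c3⟩ := hcls B0 b1
  choose Rc Gc l1 l2 using fun L => exists_cut adj L B0
  have c4 : #(A.biUnion Gc) ≤ q ^ ρ := by
    have := card_biUnion_le_card_mul A Gc 1 fun L hL => l2 L ▸ c3 L hL
    have := Nat.pow_le_pow_right hq b4
    omega
  let O := univ.filter fun v => ∀ L ∈ A, v ∉ Rc L ∧ v ∉ Gc L
  have hO : Cut (flip adj) ∅ S O (A.biUnion Gc) := ⟨by simp, fun s hs hh => by
      obtain ⟨L, hL, h⟩ := c2 s hs
      have := (mem_filter.1 hh).2 L hL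
      exact ((l1 L).src s h).elim this.1 this.2, fun a ha b hb => by
      refine or_iff_not_imp_right.2 fun hn => mem_filter.2 ⟨mem_univ _, fun L hL =>
        ⟨fun hh => ?_, fun hh => hn (mem_biUnion.2 ⟨L, hL, hh⟩)⟩⟩
      have := (mem_filter.1 ha).2 L hL
      exact ((l1 L).step b hh a hb).elim this.1 this.2⟩
  have hZO : ∀ v ∈ Z \ A.biUnion Gc, v ∈ O := fun v hv => by
    rw [mem_sdiff] at hv
    refine mem_filter.2 ⟨mem_univ _, fun L hL =>
      ⟨fun hh => ?_, fun hh => hv.2 (mem_biUnion.2 ⟨L, hL, hh⟩)⟩⟩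
    have a1 := (hZ v hv.1).1.two (fun ht => hD.snk v ht (hZD v hv.1))
      (N := univ.filter (adj v)) fun b hb => by simpa using hb
    have a2 := key (univ.filter (adj v)) fun b hb =>
      mem_union.2 (hD.step v (hZD v hv.1) b (mem_filter.1 hb).2)
    have a3 : Cut adj (univ.filter (adj v)) B0 (Rc L) (Gc L) :=
      ⟨fun b hb => (l1 L).step v hh b (mem_filter.1 hb).2, (l1 L).snk, (l1 L).step⟩
    have a4 := a3.le
    have a5 := c3 L hL
    have a6 := l2 L
    omega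
  by_contra hn
  choose! P p1 Q p2 p3 using fun v hv => (hZ v hv).1
  choose R Γ p4 p5 using fun v => exists_cut adj (P v) (Q v)
  obtain ⟨g, ⟨x, y⟩, g1, g2⟩ := hN V (Z \ A.biUnion Gc)
    (fun a b => (decide (b ∈ R a), decide (b ∈ Γ a)))
    (by have := le_card_sdiff (A.biUnion Gc) Z; omega)
  have gZ : ∀ i < ρ + q ^ ρ + 2, g i ∈ Z := fun i hi => (mem_sdiff.1 (g1 i hi)).1
  simp only [Prod.mk.injEq] at g2
  rcases x with _ | _
  · rcases y with _ | _
    · have := chain_le hO _ g (fun j => Q (g j)) (fun j => P (g j)) (fun j => (R (g j) ∪ Γ (g j))ᶜ)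
        (fun j => Γ (g j)) (fun j hj => ⟨hZO _ (g1 j hj), p1 _ (gZ j hj), (p4 _).rev,
          by rw [cut_rev, p5], (p3 _ (gZ j hj)).rev⟩) fun i j hij hj => by
            simpa using (g2 i j hij hj).2
      omega
    · have a1 := cut_inter_le hD (p2 _ (gZ 0 (by omega))) (p4 (g 0)) (p5 _).le
      have a2 := card_le_card_of_injOn (s := Ico 1 (ρ + q ^ ρ + 2)) (t := Γ (g 0) ∩ D) g
        (fun j hj => by
          rw [coe_Ico] at hj
          exact mem_coe.2 (mem_inter.2 ⟨by simpa using (g2 0 j hj.1 hj.2).2.2,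
            hZD _ (gZ j hj.2)⟩))
        fun i hi j hj hij => by
          rw [coe_Ico] at hi hj
          by_contra hne
          rcases lt_or_gt_of_ne hne with h | h
          · exact (g2 i j h hj.2).1 hij
          · exact (g2 j i h hi.2).1 hij.symm
      rw [Nat.card_Ico] at a2
      omega
  · have := chain_le hD _ g (fun j => P (g j)) (fun j => Q (g j)) (fun j => R (g j))
      (fun j => Γ (g j)) (fun j hj => ⟨hZD _ (gZ j hj), p2 _ (gZ j hj), p4 _, (p5 _).le,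
        p3 _ (gZ j hj)⟩) fun i j hij hj => by simpa using (g2 i j hij hj).2.1
    omega

end Pool.Agent.Lib.MP_12b00b_co
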