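import Pool.Agent.Lib.MP_12b00b_co.Hub

/-! Induced paths in fundamental graphs give stars. -/

namespace Pool.Agent.Lib.MP_12b00b_co

open Finset Module

theorem geodesic {α : Type} (adj : α → α → Prop) (r : α) (X : α → Prop)
    (h : ∃ x, Relation.ReflTransGen adj r x ∧ ¬ X x) :
    ∃ (n : ℕ) (ρ : ℕ → α), ρ 0 = r ∧ ¬ X (ρ n) ∧ (∀ j < n, X (ρ j) ∧ adj (ρ j) (ρ (j + 1))) ∧
      ∀ i j, i < j → j ≤ n → ρ i ≠ ρ j ∧ (adj (ρ i) (ρ j) → j = i + 1) := by
  classical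
  have ex : ∃ n : ℕ, ∃ ρ : ℕ → α, ρ 0 = r ∧ ¬ X (ρ n) ∧ ∀ j < n, adj (ρ j) (ρ (j + 1)) := by
    obtain ⟨x, hx, hX⟩ := h
    suffices H : ∃ n : ℕ, ∃ ρ : ℕ → α, ρ 0 = r ∧ ρ n = x ∧ ∀ j < n, adj (ρ j) (ρ (j + 1)) by
      obtain ⟨n, ρ, h1, h2, h3⟩ := H
      exact ⟨n, ρ, h1, h2 ▸ hX, h3⟩
    clear hX
    induction hx with
    | refl => exact ⟨0, fun _ => r, rfl, rfl, fun j hj => absurd hj (by omega)⟩
    | @tail b c _ hbc ih =>
      obtain ⟨n, ρ, h1, h2, h3⟩ := ih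
      refine ⟨n + 1, fun t => if t ≤ n then ρ t else c, by simpa using h1, by simp,
        fun j hj => ?_⟩
      by_cases hjn : j < n
      · simpa [hjn.le, show j + 1 ≤ n from hjn] using h3 j hjn
      · have : j = n := by omega
        simpa [this, h2] using hbc
  obtain ⟨ρ, h1, h2, h3⟩ := Nat.find_spec ex
  set n := Nat.find ex with hn
  have hmin : ∀ m < n, ∀ σ : ℕ → α, σ 0 = r → ¬ X (σ m) → (∀ j < m, adj (σ j) (σ (j + 1))) →
      False := fun m hm σ a b c => Nat.find_min ex hm ⟨σ, a, b, c⟩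
  have hX : ∀ j < n, X (ρ j) := fun j hj => by_contra fun hh =>
    hmin j hj ρ h1 hh fun i hi => h3 i (by omega)
  have cut : ∀ i s, 1 ≤ s → i + s < n → ¬ adj (ρ i) (ρ (i + s + 1)) := fun i s s1 s2 ha => by
    refine hmin (n - s) (by omega) (fun t => if t ≤ i then ρ t else ρ (t + s)) (by simpa using h1)
      ?_ fun j hj => ?_
    · rwa [if_neg (by omega), Nat.sub_add_cancel (by omega)]
    · rcases lt_trichotomy j i with hji | hji | hji
      · rw [if_pos hji.le, if_pos (show j + 1 ≤ i from hji)]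
        exact h3 j (by omega)
      · subst hji
        rwa [if_pos le_rfl, if_neg (by omega), Nat.add_right_comm]
      · rw [if_neg (by omega), if_neg (by omega), Nat.add_right_comm]
        exact h3 _ (by omega)
  refine ⟨n, ρ, h1, h2, fun j hj => ⟨hX j hj, h3 j hj⟩, fun i j hij hj => ⟨fun he => ?_,
    fun ha => ?_⟩⟩
  · rcases hj.lt_or_eq with hj | hj
    · refine cut i (j - i) (by omega) (by omega) ?_
      rw [he, show i + (j - i) = j by omega]
      exact h3 j hj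
    · exact h2 (hj ▸ he ▸ hX i (by omega))
  · by_contra hne
    refine cut i (j - i - 1) (by omega) (by omega) ?_
    rwa [show i + (j - i - 1) + 1 = j by omega]

variable {F : Type} [Field F] {E : Type} [Fintype E] [DecidableEq E]

namespace OP

variable {O : OP F E} {rk : Finset E → ℕ} {c : ℕ} {B Y Y' : Finset E}

theorem path_star (hB : O.Base B) (n : ℕ) (ρ d : ℕ → E) (w : ℕ → E → F)
    (hρ : ∀ j ≤ n, ρ j ∈ B ∧ ρ j ∉ Y) (hinj : ∀ i j, i < j → j ≤ n → ρ i ≠ ρ j)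
    (hd : ∀ j < n, d j ∉ B ∧ d j ∉ Y ∧ w j ∈ O.W ∧ (∀ e ∉ B, e ≠ d j → w j e = 0) ∧
      w j (ρ j) ≠ 0 ∧ w j (ρ (j + 1)) ≠ 0 ∧ (∀ i ≤ n, i ≠ j → i ≠ j + 1 → w j (ρ i) = 0) ∧
      ∀ e ∉ Y', w j e = 0)
    (h0 : ρ 0 ∈ Y') (hc : c ≤ rk ((Icc 1 n).image ρ)) :
    ∃ B', O.Base B' ∧ (∀ e ∈ Y, e ∈ B' ↔ e ∈ B) ∧ O.Star rk c B' Y Y' := by
  let B' := (B \ (Icc 1 n).image ρ) ∪ (range n).image d
  have mB : ∀ e, e ∈ B' ↔ (e ∈ B ∧ ∀ i, 1 ≤ i → i ≤ n → ρ i ≠ e) ∨ ∃ j < n, d j = e := by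
    simp [B']
  have r0 : ρ 0 ∈ B' := (mB _).2 (Or.inl ⟨(hρ 0 (by omega)).1, fun i i1 i2 =>
    (hinj 0 i i1 i2).symm⟩)
  refine ⟨B', base_of_span (fun u hu hz => ?_) ?_, fun e he => ?_, ρ 0, r0, (hρ 0 (by omega)).2,
    h0, _, hc, fun z hz => ?_⟩
  · have key : ∀ j ≤ n, u (ρ j) = 0 := fun j hj => by
      induction j with
      | zero => exact hz _ r0
      | succ j ih =>
        obtain ⟨d1, -, d3, d4, -, d6, d7, -⟩ := hd j hj
        refine (mul_eq_zero.1 (orth_one hu d3 (a := ρ (j + 1)) fun e he => ?_)).resolve_right d6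
        by_cases h1 : e ∈ B'
        · rw [hz e h1, zero_mul]
        rw [mB, not_or] at h1
        by_cases h2 : e ∈ B
        · simp only [h2, true_and, not_forall, not_not] at h1
          obtain ⟨⟨i, i1, i2, rfl⟩, -⟩ := h1
          by_cases hij : i = j
          · rw [hij, ih (by omega), zero_mul]
          · rw [d7 i i2 hij fun hh => he (hh ▸ rfl), mul_zero]
        · rw [d4 e h2 fun hh => h1.2 ⟨j, hj, hh.symm⟩, mul_zero]
    refine hB.1 u hu fun b hb => ?_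
    by_cases h1 : ∀ i, 1 ≤ i → i ≤ n → ρ i ≠ b
    · exact hz b ((mB b).2 (Or.inl ⟨hb, h1⟩))
    · simp only [not_forall, not_not] at h1
      obtain ⟨i, -, i2, rfl⟩ := h1
      exact key i i2
  · have a1 : #((Icc 1 n).image ρ) = n := by
      rw [card_image_of_injOn, Nat.card_Icc, Nat.add_sub_cancel]
      intro i hi j hj hij
      rw [coe_Icc] at hi hj
      by_contra hne
      rcases lt_or_gt_of_ne hne with h | h
      · exact hinj i j h hj.2 hij
      · exact hinj j i h hi.2 hij.symm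
    have a2 : (Icc 1 n).image ρ ⊆ B := image_subset_iff.2 fun i hi => (hρ i (mem_Icc.1 hi).2).1
    have a3 := card_union_le (B \ (Icc 1 n).image ρ) ((range n).image d)
    have a4 := card_image_le (s := range n) (f := d)
    have a5 := card_le_card a2
    rw [card_sdiff_of_subset a2] at a3
    rw [card_range] at a4
    rw [← hB.card]
    simp only [B']
    omega
  · rw [mB]
    refine ⟨fun h => h.elim And.left fun ⟨j, hj, hh⟩ => absurd (hh ▸ he) (hd j hj).2.1,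
      fun h => Or.inl ⟨h, fun i _ i2 hh => (hρ i i2).2 (hh ▸ he)⟩⟩
  · obtain ⟨j, hj, rfl⟩ := mem_image.1 hz
    rw [mem_Icc] at hj
    have key : ∀ j, 1 ≤ j → j ≤ n → ∃ y ∈ O.W, (∀ e ∉ Y', y e = 0) ∧ y (ρ 0) ≠ 0 ∧
        y (ρ j) ≠ 0 ∧ (∀ e ∉ B, (∀ i < n, d i ≠ e) → y e = 0) ∧
        ∀ i, 1 ≤ i → i ≤ n → i ≠ j → y (ρ i) = 0 := fun j j1 j2 => by
      induction j, j1 using Nat.le_induction with
      | base =>
        obtain ⟨-, -, d3, d4, d5, d6, d7, d8⟩ := hd 0 j2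
        exact ⟨w 0, d3, d8, d5, d6, fun e he hh => d4 e he (hh 0 j2).symm,
          fun i i1 i2 i3 => d7 i i2 (by omega) i3⟩
      | succ j j1 ih =>
        obtain ⟨y, y1, y2, y3, y4, y5, y6⟩ := ih (by omega)
        obtain ⟨-, -, d3, d4, d5, d6, d7, d8⟩ := hd j j2
        refine ⟨y (ρ j) • w j - w j (ρ j) • y, sub_mem (O.W.smul_mem _ d3) (O.W.smul_mem _ y1),
          fun e he => by simp [y2 e he, d8 e he], ?_, ?_,
          fun e he hh => by simp [y5 e he hh, d4 e he (hh j j2).symm], fun i i1 i2 i3 => ?_⟩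
        · simp [d7 0 (by omega) (by omega) (by omega), d5, y3]
        · simp [y6 (j + 1) (by omega) j2 (by omega), d6, y4]
        · by_cases hij : i = j
          · simp [hij, mul_comm]
          · simp [d7 i i2 hij i3, y6 i i1 i2 hij]
    obtain ⟨y, y1, y2, y3, y4, y5, y6⟩ := key j hj.1 hj.2
    refine ⟨fun hh => ?_, y, y1, y2, y3, y4, fun e he hne => ?_⟩
    · rcases (mB _).1 hh with h | ⟨i, hi, h⟩
      · exact h.2 j hj.1 hj.2 rfl
      · exact (hd i hi).1 (h ▸ (hρ j hj.2).1)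
    · rw [mB, not_or] at he
      by_cases h2 : e ∈ B
      · simp only [h2, true_and, not_forall, not_not] at he
        obtain ⟨⟨i, i1, i2, rfl⟩, -⟩ := he
        exact y6 i i1 i2 fun hh => hne (hh ▸ rfl)
      · exact y5 e h2 fun i hi hh => he.2 ⟨i, hi, hh⟩

omit [DecidableEq E] in
theorem nul_le_of {X X' : Finset E} (h : ∀ u ∈ O.U, (∀ e ∉ X, u e = 0) → ∀ e ∉ X', u e = 0) :
    O.nul X ≤ O.nul X' :=
  Submodule.finrank_mono fun u hu => ⟨hu.1, h u hu.1 hu.2⟩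

theorem nul_closed (hB : O.Base B) {C : Finset E} (hC : Disjoint C Y)
    (hcl : ∀ ρ ∈ B, ρ ∈ C → ∀ e ∉ Y, O.fu B ρ e ≠ 0 → e ∈ C) :
    #(B ∩ C) ≤ O.nul C + O.lam Y := by
  have a1 := hB.nul_compl (sdiff_subset : B \ C ⊆ B)
  have a2 : O.nul (B \ C)ᶜ ≤ O.nul (C ∪ (Y \ B)) := nul_le_of fun u hu h' e he => by
    have h : ∀ e ∈ B, e ∉ C → u e = 0 := fun e e1 e2 => h' e (by simp [e1, e2])
    simp only [not_not, mem_sdiff, mem_union, not_or, not_and] at he
    by_cases heB : e ∈ B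
    · exact h e heB he.1
    rw [hB.expand hu e]
    refine sum_eq_zero fun b hb => ?_
    by_cases hbC : b ∈ C
    · rw [by_contra fun hn => he.1 (hcl b hb hbC e (fun hh => heB (he.2 hh)) hn), mul_zero]
    · rw [h b hb hbC, zero_mul]
  have a3 := O.nul_super (C ∪ (Y \ B)) Yᶜ
  have a4 := O.nul_mono (X := (C ∪ (Y \ B)) ∩ Yᶜ) (Y := C) fun e he => by
    simp only [mem_inter, mem_union, mem_sdiff, mem_compl] at he
    tauto
  have a5 := O.nul_mono (X := (C ∪ (Y \ B)) ∪ Yᶜ) (Y := (B ∩ Y)ᶜ) fun e he => by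
    have := @disjoint_left.1 hC e
    simp only [mem_inter, mem_union, mem_sdiff, mem_compl] at he ⊢
    tauto
  have a6 := hB.nul_compl (inter_subset_left : B ∩ Y ⊆ B)
  have a7 := O.nul_mono (X := Y) (Y := (B \ Y)ᶜ) fun e he => by simp [he]
  have a8 := hB.nul_compl (sdiff_subset : B \ Y ⊆ B)
  have a9 := O.lam_add Y
  have b1 := hB.card
  have b2 := card_sdiff_add_card_inter B C
  have b3 := card_sdiff_add_card_inter B Y
  omega

/-- unions of components of the fundamental graph with `Y` removed -/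
def Closed (O : OP F E) (B Y C : Finset E) : Prop :=
  Disjoint C Y ∧ ∀ ρ ∈ B, ρ ∉ Y → ∀ d ∉ B, d ∉ Y → O.fu B ρ d ≠ 0 → (ρ ∈ C ↔ d ∈ C)

theorem Base.fu_ne_zero (hB : O.Base B) {b x : E} (hb : b ∈ B) (hx : x ∉ B) :
    O.swap.fu Bᶜ x b ≠ 0 ↔ O.fu B b x ≠ 0 := by
  have := hB.fu_swap hb hx
  rw [eq_neg_of_add_eq_zero_left this, neg_ne_zero]

theorem Closed.lam_le (hB : O.Base B) {C : Finset E} (h : O.Closed B Y C) :
    O.lam C ≤ 2 * O.lam Y := by
  have a1 := nul_closed hB h.1 fun ρ hρ hC e he hne => by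
    by_cases heB : e ∈ B
    · rwa [by_contra fun hh => hne (hB.fu_ne heB hh)]
    · exact (h.2 ρ hρ (disjoint_left.1 h.1 hC) e heB he hne).1 hC
  have a2 := nul_closed hB.swap h.1 fun d hd hC e he hne => by
    by_cases heB : e ∈ B
    · rw [mem_compl] at hd
      exact (h.2 e heB he d hd (disjoint_left.1 h.1 hC) ((hB.fu_ne_zero heB hd).1 hne)).2 hC
    · rwa [by_contra fun hh => hne (hB.swap.fu_ne (mem_compl.2 heB) hh)]
  have a3 := O.lam_add' C
  have a4 := card_inter_add_card_sdiff C B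
  rw [lam_swap] at a2
  rw [sdiff_eq_inter_compl, inter_comm C, inter_comm C] at a4
  omega

theorem exists_root {k l : ℕ} (hB : O.Base B) (hT : Tangle O.lam rk k) (h1 : O.lam Y ≤ l)
    (h2 : rk Y ≤ l) (hk : 4 * l + 1 < k) :
    ∃ ρ ∈ B, ρ ∉ Y ∧ ∀ C, O.Closed B Y C → ρ ∈ C → k ≤ rk C := by
  by_contra hn
  simp only [not_exists, not_and, not_forall, not_le] at hn
  have sm : ∀ C, O.Closed B Y C → rk C < k → rk C ≤ 2 * l := fun C hC hr => by
    have a1 := hC.lam_le hB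
    have a2 := hT.small C (by omega) hr
    omega
  have one : ∀ e ∉ Y, ∃ C, O.Closed B Y C ∧ e ∈ C ∧ rk C < k := fun e he => by
    by_cases heB : e ∈ B
    · obtain ⟨C, c1, c2, c3⟩ := hn e heB he
      exact ⟨C, c1, c2, c3⟩
    by_cases hex : ∃ ρ ∈ B, ρ ∉ Y ∧ O.fu B ρ e ≠ 0
    · obtain ⟨ρ, r1, r2, r3⟩ := hex
      obtain ⟨C, c1, c2, c3⟩ := hn ρ r1 r2
      exact ⟨C, c1, (c1.2 ρ r1 r2 e heB he r3).1 c2, c3⟩
    · refine ⟨{e}, ⟨by simpa using he, fun ρ r1 r2 d d1 d2 d3 => ?_⟩, mem_singleton_self _, ?_⟩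
      · simp only [mem_singleton]
        exact ⟨fun hh => absurd (hh ▸ r1) heB, fun hh => absurd ⟨ρ, r1, r2, hh ▸ d3⟩ hex⟩
      · have := hT.isRK.le_card hT.empty {e}
        rw [card_singleton] at this
        omega
  have all : ∀ s : Finset E, Disjoint s Y → ∃ C, O.Closed B Y C ∧ s ⊆ C ∧ rk C ≤ 2 * l := by
    intro s
    induction s using Finset.induction_on with
    | empty =>
      exact fun _ => ⟨∅, ⟨by simp, by simp⟩, Subset.refl _, by rw [hT.empty]; omega⟩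
    | insert e s _ ih =>
      intro hs
      rw [disjoint_insert_left] at hs
      obtain ⟨C, c1, c2, c3⟩ := ih hs.2
      obtain ⟨C', d1, d2, d3⟩ := one e hs.1
      have hc : O.Closed B Y (C' ∪ C) := ⟨disjoint_union_left.2 ⟨d1.1, c1.1⟩,
        fun ρ r1 r2 d e1 e2 e3 => by
          rw [mem_union, mem_union, c1.2 ρ r1 r2 d e1 e2 e3, d1.2 ρ r1 r2 d e1 e2 e3]⟩
      have a1 := hT.isRK.union_le C' C
      have a2 := sm C' d1 d3
      exact ⟨_, hc, insert_subset (mem_union_left _ d2) (c2.trans subset_union_right),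
        sm _ hc (by omega)⟩
  obtain ⟨C, -, c2, c3⟩ := all Yᶜ disjoint_compl_left
  have a1 := hT.isRK.union_le Y C
  have a2 := hT.isRK.mono univ (Y ∪ C) fun e _ => by
    by_cases he : e ∈ Y
    · exact mem_union_left _ he
    · exact mem_union_right _ (c2 (mem_compl.2 he))
  have a3 := hT.univ
  omega

end OP

end Pool.Agent.Lib.MP_12b00b_co
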