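import Pool.Agent.Lib.MP_12b00b_co.S2
import Pool.Agent.Lib.MP_12b00b_co.Tangle

/-! Stars in fundamental graphs; the case of a hub. -/

namespace Pool.Agent.Lib.MP_12b00b_co

open Finset Module

variable {F : Type} [Field F] [DecidableEq F] {E : Type} [Fintype E] [DecidableEq E]

/-- support of a vector -/
def supp (u : E → F) : Finset E := univ.filter fun e => u e ≠ 0

omit [DecidableEq E] in
@[simp] theorem mem_supp {u : E → F} {e : E} : e ∈ supp u ↔ u e ≠ 0 := by simp [supp]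

namespace OP

/-- a basis element joined to a set of large rank by circuits inside `Y'` -/
def Star (O : OP F E) (rk : Finset E → ℕ) (c : ℕ) (B Y Y' : Finset E) : Prop :=
  ∃ h ∈ B, h ∉ Y ∧ h ∈ Y' ∧ ∃ Z, c ≤ rk Z ∧ ∀ z ∈ Z, z ∉ B ∧ ∃ w ∈ O.W,
    (∀ e ∉ Y', w e = 0) ∧ w h ≠ 0 ∧ w z ≠ 0 ∧ ∀ e ∉ B, e ≠ z → w e = 0

/-- no coline with two classes of large rank -/
def Obs (O : OP F E) (rk : Finset E → ℕ) (c : ℕ) : Prop :=
  ∀ u1 ∈ O.U, ∀ u2 ∈ O.U,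
    (∀ u ∈ O.U, (∀ e, u1 e = 0 → u2 e = 0 → u e = 0) → ∃ a b : F, ∀ e, u e = a * u1 e + b * u2 e) →
    ∀ S0 T0 : Finset E, (∀ e ∈ S0, u1 e ≠ 0 ∧ u2 e = 0) → (∀ e ∈ T0, u2 e ≠ 0) →
    c ≤ rk S0 → c ≤ rk T0 → False

/-- no basis element outside `Y` has a neighbourhood of large rank -/
def NoHub (O : OP F E) (rk : Finset E → ℕ) (c : ℕ) (B Y : Finset E) : Prop :=
  ∀ h ∈ B, h ∉ Y → rk (supp (O.fu B h) \ (Y ∪ B)) ≤ 2 * c

variable {O : OP F E} {rk : Finset E → ℕ} {c : ℕ} {B Y Y' : Finset E}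

omit [DecidableEq F] [DecidableEq E] in
theorem Star.persist (h : O.Star rk c B Y Y') {B' Y'' : Finset E} (hY : Y' ⊆ Y'')
    (hB : ∀ e ∈ Y', e ∈ B' ↔ e ∈ B) : O.Star rk c B' Y Y'' := by
  obtain ⟨h, h1, h2, h3, Z, hZ, H⟩ := h
  refine ⟨h, (hB h h3).2 h1, h2, hY h3, Z, hZ, fun z hz => ?_⟩
  obtain ⟨z1, w, w1, w2, w3, w4, w5⟩ := H z hz
  refine ⟨fun hh => z1 ((hB z (by_contra fun hn => w4 (w2 z hn))).1 hh), w, w1,
    fun e he => w2 e fun hh => he (hY hh), w3, w4, fun e he hne => ?_⟩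
  by_cases hy : e ∈ Y'
  · exact w5 e (fun hh => he ((hB e hy).2 hh)) hne
  · exact w2 e hy

omit [DecidableEq F] in
theorem two_stars (hO : O.Obs rk c) (hB : O.Base B) {Y2 Y3 : Finset E} (s1 : O.Star rk c B Y Y')
    (s2 : O.Star rk c B Y2 Y3) (hY : Y' ⊆ Y2) : False := by
  obtain ⟨h1, a1, -, a3, Z1, a4, a5⟩ := s1
  obtain ⟨h3, b1, b2, -, Z3, b4, b5⟩ := s2
  have hne : h1 ≠ h3 := fun hh => b2 (hY (hh ▸ a3))
  have nz : ∀ h ∈ B, ∀ z ∉ B, ∀ w ∈ O.W, w h ≠ 0 → (∀ e ∉ B, e ≠ z → w e = 0) →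
      O.fu B h z ≠ 0 := fun h hh z hz w hw w3 w5 h0 => by
    have := orth_one (fu_mem B h) hw (a := h) fun e he => by
      by_cases heB : e ∈ B
      · rw [hB.fu_ne heB he, zero_mul]
      by_cases hez : e = z
      · rw [hez, h0, zero_mul]
      · rw [w5 e heB hez, mul_zero]
    rw [hB.fu_self hh, one_mul] at this
    exact w3 this
  refine hO _ (fu_mem B h1) _ (fu_mem B h3) (fun u hu h0 => ⟨u h1, u h3, fun e => ?_⟩) Z1 Z3
    (fun z hz => ?_) (fun z hz => ?_) a4 b4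
  · rw [hB.expand hu e]
    exact sum_eq_add_of_mem h1 h3 a1 b1 hne fun b hb hb' => by
      rw [h0 b (hB.fu_ne hb hb'.1) (hB.fu_ne hb hb'.2), zero_mul]
  · obtain ⟨z1, w, w1, w2, w3, w4, w5⟩ := a5 z hz
    refine ⟨nz h1 a1 z z1 w w1 w3 w5, ?_⟩
    have := orth_one (fu_mem B h3) w1 (a := z) fun e he => by
      by_cases heB : e ∈ B
      · by_cases he3 : e = h3
        · rw [he3, w2 h3 fun hh => b2 (hY hh), mul_zero]
        · rw [hB.fu_ne heB he3, zero_mul]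
      · rw [w5 e heB he, mul_zero]
    exact (mul_eq_zero.1 this).resolve_right w4
  · obtain ⟨z1, w, w1, -, w3, -, w5⟩ := b5 z hz
    exact nz h3 b1 z z1 w w1 w3 w5

theorem star_of (hrk : RK rk) (h0 : rk ∅ = 0) {h : E} (hB : h ∈ B) (hY : h ∉ Y) (Z : Finset E)
    (hZ : c ≤ rk Z) (v : E → E → F) (n : ℕ) (hv : ∀ z ∈ Z, z ∉ B ∧ v z ∈ O.W ∧ v z h ≠ 0 ∧
      v z z ≠ 0 ∧ (∀ e ∉ B, e ≠ z → v z e = 0) ∧ rk (supp (v z)) ≤ n) :
    ∃ Y', Y ⊆ Y' ∧ rk Y' ≤ rk Y + 1 + #Z * n ∧ O.Star rk c B Y Y' := by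
  refine ⟨insert h (Y ∪ Z.biUnion fun z => supp (v z)),
    subset_union_left.trans (subset_insert _ _), ?_, h, hB, hY, mem_insert_self _ _, Z, hZ,
    fun z hz => ?_⟩
  · have a1 := hrk.unit (Y ∪ Z.biUnion fun z => supp (v z)) h
    have a2 := hrk.union_le Y (Z.biUnion fun z => supp (v z))
    have a3 := hrk.biUnion_le h0 Z (fun z => supp (v z)) n fun z hz => (hv z hz).2.2.2.2.2
    omega
  · obtain ⟨v1, v2, v3, v4, v5, -⟩ := hv z hz
    refine ⟨v1, v z, v2, fun e he => ?_, v3, v4, v5⟩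
    by_contra hn
    exact he (mem_insert_of_mem (mem_union_right _ (mem_biUnion.2 ⟨z, hz, mem_supp.2 hn⟩)))

theorem exists_mul [Fintype F] (hO : O.swap.Obs rk c) (hB : O.Base B) (hrk : RK rk)
    (h0 : rk ∅ = 0) {z z1 : E} (hz : z ∉ B) (hz1 : z1 ∉ B) (hne : z ≠ z1)
    (hbig : Fintype.card F * c < rk (supp (O.swap.fu Bᶜ z1))) :
    ∃ a : F, rk (supp (O.swap.fu Bᶜ z - a • O.swap.fu Bᶜ z1)) ≤ c := by
  obtain ⟨a, ha⟩ : ∃ a : F, c < rk (univ.filter fun e =>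
      O.swap.fu Bᶜ z1 e ≠ 0 ∧ (O.swap.fu Bᶜ z - a • O.swap.fu Bᶜ z1) e = 0) := by
    by_contra hn
    simp only [not_exists, not_lt] at hn
    have a1 := hrk.biUnion_le h0 univ _ c fun a _ => hn a
    refine absurd ((hrk.mono _ _ fun e he => ?_).trans a1) (not_le.2 hbig)
    rw [mem_supp] at he
    refine mem_biUnion.2 ⟨O.swap.fu Bᶜ z e / O.swap.fu Bᶜ z1 e, mem_univ _, ?_⟩
    simp [he]
  refine ⟨a, not_lt.1 fun hlt => ?_⟩
  have m1 := fu_mem (O := O.swap) Bᶜ z1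
  have m2 := sub_mem (fu_mem (O := O.swap) Bᶜ z) (Submodule.smul_mem _ a m1)
  refine hO _ m1 _ m2 (fun u hu hv => ⟨u z1 + a * u z, u z, fun e => ?_⟩) _ _
    (fun e he => (mem_filter.1 he).2) (fun e he => mem_supp.1 he) ha.le hlt.le
  rw [hB.swap.expand hu e, sum_eq_add_of_mem z z1 (mem_compl.2 hz) (mem_compl.2 hz1) hne]
  · simp only [Pi.sub_apply, Pi.smul_apply, smul_eq_mul]
    ring
  · intro b hb hb'
    rw [hv b (hB.swap.fu_ne hb hb'.2), zero_mul]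
    simp [hB.swap.fu_ne hb hb'.2, hB.swap.fu_ne hb hb'.1]

theorem hub [Fintype F] (hO : O.swap.Obs rk c) (hB : O.Base B) (hrk : RK rk) (h0 : rk ∅ = 0)
    {l : ℕ} (hl : rk Y ≤ l) (hn : ¬ O.NoHub rk c B Y) :
    ∃ B' Y', O.Base B' ∧ (∀ e ∈ Y, e ∈ B' ↔ e ∈ B) ∧ Y ⊆ Y' ∧
      rk Y' ≤ l + 1 + (2 * c + 1) * (Fintype.card F * c + l + 1 + (2 * c + 1) * c) ∧
      O.Star rk c B' Y Y' := by
  simp only [NoHub, not_forall, not_le] at hn
  obtain ⟨h, hB1, hY, hbig⟩ := hn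
  obtain ⟨Z0, hZ0, cZ0, rZ0⟩ := hrk.exists_indep_card h0 (n := 2 * c + 1) hbig
  set n2 := Fintype.card F * c + l + 1 + (2 * c + 1) * c with hn2
  let w := O.swap.fu Bᶜ
  have fz : ∀ z ∈ Z0, z ∉ B ∧ z ∉ Y ∧ w z h ≠ 0 := fun z hz => by
    have := hZ0 hz
    simp only [mem_sdiff, mem_supp, mem_union, not_or] at this
    refine ⟨this.2.2, this.2.1, fun hh => this.1 ?_⟩
    simpa [w, hh] using hB.fu_swap hB1 this.2.2
  have w1 : ∀ z ∉ B, w z z = 1 := fun z hz => hB.swap.fu_self (mem_compl.2 hz)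
  have w0 : ∀ z, ∀ e ∉ B, e ≠ z → w z e = 0 := fun z e he hne =>
    hB.swap.fu_ne (mem_compl.2 he) hne
  have wm : ∀ z, w z ∈ O.W := fun z => fu_mem (O := O.swap) Bᶜ z
  have easy : ∀ Z ⊆ Z0, c ≤ #Z → (∀ z ∈ Z, rk (supp (w z)) ≤ n2) →
      ∃ B' Y', O.Base B' ∧ (∀ e ∈ Y, e ∈ B' ↔ e ∈ B) ∧ Y ⊆ Y' ∧
      rk Y' ≤ l + 1 + (2 * c + 1) * n2 ∧ O.Star rk c B' Y Y' := fun Z hZ hc hs => by
    obtain ⟨Y', y1, y2, y3⟩ := star_of (O := O) (c := c) hrk h0 hB1 hY Z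
      (by rwa [hrk.indep_subset h0 hZ (rZ0.trans cZ0.symm)]) w n2 fun z hz =>
        ⟨(fz z (hZ hz)).1, wm z, (fz z (hZ hz)).2.2, by simp [w1 z (fz z (hZ hz)).1], w0 z,
          hs z hz⟩
    have := Nat.mul_le_mul_right n2 ((card_le_card hZ).trans cZ0.le)
    exact ⟨B, Y', hB, fun _ _ => Iff.rfl, y1, by omega, y3⟩
  by_cases hall : ∀ z ∈ Z0, rk (supp (w z)) ≤ n2
  · exact easy Z0 (Subset.refl _) (by omega) hall
  simp only [not_forall, not_le] at hall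
  obtain ⟨z1, hz1, hz1b⟩ := hall
  have ex : ∀ z ∈ Z0.erase z1, ∃ a : F, rk (supp (w z - a • w z1)) ≤ c := fun z hz =>
    exists_mul hO hB hrk h0 (fz z (mem_of_mem_erase hz)).1 (fz z1 hz1).1 (ne_of_mem_erase hz)
      (lt_of_le_of_lt (by omega) hz1b)
  choose! a ha using ex
  have hsplit := card_filter_add_card_filter_not (s := Z0.erase z1) fun z => a z = 0
  rw [card_erase_of_mem hz1] at hsplit
  by_cases hc : c ≤ #((Z0.erase z1).filter fun z => a z = 0)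
  · refine easy _ ((filter_subset _ _).trans (erase_subset _ _)) hc fun z hz => ?_
    have := ha z (mem_filter.1 hz).1
    rw [(mem_filter.1 hz).2, zero_smul, sub_zero] at this
    nlinarith
  set Z := (Z0.erase z1).filter fun z => ¬ a z = 0 with hZ
  have hZs : Z ⊆ Z0 := (filter_subset _ _).trans (erase_subset _ _)
  have hZc := Nat.mul_le_mul_right c ((card_le_card hZs).trans cZ0.le)
  obtain ⟨h', p1, p2⟩ : ∃ h' ∈ supp (w z1),
      h' ∉ insert z1 (Y ∪ Z.biUnion fun z => supp (w z - a z • w z1)) := by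
    by_contra hn
    simp only [not_exists, not_and, not_not] at hn
    have a0 := hrk.mono _ _ hn
    have a1 := hrk.unit (Y ∪ Z.biUnion fun z => supp (w z - a z • w z1)) z1
    have a2 := hrk.union_le Y (Z.biUnion fun z => supp (w z - a z • w z1))
    have a3 := hrk.biUnion_le h0 Z (fun z => supp (w z - a z • w z1)) c fun z hz =>
      ha z (mem_filter.1 hz).1
    omega
  simp only [mem_insert, mem_union, mem_biUnion, mem_supp, not_or, not_exists, not_and,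
    not_not] at p1 p2
  have hh'B : h' ∈ B := by_contra fun hn => p1 (w0 z1 h' hn p2.1)
  obtain ⟨Y', y1, y2, y3⟩ := star_of (O := O) (c := c) (B := insert z1 (B.erase h')) hrk h0
    (mem_insert_self _ _) (fz z1 hz1).2.1 Z
    (by rw [hrk.indep_subset h0 hZs (rZ0.trans cZ0.symm)]; omega) (fun z => w z - a z • w z1) c
    fun z hz => by
      have q := mem_filter.1 hz
      have q1 := ne_of_mem_erase q.1
      have q2 := (fz z (hZs hz)).1
      have q3 := (fz z1 hz1).1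
      refine ⟨by simp [q1, q2], sub_mem (wm z) (Submodule.smul_mem _ _ (wm z1)), ?_, ?_,
        fun e he hne => ?_, ha z q.1⟩
      · simp [w0 z z1 q3 q1.symm, w1 z1 q3, q.2]
      · simp [w0 z1 z q2 q1, w1 z q2]
      · simp only [mem_insert, mem_erase, not_or, not_and] at he
        by_cases heh : e = h'
        · rw [heh]
          exact p2.2.2 z hz
        · simp [w0 z e (he.2 heh) hne, w0 z1 e (he.2 heh) he.1]
  refine ⟨_, Y', hB.exch hh'B (wm z1) p1 (w0 z1), fun e he => ?_, y1, by nlinarith, y3⟩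
  have t1 : e ≠ z1 := fun hh => (fz z1 hz1).2.1 (hh ▸ he)
  have t2 : e ≠ h' := fun hh => p2.2.1 (hh ▸ he)
  simp [t1, t2]

end OP

end Pool.Agent.Lib.MP_12b00b_co
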