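import Pool.Agent.Lib.MP_12b00b_co.OP

/-! Finding an `M(K4)` minor in homogeneous configurations. -/

namespace Pool.Agent.Lib.MP_12b00b_co

open Finset Module

variable {F : Type} [Field F] {E : Type} [Fintype E] [DecidableEq E]

namespace OP

variable {O : OP F E}

theorem vanish_of_r {X Y : Finset E} (hXY : X ⊆ Y) (hr : O.r Y ≤ O.r X) {u : E → F}
    (hu : u ∈ O.U) (hX : ∀ e ∈ X, u e = 0) : ∀ e ∈ Y, u e = 0 := by
  have h1 : O.U ⊓ Sup F Yᶜ ≤ O.U ⊓ Sup F Xᶜ :=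
    inf_le_inf_left _ fun _ hx e he => hx e fun hh => he (compl_subset_compl.2 hXY hh)
  have h2 := O.r_add X
  have h3 := O.r_add Y
  have h4 := Submodule.eq_of_le_of_finrank_le h1 (by unfold nul at h2 h3; omega)
  have h5 : u ∈ O.U ⊓ Sup F Yᶜ := h4 ▸ ⟨hu, fun e he => hX e (by simpa using he)⟩
  exact fun e he => h5.2 e (by simpa using he)

theorem r_lt_insert {X : Finset E} {u : E → F} (hu : u ∈ O.U) (hX : ∀ e ∈ X, u e = 0) {a : E}
    (ha : u a ≠ 0) : O.r X < O.r (insert a X) := by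
  by_contra h
  exact ha (vanish_of_r (subset_insert a X) (not_lt.1 h) hu hX a (mem_insert_self _ _))

theorem not_base {X : Finset E} {u : E → F} (hu : u ∈ O.U) {a : E} (ha : u a ≠ 0)
    (hX : ∀ e ∈ X, u e = 0) : ¬ O.Base X := fun h => ha (congrFun (h.1 u hu hX) a)

theorem k4_of_forms (hK : O.NoK4) (K : Finset E) (e12 e13 e14 e23 e24 e34 : E)
    (c12 c13 c14 c23 c24 c34 : F) (n12 : c12 ≠ 0) (n13 : c13 ≠ 0) (n14 : c14 ≠ 0)
    (n23 : c23 ≠ 0) (n24 : c24 ≠ 0) (n34 : c34 ≠ 0) (p1 p2 p3 : (E → F) → F)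
    (hform : ∀ u ∈ O.U, (∀ k ∈ K, u k = 0) → u e14 = c14 * p1 u ∧ u e24 = c24 * p2 u ∧
      u e34 = c34 * p3 u ∧ u e12 = c12 * (p1 u - p2 u) ∧ u e13 = c13 * (p1 u - p3 u) ∧
      u e23 = c23 * (p2 u - p3 u))
    (hinj : ∀ u ∈ O.U, (∀ k ∈ K, u k = 0) → p1 u = 0 → p2 u = 0 → p3 u = 0 → u = 0)
    (hsurj : ∀ a b c, ∃ u ∈ O.U, (∀ k ∈ K, u k = 0) ∧ p1 u = a ∧ p2 u = b ∧ p3 u = c) :
    False := by
  obtain ⟨K', -, hK'K, hK'i, hK'r⟩ :=
    O.rk_r.exists_basis O.r_empty (empty_subset K) (by simpa using O.r_empty)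
  have hv : ∀ u ∈ O.U, (∀ k ∈ K', u k = 0) → ∀ k ∈ K, u k = 0 := fun u hu h =>
    vanish_of_r hK'K hK'r.ge hu h
  obtain ⟨u1, m1, k1, a1, b1, d1⟩ := hsurj 1 0 0
  obtain ⟨u2, m2, k2, a2, b2, d2⟩ := hsurj 0 1 0
  obtain ⟨u3, m3, k3, a3, b3, d3⟩ := hsurj 0 0 1
  obtain ⟨u4, m4, k4, a4, b4, d4⟩ := hsurj 1 1 1
  obtain ⟨x14, x24, x34, x12, x13, x23⟩ := hform u1 m1 k1
  obtain ⟨y14, y24, y34, y12, y13, y23⟩ := hform u2 m2 k2
  obtain ⟨z14, z24, z34, z12, z13, z23⟩ := hform u3 m3 k3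
  obtain ⟨w14, w24, w34, w12, w13, w23⟩ := hform u4 m4 k4
  simp only [a1, b1, d1, mul_one, mul_zero, sub_zero, sub_self] at x14 x24 x34 x12 x13 x23
  simp only [a2, b2, d2, mul_one, mul_zero, sub_zero, sub_self, zero_sub,
    mul_neg] at y14 y24 y34 y12 y13 y23
  simp only [a3, b3, d3, mul_one, mul_zero, sub_self, zero_sub,
    mul_neg] at z14 z24 z34 z12 z13 z23
  simp only [a4, b4, d4, mul_one, mul_zero, sub_self] at w14 w24 w34 w12 w13 w23
  have k1' : ∀ k ∈ K', u1 k = 0 := fun k hk => k1 k (hK'K hk)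
  have k2' : ∀ k ∈ K', u2 k = 0 := fun k hk => k2 k (hK'K hk)
  have k3' : ∀ k ∈ K', u3 k = 0 := fun k hk => k3 k (hK'K hk)
  have k4' : ∀ k ∈ K', u4 k = 0 := fun k hk => k4 k (hK'K hk)
  have hd : #K' + 3 ≤ O.d := by
    have r1 := r_lt_insert (a := e14) m1 k1' (by rw [x14]; exact n14)
    have r2 := r_lt_insert (X := insert e14 K') (a := e24) m2
      (forall_mem_insert .. |>.2 ⟨y14, k2'⟩) (by rw [y24]; exact n24)
    have r3 := r_lt_insert (X := insert e24 (insert e14 K')) (a := e34) m3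
      (forall_mem_insert .. |>.2 ⟨z24, forall_mem_insert .. |>.2 ⟨z14, k3'⟩⟩)
      (by rw [z34]; exact n34)
    have r4 := O.r_le (insert e34 (insert e24 (insert e14 K')))
    omega
  have hc : ∀ a b c : E, #(insert a (insert b (insert c K'))) ≤ O.d := fun a b c => by
    have h1 := card_insert_le a (insert b (insert c K'))
    have h2 := card_insert_le b (insert c K')
    have h3 := card_insert_le c K'
    omega
  have B1 : O.Base (insert e12 (insert e23 (insert e34 K'))) := by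
    refine base_of_span (fun u hu h => ?_) (hc _ _ _)
    simp only [forall_mem_insert] at h
    obtain ⟨h12, h23, h34, hk⟩ := h
    obtain ⟨-, -, t34, t12, -, t23⟩ := hform u hu (hv u hu hk)
    have q3 : p3 u = 0 := by simpa [n34, h34] using t34
    have q2 : p2 u = 0 := by simpa [n23, h23, q3] using t23
    have q1 : p1 u = 0 := by simpa [n12, h12, q2] using t12
    exact hinj u hu (hv u hu hk) q1 q2 q3
  have B2 : O.Base (insert e13 (insert e14 (insert e24 K'))) := by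
    refine base_of_span (fun u hu h => ?_) (hc _ _ _)
    simp only [forall_mem_insert] at h
    obtain ⟨h13, h14, h24, hk⟩ := h
    obtain ⟨t14, t24, -, -, t13, -⟩ := hform u hu (hv u hu hk)
    have q1 : p1 u = 0 := by simpa [n14, h14] using t14
    have q2 : p2 u = 0 := by simpa [n24, h24] using t24
    have q3 : p3 u = 0 := by simpa [n13, h13, q1] using t13
    exact hinj u hu (hv u hu hk) q1 q2 q3
  have ne_of : ∀ (u : E → F) (a b : E), u a ≠ 0 → u b = 0 → a ≠ b := fun u a b h1 h2 hh =>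
    h1 (hh ▸ h2)
  have nm_of : ∀ (u : E → F) (a : E), u a ≠ 0 → (∀ k ∈ K', u k = 0) → a ∉ K' :=
    fun u a h1 h2 hh => h1 (h2 a hh)
  have X12 : u1 e12 ≠ 0 := by rw [x12]; exact n12
  have X13 : u1 e13 ≠ 0 := by rw [x13]; exact n13
  have X14 : u1 e14 ≠ 0 := by rw [x14]; exact n14
  have Y12 : u2 e12 ≠ 0 := by rw [y12]; exact neg_ne_zero.2 n12
  have Y24 : u2 e24 ≠ 0 := by rw [y24]; exact n24
  have Z13 : u3 e13 ≠ 0 := by rw [z13]; exact neg_ne_zero.2 n13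
  have Z34 : u3 e34 ≠ 0 := by rw [z34]; exact n34
  have W14 : u4 e14 ≠ 0 := by rw [w14]; exact n14
  have W24 : u4 e24 ≠ 0 := by rw [w24]; exact n24
  have W34 : u4 e34 ≠ 0 := by rw [w34]; exact n34
  refine hK _ _ e12 e34 e13 e24 B1 B2 ?_ (by simp) ?_ (by simp) ?_ (by simp) ?_ (by simp) ?_
    (ne_of u1 _ _ X12 x34) (ne_of u1 _ _ X13 x24) ?_ ?_ ?_ ?_
  · refine le_trans (card_le_card (t := {e12, e23, e34}) fun y hy => ?_) card_le_three
    simp only [mem_sdiff, mem_insert, not_or, mem_singleton] at hy ⊢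
    tauto
  · simp only [mem_insert, not_or]
    exact ⟨ne_of u2 _ _ Y12 y13, ne_of u2 _ _ Y12 y14, ne_of u1 _ _ X12 x24, nm_of u1 _ X12 k1'⟩
  · simp only [mem_insert, not_or]
    exact ⟨ne_of u4 _ _ W34 w13, ne_of u3 _ _ Z34 z14, ne_of u3 _ _ Z34 z24, nm_of u3 _ Z34 k3'⟩
  · simp only [mem_insert, not_or]
    exact ⟨ne_of u3 _ _ Z13 z12, ne_of u1 _ _ X13 x23, ne_of u1 _ _ X13 x34, nm_of u1 _ X13 k1'⟩
  · simp only [mem_insert, not_or]
    exact ⟨ne_of u4 _ _ W24 w12, ne_of u4 _ _ W24 w23, ne_of u2 _ _ Y24 y34, nm_of u2 _ Y24 k2'⟩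
  · refine not_base m4 W14 fun e he => ?_
    simp only [mem_insert, mem_erase] at he
    rcases he with rfl | ⟨h, rfl | rfl | rfl | he⟩
    exacts [w13, w12, w23, absurd rfl h, k4' e he]
  · refine not_base m1 X14 fun e he => ?_
    simp only [mem_insert, mem_erase] at he
    rcases he with rfl | ⟨h, rfl | rfl | rfl | he⟩
    exacts [x24, absurd rfl h, x23, x34, k1' e he]
  · refine not_base m3 Z34 fun e he => ?_
    simp only [mem_insert, mem_erase] at he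
    rcases he with rfl | ⟨h, rfl | rfl | rfl | he⟩
    exacts [z12, absurd rfl h, z14, z24, k3' e he]
  · refine not_base m2 Y24 fun e he => ?_
    simp only [mem_insert, mem_erase] at he
    rcases he with rfl | ⟨h, rfl | rfl | rfl | he⟩
    exacts [y34, y13, y14, absurd rfl h, k2' e he]

theorem k4_type1 (hK : O.NoK4) (K : Finset E) (y0 z0 k y1 z1 z2 : E) (a a' : F) (ha : a ≠ 0)
    (ha' : a' ≠ 0)
    (hform : ∀ u ∈ O.U, (∀ k ∈ K, u k = 0) → u y1 = u y0 + a * u k ∧ u z1 = u z0 + a' * u k ∧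
      u z2 = u z0 - a' / a * u y0)
    (hinj : ∀ u ∈ O.U, (∀ k ∈ K, u k = 0) → u y0 = 0 → u z0 = 0 → u k = 0 → u = 0)
    (hsurj : ∀ s t z, ∃ u ∈ O.U, (∀ k ∈ K, u k = 0) ∧ u y0 = s ∧ u z0 = t ∧ u k = z) :
    False := by
  refine k4_of_forms hK K k y0 z0 y1 z1 z2 (-1 / a') (a / a') 1 (a / a') 1 1 (by simpa)
    (div_ne_zero ha ha') one_ne_zero (div_ne_zero ha ha') one_ne_zero one_ne_zero
    (fun u => u z0) (fun u => u z1) (fun u => u z2) (fun u hu h => ?_) (fun u hu h h1 h2 h3 => ?_)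
    fun p q r => ?_
  · obtain ⟨h1, h2, h3⟩ := hform u hu h
    refine ⟨by simp, by simp, by simp, ?_, ?_, ?_⟩
    · simp only [h2]; field_simp; ring
    · simp only [h3]; field_simp; ring
    · simp only [h1, h2, h3]; field_simp; ring
  · obtain ⟨-, g2, g3⟩ := hform u hu h
    refine hinj u hu h ?_ h1 ?_
    · simpa [h1, h3, ha, ha'] using g3
    · simpa [h1, h2, ha'] using g2
  · obtain ⟨u, hu, h, h1, h2, h3⟩ := hsurj (a / a' * (p - r)) p ((q - p) / a')
    obtain ⟨-, g2, g3⟩ := hform u hu h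
    refine ⟨u, hu, h, h2, ?_, ?_⟩
    · simp only [g2, h2, h3]; field_simp; ring
    · simp only [g3, h2, h1]; field_simp; ring

theorem k4_type2 (hK : O.NoK4) (K : Finset E) (y0 k a0 a1 b1 b0 : E) (g b : F) (hg : g ≠ 0)
    (hb : b ≠ 0)
    (hform : ∀ u ∈ O.U, (∀ k ∈ K, u k = 0) → u a1 = u a0 + g * u y0 ∧
      u b1 = u a0 + g * u y0 + b * u k ∧ u b0 = u a0 + b * u k)
    (hinj : ∀ u ∈ O.U, (∀ k ∈ K, u k = 0) → u y0 = 0 → u a0 = 0 → u k = 0 → u = 0)
    (hsurj : ∀ s t z, ∃ u ∈ O.U, (∀ k ∈ K, u k = 0) ∧ u y0 = s ∧ u a0 = t ∧ u k = z) :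
    False := by
  refine k4_of_forms hK K y0 a0 b0 a1 b1 k (-1 / g) 1 1 1 1 (1 / b) (by simpa)
    one_ne_zero one_ne_zero one_ne_zero one_ne_zero (by simpa)
    (fun u => u b0) (fun u => u b1) (fun u => b * u k) (fun u hu h => ?_)
    (fun u hu h h1 h2 h3 => ?_) fun p q r => ?_
  · obtain ⟨h1, h2, h3⟩ := hform u hu h
    refine ⟨by simp, by simp, by field_simp, ?_, ?_, ?_⟩
    · simp only [h2, h3]; field_simp; ring
    · simp only [h3]; ring
    · simp only [h1, h2]; ring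
  · obtain ⟨-, g2, g3⟩ := hform u hu h
    have t0 : u a0 = 0 := by simpa [h1, h3] using g3.symm
    refine hinj u hu h ?_ t0 ?_
    · simpa [h2, h3, t0, hg] using g2
    · simpa [hb] using h3
  · obtain ⟨u, hu, h, h1, h2, h3⟩ := hsurj ((q - p) / g) (p - r) (r / b)
    obtain ⟨-, g2, g3⟩ := hform u hu h
    refine ⟨u, hu, h, ?_, ?_, ?_⟩
    · simp only [g3, h2, h3]; field_simp; ring
    · simp only [g2, h2, h1, h3]; field_simp; ring
    · simp only [h3]; field_simp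

/-- a homogeneous configuration of two stars joined by links -/
structure Cfg (O : OP F E) (T : ℕ) (K : Finset E) (κ x y : ℕ → E) (a b a' b' : F) : Prop where
  ev : ∀ u ∈ O.U, (∀ k ∈ K, u k = 0) → ∀ l, 1 ≤ l → l < T →
    u (x l) = u (x 0) + a * u (κ l) + b * ∑ i ∈ Ico 1 l, u (κ i)
  ev' : ∀ u ∈ O.U, (∀ k ∈ K, u k = 0) → ∀ l, 1 ≤ l → l < T →
    u (y l) = u (y 0) + a' * u (κ l) + b' * ∑ i ∈ Ico 1 l, u (κ i)
  inj : ∀ u ∈ O.U, (∀ k ∈ K, u k = 0) → u (x 0) = 0 → u (y 0) = 0 →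
    (∀ i, 1 ≤ i → i < T → u (κ i) = 0) → u = 0
  surj : ∀ (s t : F) (c : ℕ → F), ∃ u ∈ O.U, (∀ k ∈ K, u k = 0) ∧ u (x 0) = s ∧ u (y 0) = t ∧
    ∀ i, 1 ≤ i → i < T → u (κ i) = c i

variable {T : ℕ} {K : Finset E} {κ x y : ℕ → E} {a b a' b' : F}

omit [DecidableEq E] in
theorem Cfg.symm (h : Cfg O T K κ x y a b a' b') : Cfg O T K κ y x a' b' a b :=
  ⟨h.ev', h.ev, fun u hu hk h1 h2 h3 => h.inj u hu hk h2 h1 h3, fun s t c => by
    obtain ⟨u, hu, h1, h2, h3, h4⟩ := h.surj t s c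
    exact ⟨u, hu, h1, h3, h2, h4⟩⟩

omit [Fintype E] in
theorem vanish_iff (K : Finset E) (κ x : ℕ → E) (T : ℕ) (I J : Finset ℕ) (u : E → F) :
    (∀ k ∈ K ∪ (Ico 1 T \ I).image κ ∪ J.image x, u k = 0) ↔ (∀ k ∈ K, u k = 0) ∧
      (∀ i, 1 ≤ i → i < T → i ∉ I → u (κ i) = 0) ∧ ∀ j ∈ J, u (x j) = 0 := by
  simp only [forall_mem_union, forall_mem_image, mem_sdiff, mem_Ico, and_imp, and_assoc]

theorem Cfg.caseII (hK : O.NoK4) (h : Cfg O T K κ x y a 0 a' 0) (hT : 3 ≤ T) (ha : a ≠ 0)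
    (ha' : a' ≠ 0) : False := by
  refine k4_type1 hK (K ∪ (Ico 1 T \ {1, 2}).image κ ∪ ({2} : Finset ℕ).image x) (x 0) (y 0)
    (κ 1) (x 1) (y 1) (y 2) a a' ha ha' (fun u hu hv => ?_) (fun u hu hv h1 h2 h3 => ?_)
    fun s t z => ?_
  · obtain ⟨v1, -, v3⟩ := (vanish_iff ..).1 hv
    have e1 := h.ev u hu v1 1 le_rfl (by omega)
    have e2 := h.ev u hu v1 2 (by omega) (by omega)
    have e3 := h.ev' u hu v1 1 le_rfl (by omega)
    have e4 := h.ev' u hu v1 2 (by omega) (by omega)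
    rw [v3 2 (by simp)] at e2
    simp only [zero_mul, add_zero] at e1 e2 e3 e4
    refine ⟨e1, e3, ?_⟩
    rw [e4]
    field_simp
    linear_combination (-a') * e2
  · obtain ⟨v1, v2, v3⟩ := (vanish_iff ..).1 hv
    have e2 := h.ev u hu v1 2 (by omega) (by omega)
    rw [v3 2 (by simp), h1] at e2
    refine h.inj u hu v1 h1 h2 fun i i1 i2 => ?_
    by_cases q1 : i = 1
    · rw [q1, h3]
    by_cases q2 : i = 2
    · simpa [q2, ha] using e2
    exact v2 i i1 i2 (by simp [q1, q2])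
  · obtain ⟨u, hu, v1, h1, h2, h3⟩ := h.surj s t fun i =>
      if i = 1 then z else if i = 2 then -s / a else 0
    refine ⟨u, hu, (vanish_iff ..).2 ⟨v1, fun i i1 i2 hi => ?_, fun j hj => ?_⟩, h1, h2,
      by simpa using h3 1 le_rfl (by omega)⟩
    · simp only [mem_insert, mem_singleton, not_or] at hi
      simp [h3 i i1 i2, hi.1, hi.2]
    · rw [mem_singleton.1 hj, h.ev u hu v1 2 (by omega) (by omega), h3 2 (by omega) (by omega), h1]
      simp only [zero_mul, add_zero, OfNat.ofNat_ne_one, if_false, if_true]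
      field_simp
      ring

theorem Cfg.caseHH (hK : O.NoK4) (h : Cfg O T K κ x y a b a' b') (hT : 5 ≤ T) (hb : b ≠ 0)
    (hb' : b' ≠ 0) : False := by
  have s2 : ∀ f : ℕ → F, ∑ i ∈ Ico 1 2, f i = f 1 := fun f => by simp
  have s4 : ∀ f : ℕ → F, ∑ i ∈ Ico 1 4, f i = f 1 + f 2 + f 3 := fun f => by
    simp [sum_Ico_succ_top]
  refine k4_type1 hK (K ∪ (Ico 1 T \ {1, 3}).image κ ∪ ({4} : Finset ℕ).image x) (x 0) (y 0)
    (κ 1) (x 2) (y 2) (y 4) b b' hb hb' (fun u hu hv => ?_) (fun u hu hv h1 h2 h3 => ?_)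
    fun s t z => ?_
  · obtain ⟨v1, v2, v3⟩ := (vanish_iff ..).1 hv
    have e1 := h.ev u hu v1 2 (by omega) (by omega)
    have e2 := h.ev u hu v1 4 (by omega) (by omega)
    have e3 := h.ev' u hu v1 2 (by omega) (by omega)
    have e4 := h.ev' u hu v1 4 (by omega) (by omega)
    have z2 := v2 2 (by omega) (by omega) (by simp)
    have z4 := v2 4 (by omega) (by omega) (by simp)
    rw [v3 4 (by simp)] at e2
    simp only [s2, s4, z2, z4, mul_zero, add_zero] at e1 e2 e3 e4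
    refine ⟨e1, e3, ?_⟩
    rw [e4]
    field_simp
    linear_combination (-b') * e2
  · obtain ⟨v1, v2, v3⟩ := (vanish_iff ..).1 hv
    have e2 := h.ev u hu v1 4 (by omega) (by omega)
    have z2 := v2 2 (by omega) (by omega) (by simp)
    have z4 := v2 4 (by omega) (by omega) (by simp)
    rw [v3 4 (by simp), h1, s4, z2, z4, h3] at e2
    refine h.inj u hu v1 h1 h2 fun i i1 i2 => ?_
    by_cases q1 : i = 1
    · rw [q1, h3]
    by_cases q2 : i = 3
    · simpa [q2, hb] using e2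
    exact v2 i i1 i2 (by simp [q1, q2])
  · obtain ⟨u, hu, v1, h1, h2, h3⟩ := h.surj s t fun i =>
      if i = 1 then z else if i = 3 then -s / b - z else 0
    refine ⟨u, hu, (vanish_iff ..).2 ⟨v1, fun i i1 i2 hi => ?_, fun j hj => ?_⟩, h1, h2,
      by simpa using h3 1 le_rfl (by omega)⟩
    · simp only [mem_insert, mem_singleton, not_or] at hi
      simp [h3 i i1 i2, hi.1, hi.2]
    · rw [mem_singleton.1 hj, h.ev u hu v1 4 (by omega) (by omega), s4,
        h3 1 (by omega) (by omega), h3 2 (by omega) (by omega), h3 3 (by omega) (by omega),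
        h3 4 (by omega) (by omega), h1]
      simp only [Nat.reduceEqDiff, if_false, if_true]
      field_simp
      ring

theorem Cfg.caseIH [Fintype F] (hK : O.NoK4) (h : Cfg O T K κ x y a 0 a' b')
    (hT : Fintype.card F + 5 ≤ T) (ha : a ≠ 0) (hb' : b' ≠ 0) : False := by
  obtain ⟨n, hn⟩ : ∃ n, Fintype.card F = n + 1 := ⟨_, (Nat.succ_pred_eq_of_pos Fintype.card_pos).symm⟩
  have hn' : (n : F) = -1 := by
    have := FiniteField.cast_card_eq_zero F
    rw [hn] at this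
    push_cast at this
    linear_combination this
  have s2 : ∀ f : ℕ → F, ∑ i ∈ Ico 1 2, f i = f 1 := fun f => by simp
  have s4 : ∀ f : ℕ → F, ∑ i ∈ Ico 1 4, f i = f 1 + f 2 + f 3 := fun f => by
    simp [sum_Ico_succ_top]
  have s5 : ∀ (f : ℕ → F) (v : F), (∀ i ∈ Ico 5 (n + 5), f i = v) →
      ∑ i ∈ Ico 1 (n + 5), f i = f 1 + f 2 + f 3 + f 4 - v := fun f v hf => by
    rw [← sum_Ico_consecutive f (by omega : 1 ≤ 5) (by omega), sum_congr rfl hf]
    simp [sum_Ico_succ_top, hn', sub_eq_add_neg]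
  have key : ∀ u ∈ O.U, (∀ k ∈ K, u k = 0) → (∀ j ∈ insert 1 (Ico 5 (n + 5)), u (x j) = 0) →
      ∀ j ∈ insert 1 (Ico 5 (n + 5)), u (κ j) = -u (x 0) / a := fun u hu v1 v3 j hj => by
    have e := h.ev u hu v1 j (by simp at hj; omega) (by simp at hj; omega)
    rw [v3 j hj] at e
    field_simp
    linear_combination -e
  refine k4_type2 hK (K ∪ (Ico 1 T \ insert 3 (insert 1 (Ico 5 (n + 5)))).image κ ∪
    (insert 1 (Ico 5 (n + 5))).image x) (x 0) (κ 3) (y 0) (y 2) (y 4) (y (n + 5)) (-b' / a) b'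
    (div_ne_zero (neg_ne_zero.2 hb') ha) hb' (fun u hu hv => ?_) (fun u hu hv h1 h2 h3 => ?_)
    fun s t z => ?_
  · obtain ⟨v1, v2, v3⟩ := (vanish_iff ..).1 hv
    have k := key u hu v1 v3
    have e1 := h.ev' u hu v1 2 (by omega) (by omega)
    have e2 := h.ev' u hu v1 4 (by omega) (by omega)
    have e3 := h.ev' u hu v1 (n + 5) (by omega) (by omega)
    have z2 := v2 2 (by omega) (by omega) (by simp)
    have z4 := v2 4 (by omega) (by omega) (by simp)
    have z5 := v2 (n + 5) (by omega) (by omega) (by simp)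
    have z1 := k 1 (by simp)
    rw [s5 _ _ fun i hi => k i (mem_insert_of_mem hi)] at e3
    simp only [s2, s4, z2, z4, z5, z1, mul_zero, add_zero] at e1 e2 e3
    refine ⟨?_, ?_, ?_⟩
    · rw [e1]; ring
    · rw [e2]; ring
    · rw [e3]; ring
  · obtain ⟨v1, v2, v3⟩ := (vanish_iff ..).1 hv
    have k := key u hu v1 v3
    refine h.inj u hu v1 h1 h2 fun i i1 i2 => ?_
    by_cases q1 : i = 3
    · rw [q1, h3]
    by_cases q2 : i ∈ insert 1 (Ico 5 (n + 5))
    · simp [k i q2, h1]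
    exact v2 i i1 i2 fun hh => (mem_insert.1 hh).elim q1 q2
  · obtain ⟨u, hu, v1, h1, h2, h3⟩ := h.surj s t fun i =>
      if i = 3 then z else if i ∈ insert 1 (Ico 5 (n + 5)) then -s / a else 0
    refine ⟨u, hu, (vanish_iff ..).2 ⟨v1, fun i i1 i2 hi => ?_, fun j hj => ?_⟩, h1, h2,
      by simpa using h3 3 (by omega) (by omega)⟩
    · rw [mem_insert, not_or] at hi
      rw [h3 i i1 i2, if_neg hi.1, if_neg hi.2]
    · have j1 : 1 ≤ j ∧ j < T ∧ j ≠ 3 := by simp at hj; omega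
      rw [h.ev u hu v1 j j1.1 j1.2.1, h3 j j1.1 j1.2.1, if_neg j1.2.2, if_pos hj, h1]
      field_simp
      ring

theorem Cfg.false [Fintype F] (hK : O.NoK4) (h : Cfg O T K κ x y a b a' b')
    (hT : Fintype.card F + 5 ≤ T) (h1 : a ≠ 0 ∨ b ≠ 0) (h2 : a' ≠ 0 ∨ b' ≠ 0) : False := by
  by_cases hb : b = 0
  · subst hb
    have ha : a ≠ 0 := h1.resolve_right (by simp)
    by_cases hb' : b' = 0
    · subst hb'
      exact h.caseII hK (by omega) ha (h2.resolve_right (by simp))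
    · exact h.caseIH hK hT ha hb'
  · by_cases hb' : b' = 0
    · subst hb'
      exact h.symm.caseIH hK hT (h2.resolve_right (by simp)) hb
    · exact h.caseHH hK (by omega) hb hb'

end OP

end Pool.Agent.Lib.MP_12b00b_co
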