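import Pool.Agent.Lib.MP_12b00b_co.Geo

/-! Represented matroids over a finite field without an `M(K4)` minor have bounded
branch-width. -/

namespace Pool.Agent.Lib.MP_12b00b_co

open Finset Module

variable {F : Type} [Field F] [DecidableEq F] {E : Type} [Fintype E] [DecidableEq E]

namespace OP

variable {O : OP F E} {rk : Finset E → ℕ} {c k : ℕ} {B Y : Finset E}

omit [DecidableEq F] in
theorem cover (hB : O.Base B) {X P : Finset E} (hP : P ⊆ B) (hPX : P ⊆ X) :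
    ∃ P0 ⊆ P, #P0 ≤ O.lam X ∧ ∀ e ∉ X, e ∉ B → (∀ ρ ∈ P0, O.fu B ρ e = 0) →
      ∀ ρ ∈ P, O.fu B ρ e = 0 := by
  have hI : X \ B ⊆ Bᶜ := fun e he => mem_compl.2 (mem_sdiff.1 he).2
  obtain ⟨J, j1, j2, j3, j4⟩ := O.swap.rk_r.exists_basis O.swap.r_empty
    (subset_union_left : X \ B ⊆ X \ B ∪ P) (hB.swap.r_sub hI)
  refine ⟨J ∩ P, inter_subset_right, ?_, fun e e1 e2 h ρ hρ => ?_⟩
  · have a1 := O.swap.lam_r X
    have a2 := O.swap.rk_r.mono _ _ (union_subset sdiff_subset hPX : X \ B ∪ P ⊆ X)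
    have a3 := O.swap.rk_r.mono _ _ (inter_subset_right : Bᶜ ∩ Xᶜ ⊆ Xᶜ)
    have a4 := hB.swap.r_sub (inter_subset_left : Bᶜ ∩ Xᶜ ⊆ Bᶜ)
    have a5 := hB.swap.card
    have a6 := card_inter_add_card_sdiff Bᶜ Xᶜ
    have a7 : Bᶜ \ Xᶜ = X \ B := by
      ext y
      simp [and_comm]
    have a8 := card_union_of_disjoint (s := X \ B) (t := J ∩ P)
      (disjoint_left.2 fun y h1 h2 => (mem_sdiff.1 h1).2 (hP (mem_inter.1 h2).2))
    have a9 := card_le_card (union_subset j1 inter_subset_left : X \ B ∪ J ∩ P ⊆ J)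
    rw [lam_swap] at a1
    rw [a7] at a6
    omega
  · have := vanish_of_r j2 j4.ge (fu_mem Bᶜ e) (fun y hy => by
      rcases mem_union.1 (j2 hy) with h1 | h1
      · exact hB.swap.fu_ne (hI h1) fun hh => e1 (hh ▸ (mem_sdiff.1 h1).1)
      · exact by_contra fun hn => (hB.fu_ne_zero (hP h1) e2).1 hn (h y (mem_inter.2 ⟨hy, h1⟩)))
      ρ (mem_union_right _ hρ)
    exact by_contra fun hn => (hB.fu_ne_zero (hP hρ) e2).2 hn this

/-- flats of the tangle matroid -/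
def Flat (O : OP F E) (rk : Finset E → ℕ) (X : Finset E) : Prop :=
  O.lam X = rk X ∧ ∀ e ∉ X, rk X < rk (insert e X)

omit [DecidableEq F] in
theorem exists_flat (hT : Tangle O.lam rk k) {X : Finset E} (hX : rk X < k) :
    ∃ Y, X ⊆ Y ∧ O.Flat rk Y ∧ rk Y = rk X := by
  obtain ⟨Y, y1, y2, y3, y4⟩ := hT.flat X hX
  exact ⟨Y, y1, ⟨y2.trans y3.symm, y4⟩, y3⟩

omit [DecidableEq F] in
theorem flat_swap {X : Finset E} : O.swap.Flat rk X ↔ O.Flat rk X := by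
  rw [Flat, Flat, lam_swap]

theorem one_step (hB : O.Base B) (hT : Tangle O.lam rk k) (hN : O.NoHub rk c B Y) {X : Finset E}
    (hX : O.Flat rk X) (hk : rk X * (2 * c + 1) < k) :
    ∃ X', X ⊆ X' ∧ O.Flat rk X' ∧ rk X' ≤ rk X * (2 * c + 1) ∧
      ∀ ρ ∈ B, ρ ∈ X → ρ ∉ Y → ∀ e ∉ Y, O.fu B ρ e ≠ 0 → e ∈ X' := by
  obtain ⟨P0, p1, p2, p3⟩ := cover hB (X := X) (P := (B ∩ X) \ Y)
    (sdiff_subset.trans inter_subset_left) (sdiff_subset.trans inter_subset_right)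
  have a1 := hT.isRK.biUnion_le hT.empty P0 (fun ρ => supp (O.fu B ρ) \ (Y ∪ B)) (2 * c)
    fun ρ hρ => hN ρ (mem_inter.1 (mem_sdiff.1 (p1 hρ)).1).1 (mem_sdiff.1 (p1 hρ)).2
  have a2 := hT.isRK.union_le X (P0.biUnion fun ρ => supp (O.fu B ρ) \ (Y ∪ B))
  have a3 := Nat.mul_le_mul_right (2 * c) (p2.trans hX.1.le)
  have a4 : rk (X ∪ P0.biUnion fun ρ => supp (O.fu B ρ) \ (Y ∪ B)) ≤ rk X * (2 * c + 1) := by
    rw [mul_add_one]
    omega
  obtain ⟨X', x1, x2, x3⟩ := exists_flat hT (a4.trans_lt hk)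
  refine ⟨X', subset_union_left.trans x1, x2, x3 ▸ a4, fun ρ r1 r2 r3 e e1 e2 => x1 ?_⟩
  by_cases heX : e ∈ X
  · exact mem_union_left _ heX
  have heB : e ∉ B := fun hh => e2 (hB.fu_ne hh fun h => heX (h ▸ r2))
  by_contra hn
  refine e2 (p3 e heX heB (fun σ hσ => by_contra fun h => hn ?_) ρ (by simp [r1, r2, r3]))
  exact mem_union_right _ (mem_biUnion.2 ⟨σ, hσ, by simp [h, e1, heB]⟩)

theorem two_step (hB : O.Base B) (hT : Tangle O.lam rk k) (hN : O.NoHub rk c B Y)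
    (hN' : O.swap.NoHub rk c Bᶜ Y) (X : Finset E) (hX : O.Flat rk X)
    (hk : rk X * (2 * c + 1) ^ 2 < k) :
    ∃ X', X ⊆ X' ∧ O.Flat rk X' ∧ rk X' ≤ rk X * (2 * c + 1) ^ 2 ∧
      ∀ ρ ∈ B, ρ ∈ X → ρ ∉ Y → ∀ d ∉ B, d ∉ Y → O.fu B ρ d ≠ 0 →
        d ∈ X' ∧ ∀ e ∉ Y, O.swap.fu Bᶜ d e ≠ 0 → e ∈ X' := by
  rw [sq, ← mul_assoc] at hk ⊢
  obtain ⟨X1, a1, a2, a3, a4⟩ := one_step hB hT hN hX
    (lt_of_le_of_lt (Nat.le_mul_of_pos_right _ (by omega)) hk)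
  have a5 := Nat.mul_le_mul_right (2 * c + 1) a3
  obtain ⟨X2, b1, b2, b3, b4⟩ := one_step hB.swap (by rwa [lam_swap]) hN' (flat_swap.2 a2)
    (a5.trans_lt hk)
  exact ⟨X2, a1.trans b1, flat_swap.1 b2, b3.trans a5, fun ρ r1 r2 r3 d d1 d2 d3 =>
    ⟨b1 (a4 ρ r1 r2 r3 d d2 d3), b4 d (mem_compl.2 d1) (a4 ρ r1 r2 r3 d d2 d3) d2⟩⟩

theorem nohub (hc : 1 ≤ c) (hB : O.Base B) (hT : Tangle O.lam rk k) (hN : O.NoHub rk c B Y)
    (hN' : O.swap.NoHub rk c Bᶜ Y) {l : ℕ} (h1 : O.lam Y ≤ l) (h2 : rk Y ≤ l)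
    (hk : 4 * l + 1 < k) (hk' : (l + 1) * ((2 * c + 1) ^ 2) ^ c < k) :
    ∃ B' Y', O.Base B' ∧ (∀ e ∈ Y, e ∈ B' ↔ e ∈ B) ∧ Y ⊆ Y' ∧
      rk Y' ≤ (l + 1) * ((2 * c + 1) ^ 2) ^ c ∧ O.Star rk c B' Y Y' := by
  classical
  obtain ⟨r, r1, r2, r3⟩ := exists_root hB hT h1 h2 hk
  have a0 := hT.isRK.unit Y r
  obtain ⟨X0, x1, x2, x3⟩ := exists_flat hT (X := insert r Y) (by omega)
  choose! st s1 s2 s3 s4 using two_step hB hT hN hN'
  set q := (2 * c + 1) ^ 2 with hq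
  have q1 : 1 ≤ q := Nat.one_le_pow _ _ (by omega)
  let Ys : ℕ → Finset E := fun i => st^[i] X0
  have Ys1 : ∀ i, Ys (i + 1) = st (Ys i) := fun i => Function.iterate_succ_apply' _ _ _
  have lt_k : ∀ i < c, ∀ n ≤ (l + 1) * q ^ i, n * q < k := fun i hi n hn => by
    refine lt_of_le_of_lt ?_ hk'
    calc n * q ≤ (l + 1) * q ^ i * q := Nat.mul_le_mul_right _ hn
      _ = (l + 1) * q ^ (i + 1) := by ring
      _ ≤ _ := Nat.mul_le_mul_left _ (Nat.pow_le_pow_right q1 hi)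
  have inv : ∀ i ≤ c, O.Flat rk (Ys i) ∧ rk (Ys i) ≤ (l + 1) * q ^ i := fun i hi => by
    induction i with
    | zero => exact ⟨x2, by simp only [Ys, Function.iterate_zero, id, pow_zero]; omega⟩
    | succ i ih =>
      obtain ⟨i1, i2⟩ := ih (by omega)
      have i3 := lt_k i hi _ i2
      rw [Ys1]
      refine ⟨s2 _ i1 i3, (s3 _ i1 i3).trans ?_⟩
      rw [pow_succ, ← mul_assoc]
      exact Nat.mul_le_mul_right _ i2
  have hsub : ∀ i j, i ≤ j → j ≤ c → Ys i ⊆ Ys j := fun i j hij hj => by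
    induction j, hij using Nat.le_induction with
    | base => exact Subset.refl _
    | succ j hij ih =>
      rw [Ys1]
      exact (ih (by omega)).trans (s1 _ (inv j (by omega)).1 (lt_k j hj _ (inv j (by omega)).2))
  have hst : ∀ i < c, ∀ ρ ∈ B, ρ ∈ Ys i → ρ ∉ Y → ∀ d ∉ B, d ∉ Y → O.fu B ρ d ≠ 0 →
      d ∈ Ys (i + 1) ∧ ∀ e ∉ Y, O.swap.fu Bᶜ d e ≠ 0 → e ∈ Ys (i + 1) := fun i hi => by
    rw [Ys1]
    exact s4 _ (inv i hi.le).1 (lt_k i hi _ (inv i hi.le).2)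
  let adj : E → E → Prop := fun a b => b ∈ B ∧ b ∉ Y ∧ ∃ d ∉ B, d ∉ Y ∧ O.fu B a d ≠ 0 ∧
    O.fu B b d ≠ 0
  have rows : ∀ x, Relation.ReflTransGen adj r x → x ∈ B ∧ x ∉ Y := fun x hx => by
    rcases hx.cases_tail with rfl | ⟨_, -, h⟩
    exacts [⟨r1, r2⟩, ⟨h.1, h.2.1⟩]
  obtain ⟨b, rfl⟩ : ∃ b, c = b + 1 := ⟨c - 1, by omega⟩
  obtain ⟨n, ρ, g1, g2, g3, g4⟩ := geodesic adj r (· ∈ Ys b) (by
    by_contra hn
    simp only [not_exists, not_and, not_not] at hn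
    have := r3 (univ.filter fun e => Relation.ReflTransGen adj r e ∨ (e ∉ B ∧ e ∉ Y ∧
      ∃ σ, Relation.ReflTransGen adj r σ ∧ O.fu B σ e ≠ 0))
      ⟨disjoint_left.2 fun e he => (mem_filter.1 he).2.elim (fun h => (rows e h).2) fun h => h.2.1,
        fun σ t1 t2 d d1 d2 d3 => by
          simp only [mem_filter, mem_univ, true_and]
          refine ⟨fun h => Or.inr ⟨d1, d2, σ, h.resolve_right fun hh => hh.1 t1, d3⟩,
            fun h => Or.inl ?_⟩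
          obtain ⟨-, -, τ, u1, u2⟩ := h.resolve_left fun hh => d1 (rows d hh).1
          exact u1.tail ⟨t1, t2, d, d1, d2, u2, d3⟩⟩
      (mem_filter.2 ⟨mem_univ _, Or.inl .refl⟩)
    refine absurd (this.trans (hT.isRK.mono _ (Ys (b + 1)) fun e he => ?_))
      (not_le.2 ((inv _ le_rfl).2.trans_lt hk'))
    rcases (mem_filter.1 he).2 with h | ⟨h1, h2, σ, h3, h4⟩
    · exact hsub b _ (by omega) le_rfl (hn e h)
    · exact (hst b (by omega) σ (rows σ h3).1 (hn σ h3) (rows σ h3).2 e h1 h2 h4).1)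
  have hρ : ∀ j ≤ n, ρ j ∈ B ∧ ρ j ∉ Y := fun j hj => by
    rcases j with _ | j
    · exact g1 ▸ ⟨r1, r2⟩
    · exact ⟨(g3 j hj).2.1, (g3 j hj).2.2.1⟩
  have : Nonempty E := ⟨r⟩
  choose! d d1 d2 d3 d4 using fun j hj => (g3 j hj).2.2.2
  have hY : Y ⊆ Ys 0 := (subset_insert _ _).trans x1
  have h00 : ρ 0 ∈ Ys 0 := g1 ▸ x1 (mem_insert_self _ _)
  have grow : ∀ i ≤ b + 1, i ≤ rk ((Icc 1 n).image ρ ∩ Ys i) := fun i hi => by
    induction i with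
    | zero => omega
    | succ i ih =>
      obtain ⟨j, j1, j2, j3⟩ : ∃ j < n, ρ j ∈ Ys i ∧ ρ (j + 1) ∉ Ys i := by
        by_contra hn
        simp only [not_exists, not_and, not_not] at hn
        have : ∀ j ≤ n, ρ j ∈ Ys i := fun j hj => by
          induction j with
          | zero => exact hsub 0 i (by omega) (by omega) h00
          | succ j ih => exact hn j hj (ih (by omega))
        exact g2 (hsub i b (by omega) (by omega) (this n le_rfl))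
      have a1 := hT.isRK.gain inter_subset_right ((inv i (by omega)).1.2 _ j3)
        (X := (Icc 1 n).image ρ ∩ Ys i)
      have a2 := hT.isRK.mono _ ((Icc 1 n).image ρ ∩ Ys (i + 1)) (insert_subset (mem_inter.2
        ⟨mem_image_of_mem ρ (mem_Icc.2 ⟨by omega, (j1 : j + 1 ≤ n)⟩), (hst i hi _ (hρ j j1.le).1 j2
          (hρ j j1.le).2 _ (d1 j j1) (d2 j j1) (d3 j j1)).2 _ (hρ _ j1).2
          ((hB.fu_ne_zero (hρ _ j1).1 (d1 j j1)).2 (d4 j j1))⟩)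
        (inter_subset_inter_left (hsub i (i + 1) (by omega) hi)))
      exact Nat.succ_le_of_lt (((ih (by omega)).trans_lt a1).trans_le a2)
  obtain ⟨B', b1, b2, b3⟩ := path_star (rk := rk) (c := b + 1) (Y := Y) (Y' := Ys (b + 1)) hB n ρ d
    (fun j => O.swap.fu Bᶜ (d j)) hρ (fun i j h1 h2 => (g4 i j h1 h2).1) (fun j hj =>
      ⟨d1 j hj, d2 j hj, fu_mem (O := O.swap) _ _,
        fun e he hne => hB.swap.fu_ne (mem_compl.2 he) hne,
        (hB.fu_ne_zero (hρ j hj.le).1 (d1 j hj)).2 (d3 j hj),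
        (hB.fu_ne_zero (hρ _ hj).1 (d1 j hj)).2 (d4 j hj), fun i i1 i2 i3 => by
          by_contra hn
          rw [← ne_eq, hB.fu_ne_zero (hρ i i1).1 (d1 j hj)] at hn
          rcases lt_or_gt_of_ne i2 with h | h
          · have := (g4 i (j + 1) (by omega) hj).2
              ⟨(hρ _ hj).1, (hρ _ hj).2, d j, d1 j hj, d2 j hj, hn, d4 j hj⟩
            omega
          · exact i3 ((g4 j i h i1).2
              ⟨(hρ i i1).1, (hρ i i1).2, d j, d1 j hj, d2 j hj, d3 j hj, hn⟩),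
        fun e he => by_contra fun hn => he ((hst b (by omega) _ (hρ j hj.le).1 (g3 j hj).1
          (hρ j hj.le).2 _ (d1 j hj) (d2 j hj) (d3 j hj)).2 e
          (fun hh => he (hsub 0 _ (by omega) le_rfl (hY hh))) hn)⟩)
    (hsub 0 _ (by omega) le_rfl h00)
    ((grow _ le_rfl).trans (hT.isRK.mono _ _ inter_subset_left))
  exact ⟨B', _, b1, b2, hY.trans (hsub 0 _ (by omega) le_rfl), (inv _ le_rfl).2, b3⟩

theorem stage [Fintype F] (hc : 1 ≤ c) (l : ℕ) : ∃ l', ∀ (E : Type) [Fintype E] [DecidableEq E]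
    (O : OP F E) (rk : Finset E → ℕ) (k : ℕ) (B Y : Finset E), l' < k → O.Obs rk c →
    O.swap.Obs rk c → O.Base B → Tangle O.lam rk k → O.lam Y ≤ l → rk Y ≤ l →
    ∃ B' Y', O.Base B' ∧ (∀ e ∈ Y, e ∈ B' ↔ e ∈ B) ∧ Y ⊆ Y' ∧ O.lam Y' ≤ l' ∧ rk Y' ≤ l' ∧
      (O.Star rk c B' Y Y' ∨ O.swap.Star rk c B'ᶜ Y Y') := by
  refine ⟨4 * l + 1 + (l + 1) * ((2 * c + 1) ^ 2) ^ c +
    (l + 1 + (2 * c + 1) * (Fintype.card F * c + l + 1 + (2 * c + 1) * c)),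
    fun E _ _ O rk k B Y hk o1 o2 hB hT h1 h2 => ?_⟩
  suffices H : ∃ B' Y', O.Base B' ∧ (∀ e ∈ Y, e ∈ B' ↔ e ∈ B) ∧ Y ⊆ Y' ∧
      rk Y' ≤ 4 * l + 1 + (l + 1) * ((2 * c + 1) ^ 2) ^ c +
      (l + 1 + (2 * c + 1) * (Fintype.card F * c + l + 1 + (2 * c + 1) * c)) ∧
      (O.Star rk c B' Y Y' ∨ O.swap.Star rk c B'ᶜ Y Y') by
    obtain ⟨B', Y', a1, a2, a3, a4, a5⟩ := H
    obtain ⟨Z, z1, z2, z3⟩ := exists_flat hT (a4.trans_lt hk)
    exact ⟨B', Z, a1, a2, a3.trans z1, by rw [z2.1]; omega, by omega,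
      a5.imp (fun h => h.persist z1 fun _ _ => Iff.rfl) fun h => h.persist z1 fun _ _ => Iff.rfl⟩
  by_cases hN : O.NoHub rk c B Y
  · by_cases hN' : O.swap.NoHub rk c Bᶜ Y
    · obtain ⟨B', Y', a1, a2, a3, a4, a5⟩ := nohub hc hB hT hN hN' h1 h2 (by omega) (by omega)
      exact ⟨B', Y', a1, a2, a3, by omega, Or.inl a5⟩
    · obtain ⟨B', Y', a1, a2, a3, a4, a5⟩ := hub (O := O.swap) o1 hB.swap hT.isRK hT.empty h2 hN'
      exact ⟨B'ᶜ, Y', a1.swap, fun e he => by rw [mem_compl, a2 e he, mem_compl, not_not], a3,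
        by omega, Or.inr (by rwa [compl_compl])⟩
  · obtain ⟨B', Y', a1, a2, a3, a4, a5⟩ := hub o2 hB hT.isRK hT.empty h2 hN
    exact ⟨B', Y', a1, a2, a3, by omega, Or.inl a5⟩

omit [DecidableEq F] in
theorem exists_base (O : OP F E) : ∃ B, O.Base B := by
  obtain ⟨B, -, -, b1, b2⟩ :=
    O.rk_r.exists_basis O.r_empty (empty_subset univ) (by simpa using O.r_empty)
  have := O.r_add univ
  rw [compl_univ, nul_empty] at this
  exact ⟨B, base_iff.2 ⟨by omega, by omega⟩⟩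

/-- bounded branch-width -/
theorem bounded_width (F : Type) [Field F] [Fintype F] : ∃ K, ∀ (E : Type) [Fintype E]
    [DecidableEq E] (O : OP F E), O.NoK4 → Br O.lam K univ := by
  classical
  obtain ⟨c, hc, H⟩ := coline F
  obtain ⟨l1, s1⟩ := stage (F := F) hc 0
  obtain ⟨l2, s2⟩ := stage (F := F) hc l1
  obtain ⟨l3, s3⟩ := stage (F := F) hc l2
  refine ⟨3 * (l1 + l2 + l3 + c + 1), fun E _ _ O hK => ?_⟩
  refine (br_or_tangle ⟨O.lam_compl, O.lam_submod, O.lam_le_card⟩ (by omega)).resolve_right ?_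
  rintro ⟨rk, hT⟩
  have obs : ∀ O' : OP F E, O'.NoK4 → O'.lam = O.lam → O'.Obs rk c :=
    fun O' hK' hl u1 m1 u2 m2 hs S0 T0 h1 h2 h3 h4 => H E O' hK' u1 m1 u2 m2 hs S0 T0 h1 h2
      fun Z z1 z2 => by
        rw [hl]
        by_contra hn
        have a1 := hT.isRK.mono _ _ z1
        have a2 := hT.isRK.mono T0 Zᶜ fun e he => mem_compl.2 (disjoint_right.1 z2 he)
        have a3 := hT.sep Z (by omega)
        omega
  have o1 := obs O hK rfl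
  have o2 := obs O.swap hK.swap O.lam_swap
  obtain ⟨B0, b0⟩ := O.exists_base
  obtain ⟨B1, Y1, a1, -, -, a4, a5, a6⟩ := s1 E O rk _ B0 ∅ (by omega) o1 o2 b0 hT
    (by simpa using O.lam_le_card ∅) hT.empty.le
  obtain ⟨B2, Y2, b1, b2, b3, b4, b5, b6⟩ := s2 E O rk _ B1 Y1 (by omega) o1 o2 a1 hT a4 a5
  obtain ⟨B3, Y3, c1, c2, -, -, -, c6⟩ := s3 E O rk _ B2 Y2 (by omega) o1 o2 b1 hT b4 b5
  have e1 : ∀ e ∈ Y1, e ∈ B3 ↔ e ∈ B1 := fun e he => (c2 e (b3 he)).trans (b2 e he)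
  have cc : ∀ {Y B B' : Finset E}, (∀ e ∈ Y, e ∈ B' ↔ e ∈ B) → ∀ e ∈ Y, e ∈ B'ᶜ ↔ e ∈ Bᶜ :=
    fun h e he => by rw [mem_compl, mem_compl, h e he]
  have a7 := a6.imp (fun h => h.persist (Subset.refl _) e1)
    fun h => h.persist (Subset.refl _) (cc e1)
  have b7 := b6.imp (fun h => h.persist (Subset.refl _) c2)
    fun h => h.persist (Subset.refl _) (cc c2)
  rcases a7 with p | p <;> rcases b7 with q | q <;> rcases c6 with r | r
  · exact two_stars o1 c1 p q (Subset.refl _)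
  · exact two_stars o1 c1 p q (Subset.refl _)
  · exact two_stars o1 c1 p r b3
  · exact two_stars o2 c1.swap q r (Subset.refl _)
  · exact two_stars o1 c1 q r (Subset.refl _)
  · exact two_stars o2 c1.swap p r b3
  · exact two_stars o2 c1.swap p q (Subset.refl _)
  · exact two_stars o2 c1.swap p q (Subset.refl _)

end OP

end Pool.Agent.Lib.MP_12b00b_co
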