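import Pool.Agent.Lib.MP_12b00b_co.Count
import Pool.Agent.Lib.MP_12b00b_co.Stage

/-! Networks representing a represented matroid. -/

namespace Pool.Agent.Lib.MP_12b00b_co

open Finset Module

section

variable {V : Type} [DecidableEq V] {adj : V → V → Prop}

theorem k4_cut {P Q : Finset V} {x f a c : V} (h1 : cut adj {x} {c} = 0) (h2 : cut adj {f} {a} = 0)
    (hxf : x ≠ f) (hac : a ≠ c) :
    cut adj P Q ≤ cut adj (P.erase x) (Q.erase a) + cut adj (P.erase f) (Q.erase c) := by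
  obtain ⟨Rx, Gx, hx, cx⟩ := exists_cut adj {x} {c}
  obtain ⟨Rf, Gf, hf, cf⟩ := exists_cut adj {f} {a}
  obtain ⟨R1, G1, g1, c1⟩ := exists_cut adj (P.erase x) (Q.erase a)
  obtain ⟨R2, G2, g2, c2⟩ := exists_cut adj (P.erase f) (Q.erase c)
  obtain rfl : Gx = ∅ := card_eq_zero.1 (by omega)
  obtain rfl : Gf = ∅ := card_eq_zero.1 (by omega)
  have a1 : Cut adj P Q ((R1 ∩ R2) ∪ (Rx ∩ R2) ∪ (Rf ∩ R1)) (G1 ∪ G2) := by
    refine ⟨fun p hp => ?_, fun y hy => ?_, fun u hu w hw => ?_⟩
    · have b1 := hx.src x (mem_singleton_self _)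
      have b2 := hf.src f (mem_singleton_self _)
      have b3 := fun h => g1.src p (mem_erase.2 ⟨h, hp⟩)
      have b4 := fun h => g2.src p (mem_erase.2 ⟨h, hp⟩)
      simp only [notMem_empty, or_false] at b1 b2
      simp only [mem_union, mem_inter]
      by_cases e1 : p = x
      · have := b4 (e1 ▸ hxf)
        have := e1 ▸ b1
        tauto
      by_cases e2 : p = f
      · have := b3 e1
        have := e2 ▸ b2
        tauto
      have := b3 e1
      have := b4 e2
      tauto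
    · have b1 := hx.snk c (mem_singleton_self _)
      have b2 := hf.snk a (mem_singleton_self _)
      have b3 := fun h => g1.snk y (mem_erase.2 ⟨h, hy⟩)
      have b4 := fun h => g2.snk y (mem_erase.2 ⟨h, hy⟩)
      simp only [mem_union, mem_inter]
      by_cases e1 : y = a
      · have := b4 (e1 ▸ hac)
        have := e1 ▸ b2
        tauto
      by_cases e2 : y = c
      · have := b3 e1
        have := e2 ▸ b1
        tauto
      have := b3 e1
      have := b4 e2
      tauto
    · have b1 := fun h => hx.step u h w hw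
      have b2 := fun h => hf.step u h w hw
      have b3 := fun h => g1.step u h w hw
      have b4 := fun h => g2.step u h w hw
      simp only [notMem_empty, or_false] at b1 b2
      simp only [mem_union, mem_inter] at hu ⊢
      tauto
  have a2 := a1.le
  have a3 := card_union_le G1 G2
  omega

theorem source_copies {E : Type} [Fintype E] [DecidableEq E] (ι : E ↪ V) (B : Finset E)
    (hB : ∀ t ∈ B.map ι, ∀ v, ¬ adj t v) : ∃ (ι' : E ↪ V ⊕ E) (adj' : V ⊕ E → V ⊕ E → Prop),
      (∀ t ∈ B.map ι', ∀ v, ¬ adj' t v) ∧ (∀ s ∈ Bᶜ.map ι', ∀ v, ¬ adj' v s) ∧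
      ∀ X : Finset E, cut adj' (X.map ι') (B.map ι') = cut adj (X.map ι) (B.map ι) := by
  classical
  let ι' : E ↪ V ⊕ E := ⟨fun e => if e ∈ B then Sum.inl (ι e) else Sum.inr e, fun a b h => by
    by_cases ha : a ∈ B <;> by_cases hb : b ∈ B <;> simpa [ha, hb] using h⟩
  have i1 : ∀ e ∈ B, ι' e = Sum.inl (ι e) := fun e he => if_pos he
  have i2 : ∀ e ∉ B, ι' e = Sum.inr e := fun e he => if_neg he
  refine ⟨ι', fun a b => ∃ w, b = Sum.inl w ∧ Sum.elim (fun u => adj u w) (fun e => w = ι e) a,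
    fun t ht v ⟨w, _, h⟩ => ?_, fun s hs v ⟨w, h, _⟩ => ?_, fun X => le_antisymm ?_ ?_⟩
  · obtain ⟨b, hb, rfl⟩ := mem_map.1 ht
    rw [i1 b hb] at h
    exact hB _ (mem_map_of_mem _ hb) w h
  · obtain ⟨b, hb, rfl⟩ := mem_map.1 hs
    rw [i2 b (mem_compl.1 hb)] at h
    exact Sum.inr_ne_inl h
  · obtain ⟨R, Γ, h, hc⟩ := exists_cut adj (X.map ι) (B.map ι)
    rw [← hc, ← card_map (Function.Embedding.inl (β := E))]
    refine Cut.le (R := R.disjSum X) ⟨fun x hx => ?_, fun y hy => ?_, fun a ha b ⟨w, hw, hb⟩ => ?_⟩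
    · obtain ⟨e, he, rfl⟩ := mem_map.1 hx
      by_cases heB : e ∈ B
      · simpa [i1 e heB] using h.src _ (mem_map_of_mem _ he)
      · simp [i2 e heB, he]
    · obtain ⟨e, he, rfl⟩ := mem_map.1 hy
      simpa [i1 e he] using h.snk _ (mem_map_of_mem _ he)
    · subst hw
      rcases a with u | e
      · simpa using h.step u (by simpa using ha) w hb
      · obtain rfl : w = ι e := hb
        simpa using h.src _ (mem_map_of_mem _ (by simpa using ha))
  · obtain ⟨R, Γ, h, hc⟩ := exists_cut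
      (fun a b => ∃ w, b = Sum.inl w ∧ Sum.elim (fun u => adj u w) (fun e => w = ι e) a)
      (X.map ι') (B.map ι')
    rw [← hc]
    have im : ∀ a ∈ Γ, Sum.elim id ι a ∈ Γ.image (Sum.elim id ι) := fun a ha =>
      mem_image_of_mem _ ha
    refine le_trans (Cut.le (R := R.toLeft) (Γ := Γ.image (Sum.elim id ι))
      ⟨fun x hx => ?_, fun y hy => ?_, fun a ha b hb => ?_⟩) card_image_le
    · obtain ⟨e, he, rfl⟩ := mem_map.1 hx
      have := h.src _ (mem_map_of_mem ι' he)
      by_cases heB : e ∈ B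
      · rw [i1 e heB] at this
        exact this.imp mem_toLeft.2 (im _)
      · rw [i2 e heB] at this
        rcases this with h1 | h1
        · exact (h.step _ h1 (Sum.inl (ι e)) ⟨_, rfl, rfl⟩).imp mem_toLeft.2 (im _)
        · exact Or.inr (im _ h1)
    · obtain ⟨e, he, rfl⟩ := mem_map.1 hy
      have := h.snk _ (mem_map_of_mem ι' he)
      rwa [i1 e he, ← mem_toLeft] at this
    · exact (h.step _ (mem_toLeft.1 ha) (Sum.inl b) ⟨_, rfl, hb⟩).imp mem_toLeft.2 (im _)

end

variable {F : Type} [Field F] {E : Type} [Fintype E] [DecidableEq E]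
  {V : Type} [Fintype V] [DecidableEq V] {adj : V → V → Prop} {ι : E ↪ V}

namespace OP

variable {O : OP F E} {B : Finset E} {T : Finset V}

/-- the network represents the matroid -/
def Rep (O : OP F E) (ι : E ↪ V) (adj : V → V → Prop) (T : Finset V) : Prop :=
  ∀ X : Finset E, cut adj (X.map ι) T = O.r X

theorem Rep.toBase (h : O.Rep ι adj T) (hB : O.Base B) : ∃ adj' : V → V → Prop,
    (∀ t ∈ B.map ι, ∀ v, ¬ adj' t v) ∧ O.Rep ι adj' (B.map ι) := by
  obtain ⟨adj', a1, a2⟩ := pivot (adj := adj) (T := T) (B := B.map ι) (G := univ.map ι)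
    (map_subset_map.2 (subset_univ _)) (by rw [h, card_map, hB.r_sub (Subset.refl _)])
    (by rw [h, card_map, hB.card]; exact O.r_le _)
  exact ⟨adj', a1, fun X => (a2 _ (map_subset_map.2 (subset_univ _))).trans (h X)⟩

omit [Fintype V] in
theorem Rep.formula (h : O.Rep ι adj (B.map ι)) (hs : ∀ t ∈ B.map ι, ∀ v, ¬ adj t v)
    (P : Finset E) {Q : Finset E} (hQ : Q ⊆ B) :
    O.r (P ∪ (B \ Q)) = #(B \ Q) + cut adj (P.map ι) (Q.map ι) := by
  rw [← h, map_union, Finset.map_sdiff, cut_sink hs _ (map_subset_map.2 hQ), ← Finset.map_sdiff, card_map]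

theorem not_base_lt {X : Finset E} (h : ¬ O.Base X) (hc : #X ≤ O.d) : O.r X < O.d := by
  have a1 := O.r_le X
  have a2 := O.r_add_nul X
  rw [base_iff] at h
  omega

theorem Rep.noK4 (h : O.Rep ι adj T) : O.NoK4 := by
  intro B1 B2 a c x f h1 h2 hc a1 a2 c1 c2 x2 x1 f2 f1 hac hxf n1 n2 n3 n4
  obtain ⟨adj', s, r⟩ := h.toBase h1
  have cd : ∀ {B : Finset E} {u w : E}, O.Base B → w ∈ B → #(insert u (B.erase w)) ≤ O.d :=
    fun {B u w} hB hw => by
      have := card_insert_le u (B.erase w)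
      have := card_erase_add_one hw
      have := hB.card
      omega
  have one : ∀ u w, w ∈ B1 → ¬ O.Base (insert u (B1.erase w)) → cut adj' {ι u} {ι w} = 0 :=
    fun u w hw hn => by
      have e1 := r.formula s {u} (singleton_subset_iff.2 hw)
      have e2 := not_base_lt hn (cd h1 hw)
      have e3 := card_erase_add_one hw
      have e4 := h1.card
      rw [sdiff_singleton_eq_erase, ← insert_eq, map_singleton, map_singleton] at e1
      omega
  have two : ∀ u w, u ∈ B1 → u ∉ B2 → w ∈ B2 → w ∉ B1 → ¬ O.Base (insert u (B2.erase w)) →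
      cut adj' (((B2 \ B1).map ι).erase (ι w)) (((B1 \ B2).map ι).erase (ι u)) + 2 ≤ #(B1 \ B2) :=
    fun u w u1 u2 w2 w1 hn => by
      have hs : (B1 \ B2).erase u ⊆ B1 := (erase_subset _ _).trans sdiff_subset
      have e1 := r.formula s ((B2 \ B1).erase w) hs
      have e2 := not_base_lt hn (cd h2 w2)
      have e3 := card_erase_add_one (mem_sdiff.2 ⟨u1, u2⟩)
      have e4 := h1.card
      have e5 : (B2 \ B1).erase w ∪ B1 \ (B1 \ B2).erase u = insert u (B2.erase w) := by
        ext y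
        simp only [mem_union, mem_erase, mem_sdiff, mem_insert]
        by_cases y1 : y = u
        · simp [y1, u1]
        by_cases y2 : y = w
        · simp [y2, w1, (y2 ▸ y1 : ¬ w = u)]
        tauto
      have e6 := card_le_card hs
      rw [e5, card_sdiff_of_subset hs, map_erase, map_erase] at e1
      omega
  have e1 := r.formula s (B2 \ B1) (sdiff_subset : B1 \ B2 ⊆ B1)
  have e2 := k4_cut (P := (B2 \ B1).map ι) (Q := (B1 \ B2).map ι) (one x c c1 n1) (one f a a1 n2)
    (fun hh => hxf (ι.injective hh)) fun hh => hac (ι.injective hh)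
  have e3 := two a x a1 a2 x2 x1 n3
  have e4 := two c f c1 c2 f2 f1 n4
  have e5 := card_le_card (sdiff_subset : B1 \ B2 ⊆ B1)
  have e6 := h1.card
  rw [card_sdiff_of_subset sdiff_subset, sdiff_sdiff_self_left, inter_comm, sdiff_union_inter,
    (base_iff.1 h2).1] at e1
  omega

theorem classes [Fintype F] (hB : O.Base B) (Q : Finset E) :
    ∃ A : Finset (Finset E), #A ≤ Fintype.card F ^ #Q ∧ (∀ s ∉ B, ∃ L ∈ A, s ∈ L) ∧
      ∀ L ∈ A, L ⊆ Bᶜ ∧ O.r (L ∪ (B \ Q)) ≤ #(B \ Q) + 1 := by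
  classical
  refine ⟨univ.image fun φ : Q → F => Bᶜ.filter fun s => ∀ b : Q, O.fu B b s = φ b,
    card_image_le.trans (by simp), fun s hs => ⟨_, mem_image_of_mem _
      (mem_univ fun b : Q => O.fu B b s), by simpa using hs⟩, fun L hL => ?_⟩
  obtain ⟨φ, -, rfl⟩ := mem_image.1 hL
  refine ⟨filter_subset _ _, ?_⟩
  set L := Bᶜ.filter fun s => ∀ b : Q, O.fu B b s = φ b with hL
  have r0 := O.r_add_nul (B \ Q)
  rcases L.eq_empty_or_nonempty with he | ⟨s0, h0⟩
  · rw [he, empty_union]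
    omega
  have a1 := O.rk_r.unit (B \ Q) s0
  have a2 := O.r_add (insert s0 (B \ Q))
  have a3 := O.r_add (L ∪ (B \ Q))
  have a4 : O.nul (insert s0 (B \ Q))ᶜ ≤ O.nul (L ∪ (B \ Q))ᶜ := nul_le_of fun u hu h e he => by
    simp only [mem_compl, not_not] at h he
    rcases mem_union.1 he with he | he
    · rw [hB.expand hu e, ← h s0 (mem_insert_self _ _), hB.expand hu s0]
      refine sum_congr rfl fun b hb => ?_
      by_cases hbQ : b ∈ Q
      · rw [(mem_filter.1 he).2 ⟨b, hbQ⟩, (mem_filter.1 h0).2 ⟨b, hbQ⟩]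
      · rw [h b (mem_insert_of_mem (mem_sdiff.2 ⟨hb, hbQ⟩)), zero_mul, zero_mul]
    · exact h e (mem_insert_of_mem he)
  omega

theorem few_arcs (F : Type) [Field F] [Fintype F] : ∃ γ, ∀ (E : Type) [Fintype E] [DecidableEq E]
    (O : OP F E) (V : Type) [Fintype V] [DecidableEq V] (ι : E ↪ V) (adj : V → V → Prop)
    (T : Finset V), O.Rep ι adj T → ∃ (B : Finset E) (ι' : E ↪ V ⊕ E)
      (A : Finset ((V ⊕ E) × (V ⊕ E))), (∀ t ∈ B.map ι', ∀ v, (t, v) ∉ A) ∧
      (∀ s ∈ Bᶜ.map ι', ∀ v, (v, s) ∉ A) ∧ O.Rep ι' (fun a b => (a, b) ∈ A) (B.map ι') ∧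
      #A ≤ γ * Fintype.card E := by
  classical
  obtain ⟨K, hK⟩ := bounded_width F
  obtain ⟨γ, hγ⟩ := arc_count (Fintype.card F) K Fintype.card_pos
  refine ⟨γ, fun E _ _ O V _ _ ι adj T h => ?_⟩
  obtain ⟨B, hB⟩ := O.exists_base
  obtain ⟨adj1, s1, r1⟩ := h.toBase hB
  obtain ⟨ι', adj2, s2, s3, r2⟩ := source_copies ι B s1
  obtain ⟨adj3, s4, s5, r3, hE⟩ := reduce (Bᶜ.map ι') (B.map ι') adj2 s3 s2
  have r4 : O.Rep ι' adj3 (B.map ι') := fun X => by
    rw [← r1, ← r2, cut_sink' s5, cut_sink' s2, r3 _ _ _ sdiff_subset]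
    rw [← Finset.map_sdiff]
    exact map_subset_map.2 fun e he => mem_compl.2 (mem_sdiff.1 he).2
  have e1 : Bᶜ.map ι' ∪ B.map ι' = univ.map ι' := by rw [← map_union, union_comm, union_compl]
  have eA : (fun a b => (a, b) ∈ univ.filter fun p : (V ⊕ E) × (V ⊕ E) => adj3 p.1 p.2) = adj3 := by
    ext a b
    simp
  refine ⟨B, ι', univ.filter fun p => adj3 p.1 p.2, fun t ht v => by simpa using s5 t ht v,
    fun s hs v => by simpa using s4 s hs v, by rwa [eA], ?_⟩
  have := hγ _ adj3 (Bᶜ.map ι') (B.map ι') (univ.filter fun p => adj3 p.1 p.2)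
    (fun p hp => (mem_filter.1 hp).2) (by simpa using disjoint_compl_left) s4 s5 hE
    (fun Q hQ => ?_) (fun P hP => ?_) ?_
  · rwa [e1, card_map, card_univ] at this
  · obtain ⟨Q, hQ', rfl⟩ := subset_map_iff.1 hQ
    replace hQ := hQ'
    obtain ⟨A, a1, a2, a3⟩ := classes hB Q
    refine ⟨A.image (·.map ι'), card_image_le.trans (by rwa [card_map]), fun s hs => ?_,
      fun L hL => ?_⟩
    · obtain ⟨s, hs', rfl⟩ := mem_map.1 hs
      obtain ⟨L, l1, l2⟩ := a2 s (mem_compl.1 hs')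
      exact ⟨_, mem_image_of_mem _ l1, mem_map_of_mem _ l2⟩
    · obtain ⟨L, hL', rfl⟩ := mem_image.1 hL
      have b1 := (a3 L hL').2
      rw [r4.formula s5 L hQ] at b1
      omega
  · obtain ⟨P, hP', rfl⟩ := subset_map_iff.1 hP
    replace hP := hP'
    obtain ⟨A, a1, a2, a3⟩ := classes hB.swap P
    refine ⟨A.image (·.map ι'), card_image_le.trans (by rwa [card_map]), fun s hs => ?_,
      fun L hL => ?_⟩
    · obtain ⟨s, hs', rfl⟩ := mem_map.1 hs
      obtain ⟨L, l1, l2⟩ := a2 s (by simpa using hs')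
      exact ⟨_, mem_image_of_mem _ l1, mem_map_of_mem _ l2⟩
    · obtain ⟨L, hL', rfl⟩ := mem_image.1 hL
      obtain ⟨b0, b1⟩ := a3 L hL'
      rw [compl_compl] at b0
      have b2 := r4.formula s5 P b0
      have b3 := O.swap.r_add_nul (L ∪ (Bᶜ \ P))
      have b4 := O.r_add (L ∪ (Bᶜ \ P))ᶜ
      have b5 : (L ∪ (Bᶜ \ P))ᶜ = P ∪ (B \ L) := by
        ext y
        have := @b0 y
        have := @hP y
        simp only [mem_union, mem_sdiff, mem_compl] at *
        tauto
      have b6 := card_union_of_disjoint (s := L) (t := Bᶜ \ P)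
        (disjoint_left.2 fun y y1 y2 => mem_compl.1 (mem_sdiff.1 y2).1 (b0 y1))
      have b7 := card_le_card b0
      have b8 := hB.card
      rw [compl_compl, b5, b2, card_sdiff_of_subset b0] at b4
      rw [swap_swap] at b3
      rw [cut_rev]
      omega
  · rw [e1]
    refine (hK E O h.noK4).map ι' fun X => ?_
    have b1 := r4.formula s5 (Bᶜ ∩ X) (sdiff_subset : B \ X ⊆ B)
    have b2 := r4.formula s5 (Bᶜ \ X) (inter_subset_left : B ∩ X ⊆ B)
    have b3 : Bᶜ ∩ X ∪ B \ (B \ X) = X := by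
      ext y
      simp only [mem_union, mem_sdiff, mem_compl, mem_inter]
      tauto
    have b4 : Bᶜ \ X ∪ B \ (B ∩ X) = Xᶜ := by
      ext y
      simp only [mem_union, mem_sdiff, mem_compl, mem_inter]
      tauto
    have b5 := O.lam_r X
    have b6 := card_sdiff_add_card_inter B X
    have b7 := hB.card
    rw [b3, sdiff_sdiff_self_left] at b1
    rw [b4, sdiff_inter_self_left] at b2
    rw [← map_inter, ← map_inter, ← Finset.map_sdiff, ← Finset.map_sdiff]
    omega

end OP

end Pool.Agent.Lib.MP_12b00b_co
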