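import Pool.Agent.Lib.MP_12b00b_co.Submod

/-! Represented matroids as pairs of orthogonal complementary subspaces. -/

namespace Pool.Agent.Lib.MP_12b00b_co

open Finset Module

variable {F : Type} [Field F] {E : Type} [Fintype E] [DecidableEq E]

/-- vectors supported in `X` -/
def Sup (F : Type) [Field F] {E : Type} (X : Finset E) : Submodule F (E → F) where
  carrier := {x | ∀ e ∉ X, x e = 0}
  add_mem' := fun {a b} ha hb e he => by simp [ha e he, hb e he]
  zero_mem' := fun _ _ => rfl
  smul_mem' := fun c {a} ha e he => by simp [ha e he]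

omit [Fintype E] [DecidableEq E] in
theorem mem_Sup {X : Finset E} {x : E → F} : x ∈ Sup F X ↔ ∀ e ∉ X, x e = 0 := Iff.rfl

omit [Fintype E] in
theorem finrank_Sup (X : Finset E) : finrank F (Sup F X) = #X := by
  let φ : Sup F X ≃ₗ[F] (X → F) :=
    { toFun := fun x e => x.1 e
      map_add' := fun _ _ => rfl
      map_smul' := fun _ _ => rfl
      invFun := fun y => ⟨fun e => if h : e ∈ X then y ⟨e, h⟩ else 0, fun e he => dif_neg he⟩
      left_inv := fun x => by
        ext e
        by_cases h : e ∈ X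
        · simp [h]
        · simp [h, x.2 e h]
      right_inv := fun y => by
        ext e
        simp }
  rw [φ.finrank_eq, finrank_fintype_fun_eq_card, Fintype.card_coe]

/-- orthogonal complement for the dot product -/
def perp (P : Submodule F (E → F)) : Submodule F (E → F) :=
  LinearMap.BilinForm.orthogonal (dotProductBilin F F) P

omit [DecidableEq E] in
theorem mem_perp {P : Submodule F (E → F)} {x : E → F} : x ∈ perp P ↔ ∀ p ∈ P, p ⬝ᵥ x = 0 :=
  Iff.rfl

omit [DecidableEq E] in
theorem finrank_perp (P : Submodule F (E → F)) :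
    finrank F P + finrank F (perp P) = Fintype.card E := by
  have h := LinearMap.BilinForm.finrank_add_finrank_orthogonal'
    (B := (dotProductBilin F F : (E → F) →ₗ[F] (E → F) →ₗ[F] F)) P
  have hk : LinearMap.ker (dotProductBilin F F : (E → F) →ₗ[F] (E → F) →ₗ[F] F) = ⊥ := by
    rw [LinearMap.ker_eq_bot']
    intro m hm
    exact dotProduct_eq_zero m fun w => congrArg (fun f : (E → F) →ₗ[F] F => f w) hm
  rw [hk, inf_bot_eq, finrank_bot, finrank_fintype_fun_eq_card] at h
  exact h

omit [DecidableEq E] in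
theorem finrank_add_le_of_orth {P Q : Submodule F (E → F)} (h : ∀ p ∈ P, ∀ q ∈ Q, p ⬝ᵥ q = 0) :
    finrank F P + finrank F Q ≤ Fintype.card E := by
  have h1 : Q ≤ perp P := fun q hq => mem_perp.2 fun p hp => h p hp q hq
  have h2 := Submodule.finrank_mono h1
  have h3 := finrank_perp P
  omega

/-- cocycle space and cycle space of a represented matroid -/
structure OP (F : Type) [Field F] (E : Type) [Fintype E] where
  U : Submodule F (E → F)
  W : Submodule F (E → F)
  orth : ∀ u ∈ U, ∀ w ∈ W, u ⬝ᵥ w = 0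
  dim : finrank F U + finrank F W = Fintype.card E

namespace OP

variable (O : OP F E)

/-- the dual -/
def swap : OP F E :=
  ⟨O.W, O.U, fun w hw u hu => by rw [dotProduct_comm]; exact O.orth u hu w hw,
    by rw [add_comm]; exact O.dim⟩

omit [DecidableEq E] in
@[simp] theorem swap_swap : O.swap.swap = O := rfl

omit [DecidableEq E] in
@[simp] theorem swap_U : O.swap.U = O.W := rfl

omit [DecidableEq E] in
@[simp] theorem swap_W : O.swap.W = O.U := rfl

/-- rank of the matroid -/
noncomputable def d : ℕ := finrank F O.U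

/-- dimension of the cocycles supported in `X` -/
noncomputable def nul (X : Finset E) : ℕ := finrank F (O.U ⊓ Sup F X : Submodule F (E → F))

omit [DecidableEq E] in
theorem d_add : O.d + O.swap.d = Fintype.card E := O.dim

omit [DecidableEq E] in
theorem nul_mono {X Y : Finset E} (h : X ⊆ Y) : O.nul X ≤ O.nul Y :=
  Submodule.finrank_mono (inf_le_inf_left _ fun _ hx e he => hx e fun hh => he (h hh))

omit [DecidableEq E] in
theorem nul_le (X : Finset E) : O.nul X ≤ O.d := Submodule.finrank_mono inf_le_left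

omit [DecidableEq E] in
theorem nul_univ : O.nul univ = O.d := by
  have : O.U ⊓ Sup F univ = O.U := inf_eq_left.2 fun _ _ e he => absurd (mem_univ e) he
  rw [nul, this, d]

omit [DecidableEq E] in
theorem nul_eq_zero {X : Finset E} :
    O.nul X = 0 ↔ ∀ u ∈ O.U, (∀ e ∉ X, u e = 0) → u = 0 := by
  rw [nul, Submodule.finrank_eq_zero, Submodule.eq_bot_iff]
  exact ⟨fun h u hu hx => h u ⟨hu, hx⟩, fun h u hu => h u hu.1 hu.2⟩

omit [DecidableEq E] in
theorem nul_empty : O.nul ∅ = 0 :=
  O.nul_eq_zero.2 fun _ _ h => funext fun e => h e (notMem_empty e)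

theorem nul_super (X Y : Finset E) : O.nul X + O.nul Y ≤ O.nul (X ∪ Y) + O.nul (X ∩ Y) := by
  have h := Submodule.finrank_sup_add_finrank_inf_eq (O.U ⊓ Sup F X) (O.U ⊓ Sup F Y)
  have h1 : (O.U ⊓ Sup F X) ⊔ (O.U ⊓ Sup F Y) ≤ O.U ⊓ Sup F (X ∪ Y) :=
    sup_le (inf_le_inf_left _ fun _ hx e he => hx e fun hh => he (mem_union_left _ hh))
      (inf_le_inf_left _ fun _ hx e he => hx e fun hh => he (mem_union_right _ hh))
  have h2 : (O.U ⊓ Sup F X) ⊓ (O.U ⊓ Sup F Y) ≤ O.U ⊓ Sup F (X ∩ Y) := fun x hx =>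
    ⟨hx.1.1, fun e he => by
      by_cases h : e ∈ X
      · exact hx.2.2 e fun hh => he (mem_inter.2 ⟨h, hh⟩)
      · exact hx.1.2 e h⟩
  have h3 := Submodule.finrank_mono h1
  have h4 := Submodule.finrank_mono h2
  unfold nul
  omega

theorem dual_le (X : Finset E) : O.swap.nul X + O.d ≤ #X + O.nul Xᶜ := by
  have h := Submodule.finrank_sup_add_finrank_inf_eq O.U (Sup F Xᶜ)
  have h1 := finrank_add_le_of_orth (P := O.U ⊔ Sup F Xᶜ) (Q := O.W ⊓ Sup F X)
    fun p hp q hq => by
      obtain ⟨u, hu, s, hs, rfl⟩ := Submodule.mem_sup.1 hp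
      rw [add_dotProduct, O.orth u hu q hq.1, zero_add]
      refine sum_eq_zero fun e _ => ?_
      by_cases he : e ∈ X
      · rw [hs e (by simpa using he), zero_mul]
      · rw [hq.2 e he, mul_zero]
  rw [finrank_Sup, card_compl] at h
  have h2 := card_le_univ X
  unfold nul d
  rw [swap_U]
  omega

theorem dual_eq (X : Finset E) : O.swap.nul X + O.d = #X + O.nul Xᶜ := by
  have h1 := O.dual_le X
  have h2 := O.swap.dual_le Xᶜ
  rw [swap_swap, compl_compl, card_compl] at h2
  have h3 := O.d_add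
  have h4 := card_le_univ X
  omega

theorem nul_insert (X : Finset E) (e : E) : O.nul (insert e X) ≤ O.nul X + 1 := by
  have h1 := O.dual_eq (insert e X)ᶜ
  have h2 := O.dual_eq Xᶜ
  have h3 := O.swap.nul_mono (compl_subset_compl.2 (subset_insert e X))
  rw [compl_compl, card_compl] at h1 h2
  have h4 := card_insert_le e X
  have h5 := card_le_univ (insert e X)
  have h6 := card_le_univ X
  omega

theorem nul_union_le (X Y : Finset E) : O.nul (X ∪ Y) ≤ O.nul X + #Y := by
  induction Y using Finset.induction_on with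
  | empty => simp
  | insert a s ha ih =>
    rw [union_insert, card_insert_of_notMem ha]
    have := O.nul_insert (X ∪ s) a
    omega

theorem nul_compl_le (X : Finset E) : O.nul X + O.nul Xᶜ ≤ O.d := by
  have := O.nul_super X Xᶜ
  rwa [union_compl, inter_compl, nul_univ, nul_empty] at this

/-- rank function -/
noncomputable def r (X : Finset E) : ℕ := O.d - O.nul Xᶜ

theorem r_add (X : Finset E) : O.r X + O.nul Xᶜ = O.d := by
  have := O.nul_le Xᶜ
  unfold r
  omega

theorem r_add_nul (X : Finset E) : O.r X + O.swap.nul X = #X := by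
  have h1 := O.r_add X
  have h2 := O.dual_eq X
  omega

theorem r_le (X : Finset E) : O.r X ≤ O.d := Nat.sub_le _ _

theorem r_empty : O.r ∅ = 0 := by
  have := O.r_add_nul ∅
  simp at this
  exact this.1

theorem rk_r : RK O.r where
  mono X Y h := by
    have h1 := O.r_add X
    have h2 := O.r_add Y
    have h3 := O.nul_mono (compl_subset_compl.2 h)
    omega
  submod X Y := by
    have h1 := O.r_add X
    have h2 := O.r_add Y
    have h3 := O.r_add (X ∪ Y)
    have h4 := O.r_add (X ∩ Y)
    have h5 := O.nul_super Xᶜ Yᶜ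
    rw [← compl_inter, ← compl_union] at h5
    omega
  unit X e := by
    have h1 := O.r_add_nul X
    have h2 := O.r_add_nul (insert e X)
    have h3 := O.swap.nul_mono (subset_insert e X)
    have h4 := card_insert_le e X
    omega

/-- connectivity function -/
noncomputable def lam (X : Finset E) : ℕ := O.d - (O.nul X + O.nul Xᶜ)

theorem lam_add (X : Finset E) : O.lam X + O.nul X + O.nul Xᶜ = O.d := by
  have := O.nul_compl_le X
  unfold lam
  omega

theorem lam_add' (X : Finset E) : O.lam X + O.nul X + O.swap.nul X = #X := by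
  have h1 := O.lam_add X
  have h2 := O.dual_eq X
  omega

theorem lam_swap : O.swap.lam = O.lam := by
  funext X
  have h1 := O.lam_add' X
  have h2 := O.swap.lam_add' X
  rw [swap_swap] at h2
  omega

theorem lam_compl (X : Finset E) : O.lam Xᶜ = O.lam X := by
  have h1 := O.lam_add X
  have h2 := O.lam_add Xᶜ
  rw [compl_compl] at h2
  omega

theorem lam_r (X : Finset E) : O.lam X + O.d = O.r X + O.r Xᶜ := by
  have h1 := O.lam_add X
  have h2 := O.r_add X
  have h3 := O.r_add Xᶜ
  rw [compl_compl] at h3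
  omega

theorem lam_submod (X Y : Finset E) : O.lam (X ∪ Y) + O.lam (X ∩ Y) ≤ O.lam X + O.lam Y := by
  have h1 := O.lam_r X
  have h2 := O.lam_r Y
  have h3 := O.lam_r (X ∪ Y)
  have h4 := O.lam_r (X ∩ Y)
  have h5 := O.rk_r.submod X Y
  have h6 := O.rk_r.submod Xᶜ Yᶜ
  rw [← compl_inter, ← compl_union] at h6
  omega

theorem lam_le_card (X : Finset E) : O.lam X ≤ #X := by
  have := O.lam_add' X
  omega

/-- bases -/
def Base (B : Finset E) : Prop :=
  (∀ u ∈ O.U, (∀ b ∈ B, u b = 0) → u = 0) ∧ ∀ w ∈ O.W, (∀ e ∉ B, w e = 0) → w = 0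

variable {O}

theorem span_iff {B : Finset E} : (∀ u ∈ O.U, (∀ b ∈ B, u b = 0) → u = 0) ↔ O.r B = O.d := by
  have h1 := O.r_add B
  have h2 := O.nul_eq_zero (X := Bᶜ)
  simp only [mem_compl, not_not] at h2
  rw [← h2]
  omega

theorem indep_iff {B : Finset E} : (∀ w ∈ O.W, (∀ e ∉ B, w e = 0) → w = 0) ↔ O.r B = #B := by
  have h1 := O.r_add_nul B
  have h2 := O.swap.nul_eq_zero (X := B)
  rw [swap_U] at h2
  rw [← h2]
  omega

theorem base_iff {B : Finset E} : O.Base B ↔ O.r B = O.d ∧ #B = O.d := by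
  rw [Base, span_iff, indep_iff]
  omega

theorem Base.card {B : Finset E} (h : O.Base B) : #B = O.d := (base_iff.1 h).2

theorem base_of_span {B : Finset E} (h : ∀ u ∈ O.U, (∀ b ∈ B, u b = 0) → u = 0)
    (hc : #B ≤ O.d) : O.Base B := by
  have h1 := span_iff.1 h
  have h2 := O.r_add_nul B
  exact base_iff.2 ⟨h1, by omega⟩

theorem Base.swap {B : Finset E} (h : O.Base B) : O.swap.Base Bᶜ :=
  ⟨fun w hw hb => h.2 w hw fun e he => hb e (mem_compl.2 he),
    fun u hu hb => h.1 u hu fun e he => hb e (by simpa using he)⟩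

theorem base_swap {B : Finset E} : O.swap.Base Bᶜ ↔ O.Base B :=
  ⟨fun h => by simpa using h.swap, Base.swap⟩

theorem interp {I : Finset E} (h : O.r I = #I) (a : E → F) : ∃ u ∈ O.U, ∀ b ∈ I, u b = a b := by
  have h1 := Submodule.finrank_sup_add_finrank_inf_eq O.U (Sup F Iᶜ)
  have h2 := O.r_add I
  have h3 := card_le_univ I
  rw [finrank_Sup, card_compl] at h1
  have h4 : O.U ⊔ Sup F Iᶜ = ⊤ := by
    apply Submodule.eq_top_of_finrank_eq
    rw [finrank_fintype_fun_eq_card]
    unfold nul d at h2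
    omega
  obtain ⟨u, hu, s, hs, hus⟩ := Submodule.mem_sup.1 (h4 ▸ Submodule.mem_top : a ∈ O.U ⊔ Sup F Iᶜ)
  refine ⟨u, hu, fun b hb => ?_⟩
  rw [← hus, Pi.add_apply, hs b (by simpa using hb), add_zero]

theorem Base.r_sub {B I : Finset E} (h : O.Base B) (hI : I ⊆ B) : O.r I = #I :=
  O.rk_r.indep_subset O.r_empty hI (by rw [(base_iff.1 h).1, h.card])

theorem Base.nul_compl {B I : Finset E} (h : O.Base B) (hI : I ⊆ B) :
    O.nul Iᶜ + #I = #B := by
  have h1 := O.r_add I
  have h2 := h.r_sub hI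
  have h3 := h.card
  omega

open Classical in
/-- fundamental cocircuit vector -/
noncomputable def fu (O : OP F E) (B : Finset E) (b : E) : E → F :=
  if h : ∃ u ∈ O.U, ∀ e ∈ B, u e = if e = b then 1 else 0 then h.choose else 0

theorem fu_mem (B : Finset E) (b : E) : O.fu B b ∈ O.U := by
  unfold fu
  split_ifs with h
  · exact h.choose_spec.1
  · exact zero_mem _

theorem Base.fu_apply {B : Finset E} (h : O.Base B) (b : E) {e : E} (he : e ∈ B) :
    O.fu B b e = if e = b then 1 else 0 := by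
  have h1 : ∃ u ∈ O.U, ∀ e ∈ B, u e = if e = b then 1 else 0 :=
    interp (h.r_sub (Subset.refl _)) _
  unfold fu
  rw [dif_pos h1]
  exact h1.choose_spec.2 e he

theorem Base.fu_self {B : Finset E} (h : O.Base B) {b : E} (hb : b ∈ B) : O.fu B b b = 1 := by
  rw [h.fu_apply b hb, if_pos rfl]

theorem Base.fu_ne {B : Finset E} (h : O.Base B) {b e : E} (he : e ∈ B) (hne : e ≠ b) :
    O.fu B b e = 0 := by
  rw [h.fu_apply b he, if_neg hne]

theorem Base.expand {B : Finset E} (h : O.Base B) {u : E → F} (hu : u ∈ O.U) (e : E) :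
    u e = ∑ b ∈ B, u b * O.fu B b e := by
  have h1 : u - ∑ b ∈ B, u b • O.fu B b = 0 := by
    refine h.1 _ (sub_mem hu (sum_mem fun b _ => O.U.smul_mem _ (fu_mem B b))) fun x hx => ?_
    rw [Pi.sub_apply, Finset.sum_apply, sum_eq_single x]
    · simp [h.fu_self hx]
    · intro b _ hb
      simp [h.fu_ne hx hb.symm]
    · intro hh
      exact absurd hx hh
  have h2 := congrFun h1 e
  rw [Pi.sub_apply, Finset.sum_apply, Pi.zero_apply, sub_eq_zero] at h2
  simpa using h2

omit [DecidableEq E] in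
theorem orth_two {u w : E → F} (hu : u ∈ O.U) (hw : w ∈ O.W) {a b : E} (hab : a ≠ b)
    (h : ∀ e, e ≠ a → e ≠ b → u e * w e = 0) : u a * w a + u b * w b = 0 := by
  have h1 := O.orth u hu w hw
  rw [dotProduct, Fintype.sum_eq_add a b hab fun e he => h e he.1 he.2] at h1
  exact h1

omit [DecidableEq E] in
theorem orth_one {u w : E → F} (hu : u ∈ O.U) (hw : w ∈ O.W) {a : E}
    (h : ∀ e, e ≠ a → u e * w e = 0) : u a * w a = 0 := by
  have h1 := O.orth u hu w hw
  rw [dotProduct, Fintype.sum_eq_single a h] at h1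
  exact h1

theorem Base.fu_swap {B : Finset E} (h : O.Base B) {b x : E} (hb : b ∈ B) (hx : x ∉ B) :
    O.fu B b x + O.swap.fu Bᶜ x b = 0 := by
  have hne : b ≠ x := fun hh => hx (hh ▸ hb)
  have h1 := orth_two (fu_mem (O := O) B b) (fu_mem (O := O.swap) Bᶜ x) hne fun e h1 h2 => by
    by_cases he : e ∈ B
    · rw [h.fu_ne he h1, zero_mul]
    · rw [h.swap.fu_ne (mem_compl.2 he) h2, mul_zero]
  rw [h.fu_self hb, h.swap.fu_self (mem_compl.2 hx), one_mul, mul_one] at h1
  rw [add_comm]
  exact h1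

theorem Base.exch {B : Finset E} (h : O.Base B) {b x : E} (hb : b ∈ B) {w : E → F}
    (hw : w ∈ O.W) (hwb : w b ≠ 0) (hw0 : ∀ e ∉ B, e ≠ x → w e = 0) :
    O.Base (insert x (B.erase b)) := by
  refine base_of_span (fun u hu hz => h.1 u hu fun e he => ?_) ?_
  · by_cases heb : e = b
    · subst heb
      have := orth_one hu hw (a := e) fun y hy => by
        by_cases hyB : y ∈ B
        · rw [hz y (mem_insert_of_mem (mem_erase.2 ⟨hy, hyB⟩)), zero_mul]
        · by_cases hyx : y = x
          · rw [hz y (hyx ▸ mem_insert_self _ _), zero_mul]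
          · rw [hw0 y hyB hyx, mul_zero]
      exact (mul_eq_zero.1 this).resolve_right hwb
    · exact hz e (mem_insert_of_mem (mem_erase.2 ⟨heb, he⟩))
  · have h1 := card_insert_le x (B.erase b)
    have h2 := card_erase_add_one hb
    have h3 := h.card
    omega

/-- no minor isomorphic to the cycle matroid of the complete graph on four vertices -/
def NoK4 (O : OP F E) : Prop :=
  ∀ (B₁ B₂ : Finset E) (a c x f : E), O.Base B₁ → O.Base B₂ → #(B₁ \ B₂) ≤ 3 →
    a ∈ B₁ → a ∉ B₂ → c ∈ B₁ → c ∉ B₂ → x ∈ B₂ → x ∉ B₁ → f ∈ B₂ → f ∉ B₁ → a ≠ c → x ≠ f →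
    ¬ O.Base (insert x (B₁.erase c)) → ¬ O.Base (insert f (B₁.erase a)) →
    ¬ O.Base (insert a (B₂.erase x)) → ¬ O.Base (insert c (B₂.erase f)) → False

theorem compl_exch {B : Finset E} {a x : E} (ha : a ∉ B) (hx : x ∈ B) :
    (insert x (Bᶜ.erase a))ᶜ = insert a (B.erase x) := by
  ext e
  simp only [mem_compl, mem_insert, mem_erase, not_or, not_and, not_not]
  constructor
  · rintro ⟨h1, h2⟩
    by_cases h : e = a
    · exact Or.inl h
    · exact Or.inr ⟨h1, h2 h⟩
  · rintro (rfl | ⟨h1, h2⟩)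
    · exact ⟨fun hh => ha (hh ▸ hx), fun hh => absurd rfl hh⟩
    · exact ⟨h1, fun _ => h2⟩

theorem NoK4.swap (h : O.NoK4) : O.swap.NoK4 := by
  intro B₁ B₂ a c x f h1 h2 hc a1 a2 c1 c2 x2 x1 f2 f1 hac hxf n1 n2 n3 n4
  have hcard : #(B₁ᶜ \ B₂ᶜ) ≤ 3 := by
    have e1 : B₁ᶜ \ B₂ᶜ = B₂ \ B₁ := by
      ext e
      simp [and_comm]
    have e2 := card_sdiff_add_card_inter B₁ B₂
    have e3 := card_sdiff_add_card_inter B₂ B₁
    have e4 := h1.card
    have e5 := h2.card
    rw [inter_comm] at e3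
    rw [e1]
    omega
  refine h B₁ᶜ B₂ᶜ f x c a h1.swap h2.swap hcard (by simpa) (by simpa) (by simpa) (by simpa)
    (by simpa) (by simpa) (by simpa) (by simpa) hxf.symm hac.symm (fun hh => n1 ?_)
    (fun hh => n2 ?_) (fun hh => n4 ?_) (fun hh => n3 ?_)
  · simpa [compl_exch x1 c1] using hh.swap
  · simpa [compl_exch f1 a1] using hh.swap
  · simpa [compl_exch c2 f2] using hh.swap
  · simpa [compl_exch a2 x2] using hh.swap

end OP

end Pool.Agent.Lib.MP_12b00b_co
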