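import Pool.Agent.Lib.MP_12b00b_co.K4

/-! Two highly connected parallel classes over a coline force an `M(K4)` minor. -/

namespace Pool.Agent.Lib.MP_12b00b_co

open Finset Module

variable {F : Type} [Field F] {E : Type} [Fintype E] [DecidableEq E]

theorem hom_eval {T : ℕ} (z : ℕ → F) (A : ℕ → ℕ → F) (α β γ : F) (h1 : ∀ i < T, A i i = α)
    (h2 : ∀ i j, i < j → j < T → A i j = β ∧ A j i = γ) {l : ℕ} (l1 : 1 ≤ l) (l2 : l < T) :
    ∑ i ∈ Ico 1 T, z i * A i l =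
      ∑ i ∈ Ico 1 T, z i * A i 0 + (α - γ) * z l + (β - γ) * ∑ i ∈ Ico 1 l, z i := by
  rw [← sum_Ico_consecutive _ l1 l2.le, ← sum_Ico_consecutive (fun i => z i * A i 0) l1 l2.le,
    sum_eq_sum_Ico_succ_bot l2, sum_eq_sum_Ico_succ_bot l2, h1 l l2, (h2 0 l l1 l2).2]
  have e1 : ∑ i ∈ Ico 1 l, z i * A i l = β * ∑ i ∈ Ico 1 l, z i := by
    rw [mul_sum]
    exact sum_congr rfl fun i hi => by rw [(h2 i l (mem_Ico.1 hi).2 l2).1, mul_comm]
  have e2 : ∑ i ∈ Ico 1 l, z i * A i 0 = γ * ∑ i ∈ Ico 1 l, z i := by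
    rw [mul_sum]
    exact sum_congr rfl fun i hi => by
      rw [(h2 0 i (mem_Ico.1 hi).1 ((mem_Ico.1 hi).2.trans l2)).2, mul_comm]
  have e3 : ∑ i ∈ Ico (l + 1) T, z i * A i l = ∑ i ∈ Ico (l + 1) T, z i * A i 0 :=
    sum_congr rfl fun i hi => by
      have := mem_Ico.1 hi
      rw [(h2 l i (by omega) this.2).2, (h2 0 i (by omega) this.2).2]
  rw [e1, e2, e3]
  ring

namespace OP

variable {O : OP F E}

theorem expand_three {B : Finset E} (hB : O.Base B) {h1 h2 : E} (m1 : h1 ∈ B) (m2 : h2 ∈ B)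
    (h12 : h1 ≠ h2) {T : ℕ} {κ : ℕ → E} (hκ : ∀ i < T, κ i ∈ B ∧ κ i ≠ h1 ∧ κ i ≠ h2)
    (hinj : ∀ i j, i < j → j < T → κ i ≠ κ j) {u : E → F} (hu : u ∈ O.U)
    (hK : ∀ k ∈ B \ insert h1 (insert h2 ((Ico 1 T).image κ)), u k = 0) (e : E) :
    u e = u h1 * O.fu B h1 e + u h2 * O.fu B h2 e + ∑ i ∈ Ico 1 T, u (κ i) * O.fu B (κ i) e := by
  have hsub : insert h1 (insert h2 ((Ico 1 T).image κ)) ⊆ B :=
    insert_subset m1 (insert_subset m2 (image_subset_iff.2 fun i hi => (hκ i (mem_Ico.1 hi).2).1))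
  have n2 : h2 ∉ (Ico 1 T).image κ := fun hh => by
    obtain ⟨i, hi, h⟩ := mem_image.1 hh
    exact (hκ i (mem_Ico.1 hi).2).2.2 h
  have n1 : h1 ∉ insert h2 ((Ico 1 T).image κ) := fun hh => by
    rcases mem_insert.1 hh with h | hh
    · exact h12 h
    obtain ⟨i, hi, h⟩ := mem_image.1 hh
    exact (hκ i (mem_Ico.1 hi).2).2.1 h
  rw [hB.expand hu e, ← sum_subset hsub fun k hk hk' => by rw [hK k (mem_sdiff.2 ⟨hk, hk'⟩), zero_mul],
    sum_insert n1, sum_insert n2, sum_image, add_assoc]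
  intro i hi j hj hij
  by_contra hne
  rcases lt_or_gt_of_ne hne with h | h
  · exact hinj i j h (mem_Ico.1 hj).2 hij
  · exact hinj j i h (mem_Ico.1 hi).2 hij.symm

theorem cfg_of_hom [Fintype F] (hK : O.NoK4) {B : Finset E} (hB : O.Base B) {h1 h2 : E}
    (m1 : h1 ∈ B) (m2 : h2 ∈ B) (h12 : h1 ≠ h2) {T : ℕ} (hT : Fintype.card F + 5 ≤ T)
    {κ x y : ℕ → E} (hκ : ∀ i < T, κ i ∈ B ∧ κ i ≠ h1 ∧ κ i ≠ h2)
    (hinj : ∀ i j, i < j → j < T → κ i ≠ κ j) {η α β γ η' θ' α' β' γ' : F}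
    (hx : ∀ i < T, O.fu B h1 (x i) = η ∧ O.fu B h2 (x i) = 0 ∧ O.fu B (κ i) (x i) = α)
    (hx' : ∀ i j, i < j → j < T → O.fu B (κ i) (x j) = β ∧ O.fu B (κ j) (x i) = γ)
    (hy : ∀ i < T, O.fu B h1 (y i) = η' ∧ O.fu B h2 (y i) = θ' ∧ O.fu B (κ i) (y i) = α')
    (hy' : ∀ i j, i < j → j < T → O.fu B (κ i) (y j) = β' ∧ O.fu B (κ j) (y i) = γ')
    (hη : η ≠ 0) (hθ : θ' ≠ 0) (s1 : α ≠ γ ∨ α ≠ β) (s2 : α' ≠ γ' ∨ α' ≠ β') : False := by
  have ex := fun u hu hk e => expand_three (u := u) hB m1 m2 h12 hκ hinj hu hk e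
  have T0 : 0 < T := by omega
  refine Cfg.false (T := T) (K := B \ insert h1 (insert h2 ((Ico 1 T).image κ))) (κ := κ) (x := x)
    (y := y) (a := α - γ) (b := β - γ) (a' := α' - γ') (b' := β' - γ') hK
    ⟨fun u hu hk l l1 l2 => ?_, fun u hu hk l l1 l2 => ?_, fun u hu hk x0 y0 z0 => ?_,
      fun s t c => ?_⟩ hT ?_ ?_
  · rw [ex u hu hk (x l), ex u hu hk (x 0), hom_eval (fun i => u (κ i))
      (fun i j => O.fu B (κ i) (x j)) α β γ (fun i hi => (hx i hi).2.2) hx' l1 l2,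
      (hx l l2).1, (hx l l2).2.1, (hx 0 T0).1, (hx 0 T0).2.1]
    ring
  · rw [ex u hu hk (y l), ex u hu hk (y 0), hom_eval (fun i => u (κ i))
      (fun i j => O.fu B (κ i) (y j)) α' β' γ' (fun i hi => (hy i hi).2.2) hy' l1 l2,
      (hy l l2).1, (hy l l2).2.1, (hy 0 T0).1, (hy 0 T0).2.1]
    ring
  · have hs : ∀ e, ∑ i ∈ Ico 1 T, u (κ i) * O.fu B (κ i) e = 0 := fun e =>
      sum_eq_zero fun i hi => by rw [z0 i (mem_Ico.1 hi).1 (mem_Ico.1 hi).2, zero_mul]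
    have e1 := ex u hu hk (x 0)
    have e2 := ex u hu hk (y 0)
    rw [hs, x0, (hx 0 T0).1, (hx 0 T0).2.1] at e1
    have q1 : u h1 = 0 := by simpa [hη] using e1
    rw [hs, y0, q1, (hy 0 T0).2.1] at e2
    have q2 : u h2 = 0 := by simpa [hθ] using e2
    funext e
    rw [ex u hu hk e, hs, q1, q2]
    simp
  · classical
    let A := ∑ i ∈ Ico 1 T, c i * O.fu B (κ i) (x 0)
    let A' := ∑ i ∈ Ico 1 T, c i * O.fu B (κ i) (y 0)
    obtain ⟨u, hu, hv⟩ := interp (hB.r_sub (Subset.refl B)) fun e =>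
      if e = h1 then (s - A) / η else if e = h2 then (t - A' - (s - A) / η * η') / θ' else
        ∑ i ∈ Ico 1 T, if κ i = e then c i else 0
    have hk : ∀ k ∈ B \ insert h1 (insert h2 ((Ico 1 T).image κ)), u k = 0 := fun k hk => by
      simp only [mem_sdiff, mem_insert, mem_image, not_or, not_exists, not_and] at hk
      rw [hv k hk.1, if_neg hk.2.1, if_neg hk.2.2.1]
      exact sum_eq_zero fun i hi => if_neg (hk.2.2.2 i hi)
    have hc : ∀ i, 1 ≤ i → i < T → u (κ i) = c i := fun i i1 i2 => by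
      rw [hv _ (hκ i i2).1, if_neg (hκ i i2).2.1, if_neg (hκ i i2).2.2,
        sum_eq_single_of_mem i (mem_Ico.2 ⟨i1, i2⟩), if_pos rfl]
      intro j hj hne
      rcases lt_or_gt_of_ne hne with h | h
      · exact if_neg (hinj j i h i2)
      · exact if_neg (hinj i j h (mem_Ico.1 hj).2).symm
    have hs : ∀ e, ∑ i ∈ Ico 1 T, u (κ i) * O.fu B (κ i) e =
        ∑ i ∈ Ico 1 T, c i * O.fu B (κ i) e := fun e =>
      sum_congr rfl fun i hi => by rw [hc i (mem_Ico.1 hi).1 (mem_Ico.1 hi).2]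
    have v1 : u h1 = (s - A) / η := by rw [hv _ m1, if_pos rfl]
    have v2 : u h2 = (t - A' - (s - A) / η * η') / θ' := by
      rw [hv _ m2, if_neg h12.symm, if_pos rfl]
    refine ⟨u, hu, hk, ?_, ?_, hc⟩
    · rw [ex u hu hk, hs, v1, (hx 0 T0).1, (hx 0 T0).2.1]
      field_simp
      simp only [A]
      ring
    · rw [ex u hu hk, hs, v1, v2, (hy 0 T0).1, (hy 0 T0).2.1]
      field_simp
      simp only [A']
      ring
  · by_contra hh
    simp only [not_or, not_not, sub_eq_zero] at hh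
    rcases s1 with h | h
    · exact h hh.1
    · exact h (hh.1.trans hh.2.symm)
  · by_contra hh
    simp only [not_or, not_not, sub_eq_zero] at hh
    rcases s2 with h | h
    · exact h hh.1
    · exact h (hh.1.trans hh.2.symm)

/-- the key obstruction -/
theorem coline (F : Type) [Field F] [Fintype F] : ∃ c, 1 ≤ c ∧ ∀ (E : Type) [Fintype E]
    [DecidableEq E] (O : OP F E), O.NoK4 → ∀ u1 ∈ O.U, ∀ u2 ∈ O.U,
    (∀ u ∈ O.U, (∀ e, u1 e = 0 → u2 e = 0 → u e = 0) → ∃ a b : F, ∀ e, u e = a * u1 e + b * u2 e) →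
    ∀ S0 T0 : Finset E, (∀ e ∈ S0, u1 e ≠ 0 ∧ u2 e = 0) → (∀ e ∈ T0, u2 e ≠ 0) →
    (∀ Z, S0 ⊆ Z → Disjoint Z T0 → c ≤ O.lam Z) → False := by
  classical
  obtain ⟨N1, hN1⟩ := ramsey ((F × F × F × F) × (F × F × F × F × F)) (Fintype.card F + 5 + 1)
  obtain ⟨N2, hN2⟩ := sep_cols F N1
  obtain ⟨N3, hN3⟩ := sep_cols F N2
  refine ⟨N3 + 1, by omega, fun E _ _ O hK u1 m1 u2 m2 hsp S0 T0 hS0 hT0 hc => ?_⟩
  let S : Finset E := univ.filter fun e => u1 e ≠ 0 ∧ u2 e = 0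
  let T : Finset E := univ.filter fun e => u2 e ≠ 0
  let L : Finset E := univ.filter fun e => u1 e = 0 ∧ u2 e = 0
  have mS : ∀ e, e ∈ S ↔ u1 e ≠ 0 ∧ u2 e = 0 := by simp [S]
  have mT : ∀ e, e ∈ T ↔ u2 e ≠ 0 := by simp [T]
  have mL : ∀ e, e ∈ L ↔ u1 e = 0 ∧ u2 e = 0 := by simp [L]
  have l0 : O.lam ∅ = 0 := by simpa using O.lam_le_card ∅
  obtain ⟨h1, hh1⟩ : S.Nonempty := by
    by_contra hn
    have := hc ∅ (fun e he => absurd ⟨e, (mS e).2 (hS0 e he)⟩ hn) (disjoint_empty_left _)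
    omega
  obtain ⟨h2, hh2⟩ : T.Nonempty := by
    by_contra hn
    have := hc univ (subset_univ _)
      (disjoint_left.2 fun e _ he => absurd ⟨e, (mT e).2 (hT0 e he)⟩ hn)
    rw [← compl_empty, lam_compl] at this
    omega
  rw [mS] at hh1
  rw [mT] at hh2
  have r1 : O.r (L ∪ S) < O.d := by
    have := r_lt_insert (X := L ∪ S) m2 (fun e he => by
      rcases mem_union.1 he with he | he
      exacts [((mL e).1 he).2, ((mS e).1 he).2]) hh2
    exact this.trans_le (O.r_le _)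
  have hcon : ∀ X ⊆ L, N3 + 1 + O.d ≤ O.r (L \ X ∪ S) + O.r (X ∪ T) := fun X hX => by
    have e1 : (L \ X ∪ S)ᶜ = X ∪ T := by
      ext e
      have := @hX e
      simp only [mem_compl, mem_union, mem_sdiff, mS, mT, mL] at this ⊢
      tauto
    have := hc (L \ X ∪ S) (fun e he => mem_union_right _ ((mS e).2 (hS0 e he)))
      (disjoint_left.2 fun e he he' => by
        have := hT0 e he'
        simp only [mem_union, mem_sdiff, mS, mL] at he
        tauto)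
    have h3 := O.lam_r (L \ X ∪ S)
    rw [e1] at h3
    omega
  have hdc : N3 + 2 ≤ O.d := by
    have h3 := hcon ∅ (empty_subset _)
    have h4 := O.r_le (∅ ∪ T)
    rw [sdiff_empty] at h3
    omega
  obtain ⟨K, hKL, hKc, hKS, hKT⟩ := common_span L (fun X => O.r (X ∪ S)) (fun X => O.r (X ∪ T))
    (O.d - (N3 + 2)) (O.rk_r.union_right S) (O.rk_r.union_right T) fun X hX => by
      have h3 := hcon X hX
      have h4 := O.r_le (L ∪ T)
      omega
  obtain ⟨K0, -, hK0K, hK0i, hK0r⟩ :=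
    O.rk_r.exists_basis O.r_empty (empty_subset K) (by simpa using O.r_empty)
  obtain ⟨BF, hK0B, hBL, hBi, hBr⟩ := O.rk_r.exists_basis O.r_empty (hK0K.trans hKL) hK0i
  have hsp' : ∀ u ∈ O.U, (∀ e ∈ BF, u e = 0) → ∃ a b : F, ∀ e, u e = a * u1 e + b * u2 e :=
    fun u hu h => hsp u hu fun e e1 e2 =>
      vanish_of_r hBL hBr.ge hu h e ((mL e).2 ⟨e1, e2⟩)
  have n1 : h1 ∉ BF := fun hh => hh1.1 ((mL _).1 (hBL hh)).1
  have n2 : h2 ∉ BF := fun hh => hh2 ((mL _).1 (hBL hh)).2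
  have h12 : h1 ≠ h2 := fun hh => hh2 (hh ▸ hh1.2)
  have hB : O.Base (insert h2 (insert h1 BF)) := by
    refine base_of_span (fun u hu h => ?_) ?_
    · simp only [forall_mem_insert] at h
      obtain ⟨a, b, hab⟩ := hsp' u hu h.2.2
      have qa : a = 0 := by simpa [h.2.1, hh1.1, hh1.2] using hab h1
      have qb : b = 0 := by simpa [h.1, hh2, qa] using hab h2
      funext e
      simp [hab e, qa, qb]
    · have t1 := r_lt_insert (X := BF) m1 (fun e he => ((mL e).1 (hBL he)).1) hh1.1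
      have t2 := r_lt_insert (X := insert h1 BF) m2
        (forall_mem_insert .. |>.2 ⟨hh1.2, fun e he => ((mL e).1 (hBL he)).2⟩) hh2
      have t3 := O.r_le (insert h2 (insert h1 BF))
      have t4 := card_insert_le h2 (insert h1 BF)
      have t5 := card_insert_le h1 BF
      omega
  set B := insert h2 (insert h1 BF) with hBdef
  have b1 : h1 ∈ B := by simp [hBdef]
  have b2 : h2 ∈ B := by simp [hBdef]
  have bF : ∀ e ∈ BF, e ∈ B := fun e he => by simp [hBdef, he]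
  have hR : N3 ≤ #(BF \ K0) := by
    have t1 := hB.card
    have t4 : #B ≤ _ := card_insert_le h2 (insert h1 BF)
    have t5 := card_insert_le h1 BF
    have t6 := card_le_card hK0K
    rw [card_sdiff_of_subset hK0B]
    omega
  have hdiff : ∀ D : Finset E, O.r (K ∪ D) = O.r (L ∪ D) → ∀ a ∈ BF \ K0, ∀ b ∈ BF \ K0, a ≠ b →
      ∃ x ∈ (D : Set E), O.fu B a x ≠ O.fu B b x := fun D hD a ha b hb hab => by
    by_contra hn
    simp only [mem_coe, not_exists, not_and, not_not] at hn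
    rw [mem_sdiff] at ha hb
    have hv := sub_mem (fu_mem (O := O) B a) (fu_mem (O := O) B b)
    have v1 := vanish_of_r hK0K hK0r.ge hv fun e he => by
      rw [Pi.sub_apply, hB.fu_ne (b := a) (bF e (hK0B he)) fun hh => ha.2 (hh ▸ he),
        hB.fu_ne (b := b) (bF e (hK0B he)) fun hh => hb.2 (hh ▸ he), sub_zero]
    have v2 := vanish_of_r (union_subset_union_left hKL) hD.ge hv (fun e he => by
      rcases mem_union.1 he with he | he
      · exact v1 e he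
      · rw [Pi.sub_apply, hn e he, sub_self]) a (mem_union_left _ (hBL ha.1))
    rw [Pi.sub_apply, hB.fu_self (bF a ha.1), hB.fu_ne (bF a ha.1) hab] at v2
    simp at v2
  have : Nonempty E := ⟨h1⟩
  obtain ⟨s1, hs1, c1, x, hxS, hxs⟩ := hN3 E E _ _ (O.fu B) (hdiff S hKS) hR
  obtain ⟨s2, hs2, c2, y, hyT, hys⟩ := hN2 E E s1 _ (O.fu B)
    (fun a ha b hb => hdiff T hKT a (hs1 ha) b (hs1 hb)) c1
  obtain ⟨κ, ⟨⟨η, α, β, γ⟩, η', θ', α', β', γ'⟩, hκ, hχ⟩ := hN1 E s2 (fun a b =>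
    ((O.fu B h1 (x a), O.fu B a (x a), O.fu B a (x b), O.fu B b (x a)),
      (O.fu B h1 (y a), O.fu B h2 (y a), O.fu B a (y a), O.fu B a (y b), O.fu B b (y a)))) c2
  simp only [Prod.mk.injEq] at hχ
  have hκB : ∀ i < Fintype.card F + 5 + 1, κ i ∈ BF := fun i hi =>
    (mem_sdiff.1 (hs1 (hs2 (hκ i hi)))).1
  obtain ⟨a1, a2, f1⟩ := hsp' _ (fu_mem B h1) fun e he =>
    hB.fu_ne (bF e he) fun hh => n1 (hh ▸ he)
  obtain ⟨a3, a4, f2⟩ := hsp' _ (fu_mem B h2) fun e he =>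
    hB.fu_ne (bF e he) fun hh => n2 (hh ▸ he)
  have q1 : a1 ≠ 0 := by
    rintro rfl
    simpa [hB.fu_self b1, hh1.2] using f1 h1
  have q3 : a3 = 0 := by simpa [hB.fu_ne b1 h12, hh1.1, hh1.2] using f2 h1
  have q4 : a4 ≠ 0 := by
    rintro rfl
    simpa [hB.fu_self b2, q3] using f2 h2
  have xS : ∀ i < Fintype.card F + 5 + 1, u1 (x (κ i)) ≠ 0 ∧ u2 (x (κ i)) = 0 := fun i hi =>
    (mS _).1 (hxS _ (hs2 (hκ i hi)))
  have yT : ∀ i < Fintype.card F + 5 + 1, u2 (y (κ i)) ≠ 0 := fun i hi =>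
    (mT _).1 (hyT _ (hκ i hi))
  have g01 := hχ 0 1 (by omega) (by omega)
  have g12 := hχ 1 2 (by omega) (by omega)
  refine cfg_of_hom hK hB b1 b2 h12 le_rfl (κ := κ) (x := fun i => x (κ i))
    (y := fun i => y (κ i)) (η := η) (α := α) (β := β) (γ := γ) (η' := η') (θ' := θ') (α' := α')
    (β' := β') (γ' := γ') (fun i hi => ?_) (fun i j hij hj => (hχ i j hij (by omega)).1)
    (fun i hi => ?_) (fun i j hij hj => (hχ i j hij (by omega)).2.1.2.2) (fun i hi => ?_)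
    (fun i j hij hj => (hχ i j hij (by omega)).2.2.2.2.2) ?_ ?_ ?_ ?_
  · have := hκB i (by omega)
    exact ⟨bF _ this, fun hh => n1 (hh ▸ this), fun hh => n2 (hh ▸ this)⟩
  · have := (hχ i _ hi (by omega)).2.1
    exact ⟨this.1, by simp [f2, q3, (xS i (by omega)).2], this.2.1⟩
  · have := (hχ i _ hi (by omega)).2.2
    exact ⟨this.1, this.2.1, this.2.2.1⟩
  · rw [← g01.2.1.1, f1]
    simp [q1, xS 0 (by omega)]
  · rw [← g01.2.2.2.1, f2]
    simp [q3, q4, yT 0 (by omega)]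
  · have := hxs _ (hs2 (hκ 0 (by omega))) _ (hs2 (hκ 1 (by omega))) g01.1
    rwa [g01.2.1.2.1, g01.2.1.2.2.1, g01.2.1.2.2.2, g12.2.1.2.1] at this
  · have := hys _ (hκ 0 (by omega)) _ (hκ 1 (by omega)) g01.1
    rwa [g01.2.2.2.2.1, g01.2.2.2.2.2.1, g01.2.2.2.2.2.2, g12.2.2.2.2.1] at this

end OP

end Pool.Agent.Lib.MP_12b00b_co
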