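import Mathlib

/-! Rank-like set functions, common spanning sets, finite Ramsey theorem. -/

namespace Pool.Agent.Lib.MP_12b00b_co

open Finset

variable {α : Type} [DecidableEq α]

/-- monotone, submodular, unit increasing set functions -/
structure RK (f : Finset α → ℕ) : Prop where
  mono : ∀ X Y, X ⊆ Y → f X ≤ f Y
  submod : ∀ X Y, f (X ∪ Y) + f (X ∩ Y) ≤ f X + f Y
  unit : ∀ X e, f (insert e X) ≤ f X + 1

namespace RK

variable {f : Finset α → ℕ}

theorem le_add_card (h : RK f) (X Y : Finset α) : f (X ∪ Y) ≤ f X + #Y := by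
  induction Y using Finset.induction_on with
  | empty => simp
  | insert a s ha ih =>
    rw [union_insert, card_insert_of_notMem ha]
    have := h.unit (X ∪ s) a
    omega

theorem le_card (h : RK f) (h0 : f ∅ = 0) (Y : Finset α) : f Y ≤ #Y := by
  simpa [h0] using h.le_add_card ∅ Y

theorem union_le (h : RK f) (X Y : Finset α) : f (X ∪ Y) ≤ f X + f Y := by
  have := h.submod X Y
  omega

theorem biUnion_le {ι : Type} [DecidableEq ι] (h : RK f) (h0 : f ∅ = 0) (s : Finset ι)
    (g : ι → Finset α) (n : ℕ) (hg : ∀ i ∈ s, f (g i) ≤ n) : f (s.biUnion g) ≤ #s * n := by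
  induction s using Finset.induction_on with
  | empty => simp [h0]
  | insert a s ha ih =>
    rw [biUnion_insert, card_insert_of_notMem ha]
    have h1 := h.union_le (g a) (s.biUnion g)
    have h2 := hg a (mem_insert_self _ _)
    have h3 := ih fun i hi => hg i (mem_insert_of_mem hi)
    nlinarith

theorem gain (h : RK f) {X Y : Finset α} {e : α} (hXY : X ⊆ Y) (he : f Y < f (insert e Y)) :
    f X < f (insert e X) := by
  have heY : e ∉ Y := fun hh => by rw [insert_eq_of_mem hh] at he; exact lt_irrefl _ he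
  have h1 := h.submod (insert e X) Y
  have h2 : insert e X ∪ Y = insert e Y := by
    rw [insert_union, union_eq_right.2 hXY]
  have h3 : insert e X ∩ Y = X := by
    rw [insert_inter_of_notMem heY, inter_eq_left.2 hXY]
  rw [h2, h3] at h1
  omega

theorem span (h : RK f) (J X : Finset α) (hX : ∀ e ∈ X, f (insert e J) ≤ f J) :
    f (J ∪ X) ≤ f J := by
  induction X using Finset.induction_on with
  | empty => simp
  | insert a s _ ih =>
    have ih' := ih fun e he => hX e (mem_insert_of_mem he)
    rw [union_insert]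
    by_contra hlt
    have h1 : f (J ∪ s) < f (insert a (J ∪ s)) := by omega
    have h2 := h.gain subset_union_left h1
    have h3 := hX a (mem_insert_self _ _)
    omega

theorem indep_subset (h : RK f) (h0 : f ∅ = 0) {I J : Finset α} (hIJ : I ⊆ J) (hJ : f J = #J) :
    f I = #I := by
  have h1 := h.le_add_card I (J \ I)
  rw [union_sdiff_of_subset hIJ, card_sdiff_of_subset hIJ] at h1
  have h2 := h.le_card h0 I
  have h3 := card_le_card hIJ
  omega

theorem exists_basis (h : RK f) (_h0 : f ∅ = 0) {I X : Finset α} (hI : I ⊆ X) (hi : f I = #I) :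
    ∃ J, I ⊆ J ∧ J ⊆ X ∧ f J = #J ∧ f J = f X := by
  obtain ⟨J, hJ, hmax⟩ := exists_max_image (X.powerset.filter fun J => I ⊆ J ∧ f J = #J) card
    ⟨I, by simp [hI, hi]⟩
  simp only [mem_filter, mem_powerset] at hJ hmax
  refine ⟨J, hJ.2.1, hJ.1, hJ.2.2, le_antisymm (h.mono _ _ hJ.1) ?_⟩
  have := h.span J X fun e he => by
    by_contra hlt
    have heJ : e ∉ J := fun hh => by rw [insert_eq_of_mem hh] at hlt; exact hlt le_rfl
    have h1 := h.unit J e
    have h2 := hmax (insert e J) ⟨insert_subset he hJ.1, hJ.2.1.trans (subset_insert _ _),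
      by rw [card_insert_of_notMem heJ]; omega⟩
    rw [card_insert_of_notMem heJ] at h2
    omega
  rwa [union_eq_right.2 hJ.1] at this

theorem exists_indep_card (h : RK f) (h0 : f ∅ = 0) {X : Finset α} {n : ℕ} (hn : n ≤ f X) :
    ∃ Z ⊆ X, #Z = n ∧ f Z = n := by
  obtain ⟨J, -, hJX, hJ, hJf⟩ := h.exists_basis h0 (empty_subset X) (by simpa using h0)
  obtain ⟨Z, hZ, hc⟩ := exists_subset_card_eq (s := J) (n := n) (by omega)
  exact ⟨Z, hZ.trans hJX, hc, by rw [h.indep_subset h0 hZ hJ, hc]⟩

theorem contract (h : RK f) (e : α) : RK fun X => f (insert e X) where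
  mono X Y hXY := h.mono _ _ (insert_subset_insert _ hXY)
  submod X Y := by
    have := h.submod (insert e X) (insert e Y)
    rwa [← insert_union_distrib, ← insert_inter_distrib] at this
  unit X a := by
    rw [Finset.insert_comm]
    exact h.unit _ _

theorem union_right (h : RK f) (S : Finset α) : RK fun X => f (X ∪ S) where
  mono X Y hXY := h.mono _ _ (union_subset_union_left hXY)
  submod X Y := by
    have := h.submod (X ∪ S) (Y ∪ S)
    rwa [← union_union_distrib_right, ← inter_union_distrib_right] at this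
  unit X a := by
    rw [insert_union]
    exact h.unit _ _

/-- two rank functions with the same independent sets agree -/
theorem eq_of_indep {g : Finset α → ℕ} (h : RK f) (h0 : f ∅ = 0) (h' : RK g) (h0' : g ∅ = 0)
    (hi : ∀ X, f X = #X ↔ g X = #X) (X : Finset α) : f X = g X := by
  obtain ⟨J, -, hJX, hJ, hJf⟩ := h.exists_basis h0 (empty_subset X) (by simpa using h0)
  obtain ⟨J', -, hJX', hJ', hJf'⟩ := h'.exists_basis h0' (empty_subset X) (by simpa using h0')
  have h1 := (hi J).1 hJ
  have h2 := (hi J').2 hJ'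
  have h3 := h'.mono _ _ hJX
  have h4 := h.mono _ _ hJX'
  omega

end RK

theorem coloop_sub {f : Finset α → ℕ} (h : RK f) {F X : Finset α} {e : α}
    (hc : f F < f (insert e F)) : f (F \ X) < f (insert e (F \ X)) :=
  h.gain sdiff_subset hc

/-- common spanning sets of two rank functions -/
theorem common_span (F : Finset α) : ∀ (f g : Finset α → ℕ) (m : ℕ), RK f → RK g →
    (∀ X ⊆ F, f F + g F ≤ m + f (F \ X) + g X) →
    ∃ K ⊆ F, #K ≤ m ∧ f K = f F ∧ g K = g F := by
  induction F using Finset.induction_on with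
  | empty => intro f g m _ _ _; exact ⟨∅, Subset.refl _, by simp, rfl, rfl⟩
  | insert e F he ih =>
    intro f g m hf hg H
    have hsd : ∀ X ⊆ F, insert e F \ X = insert e (F \ X) := fun X hX =>
      insert_sdiff_of_notMem _ fun hh => he (hX hh)
    have hsd' : ∀ X, insert e F \ insert e X = F \ X := fun X => by
      ext a
      simp only [mem_sdiff, mem_insert, not_or]
      constructor
      · rintro ⟨h1 | h1, h2, h3⟩
        · exact absurd h1 h2
        · exact ⟨h1, h3⟩
      · rintro ⟨h1, h2⟩
        exact ⟨Or.inr h1, fun hh => he (hh ▸ h1), h2⟩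
    by_cases hcon : ∀ X ⊆ F, f (insert e F) + g (insert e F) + 1 ≤
        m + f (insert e (F \ X)) + g (insert e X)
    · have hm : 1 ≤ m := by
        have h1 := hcon ∅ (empty_subset _)
        rw [sdiff_empty] at h1
        have h2 := hg.mono (insert e ∅) (insert e F) (insert_subset_insert _ (empty_subset _))
        omega
      obtain ⟨K, hK, hc, h1, h2⟩ := ih (fun X => f (insert e X)) (fun X => g (insert e X)) (m - 1)
        (hf.contract e) (hg.contract e) fun X hX => by
          have := hcon X hX
          omega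
      refine ⟨insert e K, insert_subset_insert _ hK, ?_, h1, h2⟩
      have := card_insert_le e K
      omega
    · push Not at hcon
      obtain ⟨X₂, hX₂, hlt⟩ := hcon
      have hf1 : f (insert e F) ≤ f F := by
        by_contra hc
        have h1 := coloop_sub (X := X₂) hf (not_le.1 hc)
        have h2 := H (insert e X₂) (insert_subset_insert _ hX₂)
        rw [hsd'] at h2
        omega
      have hg1 : g (insert e F) ≤ g F := by
        by_contra hc
        have h1 := hg.gain hX₂ (not_le.1 hc)
        have h2 := H X₂ (hX₂.trans (subset_insert _ _))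
        rw [hsd _ hX₂] at h2
        omega
      have hf2 := hf.mono _ _ (subset_insert e F)
      have hg2 := hg.mono _ _ (subset_insert e F)
      obtain ⟨K, hK, hc, h1, h2⟩ := ih f g m hf hg fun X₁ hX₁ => by
        by_contra hc
        have a1 := hf.submod (F \ X₁) (insert e (F \ X₂))
        have a2 := hg.submod X₁ (insert e X₂)
        have b1 : F \ X₁ ∪ insert e (F \ X₂) = insert e (F \ (X₁ ∩ X₂)) := by
          rw [union_insert, sdiff_inter_distrib_right]
        have b2 : F \ X₁ ∩ insert e (F \ X₂) = F \ (X₁ ∪ X₂) := by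
          rw [inter_insert_of_notMem (fun hh => he (mem_sdiff.1 hh).1), sdiff_union_distrib]
        have b3 : X₁ ∪ insert e X₂ = insert e (X₁ ∪ X₂) := by rw [union_insert]
        have b4 : X₁ ∩ insert e X₂ = X₁ ∩ X₂ :=
          inter_insert_of_notMem fun hh => he (hX₁ hh)
        rw [b1, b2] at a1
        rw [b3, b4] at a2
        have c1 := H (X₁ ∩ X₂) ((inter_subset_left.trans hX₁).trans (subset_insert _ _))
        have c2 := H (insert e (X₁ ∪ X₂)) (insert_subset_insert _ (union_subset hX₁ hX₂))
        rw [hsd _ (inter_subset_left.trans hX₁)] at c1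
        rw [hsd'] at c2
        omega
      exact ⟨K, hK.trans (subset_insert _ _), hc, by omega, by omega⟩

/-- end-homogeneous sequences -/
theorem end_hom (C : Type) [Fintype C] (L : ℕ) : ∃ N, ∀ (β : Type) (s : Finset β)
    (χ : β → β → C), N ≤ #s → ∃ (g : ℕ → β) (c : ℕ → C), (∀ i < L + 1, g i ∈ s) ∧
      (∀ i j, i < j → j < L + 1 → g i ≠ g j ∧ χ (g i) (g j) = c i) := by
  classical
  induction L with
  | zero =>
    refine ⟨1, fun β s χ hs => ?_⟩
    obtain ⟨a, ha⟩ := card_pos.1 hs
    exact ⟨fun _ => a, fun _ => χ a a, fun _ _ => ha, fun i j h1 h2 => by omega⟩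
  | succ L ih =>
    obtain ⟨N, hN⟩ := ih
    refine ⟨Fintype.card C * N + 1, fun β s χ hs => ?_⟩
    obtain ⟨a, ha⟩ := card_pos.1 (by omega : 0 < #s)
    obtain ⟨c₀, -, hc₀⟩ := exists_le_card_fiber_of_mul_le_card_of_maps_to (s := s.erase a)
      (t := (univ : Finset C)) (f := χ a) (n := N) (fun _ _ => mem_univ _) ⟨χ a a, mem_univ _⟩
      (by rw [card_erase_of_mem ha, card_univ]; omega)
    obtain ⟨g, c, h1, h2⟩ := hN β _ χ hc₀
    refine ⟨fun i => Nat.casesOn i a g, fun i => Nat.casesOn i c₀ c, fun i hi => ?_,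
      fun i j hij hj => ?_⟩
    · rcases i with _ | i
      · exact ha
      · exact mem_of_mem_erase (mem_filter.1 (h1 i (by omega))).1
    · rcases j with _ | j
      · omega
      rcases i with _ | i
      · have := mem_filter.1 (h1 j (by omega))
        exact ⟨(ne_of_mem_erase this.1).symm, this.2⟩
      · exact h2 i j (by omega) (by omega)

/-- finite Ramsey theorem for pairs -/
theorem ramsey (C : Type) [Fintype C] (t : ℕ) : ∃ N, ∀ (β : Type) (s : Finset β)
    (χ : β → β → C), N ≤ #s → ∃ (g : ℕ → β) (c : C), (∀ i < t, g i ∈ s) ∧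
      (∀ i j, i < j → j < t → g i ≠ g j ∧ χ (g i) (g j) = c) := by
  classical
  obtain ⟨N, hN⟩ := end_hom C (Fintype.card C * t)
  refine ⟨N, fun β s χ hs => ?_⟩
  obtain ⟨g, c, h1, h2⟩ := hN β s χ hs
  obtain ⟨c₀, -, hc₀⟩ := exists_le_card_fiber_of_mul_le_card_of_maps_to
    (s := range (Fintype.card C * t + 1)) (t := (univ : Finset C)) (f := c) (n := t)
    (fun _ _ => mem_univ _) ⟨c 0, mem_univ _⟩ (by rw [card_range, card_univ]; omega)
  obtain ⟨u, hu, hcu⟩ := exists_subset_card_eq hc₀
  let e := u.orderEmbOfFin hcu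
  have he : ∀ i : Fin t, e i < Fintype.card C * t + 1 ∧ c (e i) = c₀ := fun i => by
    have := mem_filter.1 (hu (u.orderEmbOfFin_mem hcu i))
    exact ⟨mem_range.1 this.1, this.2⟩
  refine ⟨fun i => if h : i < t then g (e ⟨i, h⟩) else g 0, c₀, fun i hi => ?_,
    fun i j hij hj => ?_⟩
  · simp only [dif_pos hi]
    exact h1 _ (he _).1
  · have hi : i < t := by omega
    simp only [dif_pos hi, dif_pos hj]
    have := h2 (e ⟨i, hi⟩) (e ⟨j, hj⟩) (e.strictMono (by simpa using hij)) (he _).1
    exact ⟨this.1, this.2.trans (he _).2⟩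

/-- a large family of pairwise distinct rows has a large subfamily with private columns -/
theorem sep_cols (C : Type) [Fintype C] (t : ℕ) : ∃ N, ∀ (β γ : Type) [Nonempty γ]
    (s : Finset β) (D : Set γ) (val : β → γ → C),
    (∀ a ∈ s, ∀ b ∈ s, a ≠ b → ∃ x ∈ D, val a x ≠ val b x) → N ≤ #s →
    ∃ s' ⊆ s, t ≤ #s' ∧ ∃ x : β → γ, (∀ a ∈ s', x a ∈ D) ∧
      ∀ a ∈ s', ∀ b ∈ s', a ≠ b → val a (x a) ≠ val b (x a) ∨ val b (x b) ≠ val a (x b) := by
  classical
  induction t with
  | zero =>
    exact ⟨0, fun β γ _ s D val _ _ => ⟨∅, empty_subset _, le_rfl,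
      fun _ => Classical.arbitrary γ, by simp, by simp⟩⟩
  | succ t ih =>
    obtain ⟨N, hN⟩ := ih
    refine ⟨Fintype.card C * N + 2, fun β γ _ s D val hd hs => ?_⟩
    obtain ⟨a, ha, b, hb, hab⟩ := one_lt_card.1 (by omega : 1 < #s)
    obtain ⟨x₀, hx₀, hne⟩ := hd a ha b hb hab
    obtain ⟨c₀, -, hc₀⟩ := exists_le_card_fiber_of_mul_le_card_of_maps_to (s := s)
      (t := (univ : Finset C)) (f := fun r => val r x₀) (n := N) (fun _ _ => mem_univ _)
      ⟨val a x₀, mem_univ _⟩ (by rw [card_univ]; omega)
    obtain ⟨r, hr, hrc⟩ : ∃ r ∈ s, val r x₀ ≠ c₀ := by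
      by_cases h : val a x₀ = c₀
      · exact ⟨b, hb, fun hh => hne (h.trans hh.symm)⟩
      · exact ⟨a, ha, h⟩
    obtain ⟨s', hs', hc, x, hx, hsep⟩ := hN β γ _ D val
      (fun a ha b hb => hd a (mem_filter.1 ha).1 b (mem_filter.1 hb).1) hc₀
    have hrs : r ∉ s' := fun hh => hrc (mem_filter.1 (hs' hh)).2
    have hne' : ∀ a ∈ s', a ≠ r := fun a ha hh => hrs (hh ▸ ha)
    refine ⟨insert r s', insert_subset hr (hs'.trans (filter_subset _ _)),
      by rw [card_insert_of_notMem hrs]; omega, Function.update x r x₀, fun a ha => ?_,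
      fun a ha b hb hab => ?_⟩
    · rcases mem_insert.1 ha with rfl | ha
      · simpa using hx₀
      · rw [Function.update_of_ne (hne' a ha)]
        exact hx a ha
    · rcases mem_insert.1 ha with rfl | ha'
      · rcases mem_insert.1 hb with rfl | hb'
        · exact absurd rfl hab
        · left
          rw [Function.update_self, (mem_filter.1 (hs' hb')).2]
          exact hrc
      · rcases mem_insert.1 hb with rfl | hb'
        · right
          rw [Function.update_self, (mem_filter.1 (hs' ha')).2]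
          exact hrc
        · rw [Function.update_of_ne (hne' a ha'), Function.update_of_ne (hne' b hb')]
          exact hsep a ha' b hb' hab

end Pool.Agent.Lib.MP_12b00b_co
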